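import Mathlib

set_option autoImplicit false

/-!
# A counting argument
-/

namespace Q229.TR

open Finset
open scoped Classical

theorem two_mul_pow_le (x : ℕ) : 2 * x ^ x ≤ (x + 1) ^ x ∨ x = 0 := by
  rcases Nat.eq_zero_or_pos x with hx | hx
  · exact Or.inr hx
  left
  have h0 : (0 : ℝ) < x := by exact_mod_cast hx
  have h1 : (1 : ℝ) + (x : ℝ) * (1 / x) ≤ (1 + 1 / (x : ℝ)) ^ x :=
    one_add_mul_le_pow (by have : (0 : ℝ) < 1 / x := by positivity
                           linarith) x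
  have h2 : (x : ℝ) * (1 / x) = 1 := by field_simp
  rw [h2] at h1
  have h3 : ((x : ℝ) + 1) ^ x = (1 + 1 / (x : ℝ)) ^ x * (x : ℝ) ^ x := by
    rw [← mul_pow]
    congr 1
    field_simp
  have h4 : (2 : ℝ) * (x : ℝ) ^ x ≤ ((x : ℝ) + 1) ^ x := by
    rw [h3]
    have : (0 : ℝ) < (x : ℝ) ^ x := by positivity
    nlinarith
  exact_mod_cast h4

/-- `2 ^ t` is small compared with the ratio of powers. -/
theorem pow_gap {x t g : ℕ} (hx : 1 ≤ x) (hg : t * x ≤ g) : 2 ^ t * x ^ g ≤ (x + 1) ^ g := by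
  obtain ⟨m, rfl⟩ : ∃ m, g = t * x + m := ⟨g - t * x, by omega⟩
  have h1 : 2 * x ^ x ≤ (x + 1) ^ x := by
    rcases two_mul_pow_le x with h | h
    · exact h
    · omega
  have h2 : (2 * x ^ x) ^ t ≤ ((x + 1) ^ x) ^ t := Nat.pow_le_pow_left h1 t
  have h3 : x ^ m ≤ (x + 1) ^ m := Nat.pow_le_pow_left (Nat.le_succ x) m
  calc 2 ^ t * x ^ (t * x + m) = (2 * x ^ x) ^ t * x ^ m := by
        rw [mul_pow, pow_add, ← pow_mul, mul_comm x t]
        ring
    _ ≤ ((x + 1) ^ x) ^ t * (x + 1) ^ m := Nat.mul_le_mul h2 h3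
    _ = (x + 1) ^ (t * x + m) := by
        rw [← pow_mul, mul_comm x t, pow_add]

/-- The number of functions for which `cl B (S B)` determines `S`. -/
theorem card_collapse {L : ℕ} {Ω : Type} [Fintype Ω] (C : Finset (Fin L → Ω))
    (cl : Fin L → Ω → Ω) (G : Finset (Fin L)) (hG : ∀ B ∈ G, ∃ ω, ∀ x, cl B x ≠ ω)
    (hinj : ∀ S ∈ C, ∀ S' ∈ C, (∀ B, cl B (S B) = cl B (S' B)) → S = S') :
    C.card ≤ (Fintype.card Ω - 1) ^ G.card * Fintype.card Ω ^ (L - G.card) := by
  have h1 : C.card ≤ (Fintype.piFinset fun B => univ.image (cl B)).card := by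
    apply card_le_card_of_injOn (fun S B => cl B (S B))
    · intro S _
      rw [mem_coe, Fintype.mem_piFinset]
      intro B
      exact mem_image_of_mem _ (mem_univ _)
    · intro S hS S' hS' h
      exact hinj S hS S' hS' fun B => congrFun h B
  refine h1.trans ?_
  rw [Fintype.card_piFinset]
  rw [← prod_mul_prod_compl G]
  refine Nat.mul_le_mul ?_ ?_
  · refine prod_le_pow_card _ _ _ fun B hB => ?_
    obtain ⟨ω, hω⟩ := hG B hB
    have : univ.image (cl B) ⊆ univ.erase ω := by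
      intro y hy
      obtain ⟨x, -, rfl⟩ := mem_image.1 hy
      rw [mem_erase]
      exact ⟨hω x, mem_univ _⟩
    refine (card_le_card this).trans ?_
    rw [card_erase_of_mem (mem_univ _), card_univ]
  · have h2 : (Gᶜ).card = L - G.card := by rw [card_compl, Fintype.card_fin]
    rw [← h2]
    refine prod_le_pow_card _ _ _ fun B _ => ?_
    rw [← card_univ (α := Ω)]
    exact card_le_card (subset_univ _)

/-- There is a function which avoids all the sets. -/
theorem exists_avoid {L t : ℕ} {Ω 𝒦 : Type} [Fintype Ω] [Finite 𝒦]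
    (C : 𝒦 → (Fin L → Ω) → Prop)
    (hC : ∀ κ, ∃ (cl : Fin L → Ω → Ω) (G : Finset (Fin L)), L ≤ 2 * G.card ∧
      (∀ B ∈ G, ∃ ω, ∀ x, cl B x ≠ ω) ∧
      ∀ S S', C κ S → C κ S' → (∀ B, cl B (S B) = cl B (S' B)) → S = S')
    (hΩ : 2 ≤ Fintype.card Ω) (h𝒦 : Nat.card 𝒦 < 2 ^ t)
    (hL : 2 * (t * (Fintype.card Ω - 1)) ≤ L) : ∃ S, ∀ κ, ¬ C κ S := by
  have := Fintype.ofFinite 𝒦
  by_contra hcon
  push Not at hcon
  set x := Fintype.card Ω - 1 with hx
  have hxΩ : Fintype.card Ω = x + 1 := by omega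
  set h := (L + 1) / 2 with hh
  have hbound : ∀ κ, (univ.filter fun S => C κ S).card ≤ x ^ h * (x + 1) ^ (L - h) := by
    intro κ
    obtain ⟨cl, G, h1, h2, h3⟩ := hC κ
    have h4 := card_collapse (univ.filter fun S => C κ S) cl G h2 (by
      intro S hS S' hS' h
      rw [mem_filter] at hS hS'
      exact h3 S S' hS.2 hS'.2 h)
    rw [hxΩ, Nat.add_sub_cancel] at h4
    have hGL : G.card ≤ L := by
      have := card_le_univ G
      rwa [Fintype.card_fin] at this
    have hhG : h ≤ G.card := by omega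
    obtain ⟨m, hm⟩ : ∃ m, G.card = h + m := ⟨G.card - h, by omega⟩
    calc _ ≤ x ^ G.card * (x + 1) ^ (L - G.card) := h4
      _ = x ^ h * x ^ m * (x + 1) ^ (L - G.card) := by rw [hm, pow_add]
      _ ≤ x ^ h * (x + 1) ^ m * (x + 1) ^ (L - G.card) := by
          refine Nat.mul_le_mul_right _ (Nat.mul_le_mul_left _ ?_)
          exact Nat.pow_le_pow_left (Nat.le_succ x) m
      _ = x ^ h * (x + 1) ^ (L - h) := by
          rw [mul_assoc, ← pow_add]
          congr 2
          omega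
  have h5 : (univ : Finset (Fin L → Ω)) ⊆ univ.biUnion fun κ => univ.filter fun S => C κ S := by
    intro S _
    obtain ⟨κ, hκ⟩ := hcon S
    rw [mem_biUnion]
    exact ⟨κ, mem_univ _, by rw [mem_filter]; exact ⟨mem_univ _, hκ⟩⟩
  have h6 := (card_le_card h5).trans (card_biUnion_le_card_mul _ _ _ fun κ _ => hbound κ)
  rw [card_univ, card_univ, Fintype.card_fun, Fintype.card_fin, hxΩ] at h6
  rw [Nat.card_eq_fintype_card] at h𝒦
  have hhL : h ≤ L := by
    have : 1 ≤ L ∨ L = 0 := by omega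
    rcases this with h | h
    · omega
    · omega
  have h7 : 2 ^ t * x ^ h ≤ (x + 1) ^ h := pow_gap (by omega) (by omega)
  have h8 : Fintype.card 𝒦 * (x ^ h * (x + 1) ^ (L - h)) < (x + 1) ^ L := by
    have hxh : 0 < x ^ h * (x + 1) ^ (L - h) := by
      have : 0 < x := by omega
      positivity
    calc Fintype.card 𝒦 * (x ^ h * (x + 1) ^ (L - h))
        < 2 ^ t * (x ^ h * (x + 1) ^ (L - h)) := Nat.mul_lt_mul_of_pos_right h𝒦 hxh
      _ = (2 ^ t * x ^ h) * (x + 1) ^ (L - h) := by ring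
      _ ≤ (x + 1) ^ h * (x + 1) ^ (L - h) := Nat.mul_le_mul_right _ h7
      _ = (x + 1) ^ L := by
          rw [← pow_add]
          congr 1
          omega
  omega

end Q229.TR
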