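import Pool.Agent.Q229.TR.Bound

set_option autoImplicit false

/-!
# The basic representations, and the sequence of the levels
-/

namespace Q229.TR

open SimpleGraph Finset
open scoped Classical

/-- Different vertices with a common neighbour are mapped to such vertices. -/
theorem InvL.common {V K : Type} [Fintype V] {J : SimpleGraph V} {col : V → K} {θ : ℕ}
    {Γ : Finset (V × V × ℕ)} (hΓ : InvL J col θ 0 Γ) {u v u' v' b : V} (hu : (u, u', 0) ∈ Γ)
    (hv : (v, v', 0) ∈ Γ) (hne : u ≠ v) (h1 : J.Adj u b) (h2 : J.Adj v b) :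
    u' ≠ v' ∧ ∃ b', J.Adj u' b' ∧ J.Adj v' b' := by
  refine ⟨?_, ?_⟩
  · intro he
    have h1 := hΓ.inv.inj2 _ hu _ hv (by rw [he])
    exact hne (congrArg (fun x => x.1) h1)
  · have hp : (Walk.cons h1 (Walk.cons h2.symm Walk.nil)).IsPath := by
      rw [Walk.cons_isPath_iff, Walk.cons_isPath_iff]
      refine ⟨⟨Walk.IsPath.nil, by simpa using h2.ne.symm⟩, ?_⟩
      simp only [Walk.support_cons, Walk.support_nil, List.mem_cons, List.not_mem_nil,
        or_false, not_or]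
      exact ⟨h1.ne, hne⟩
    obtain ⟨t, ht, ht1⟩ := hΓ.inv.c1 (u, 0) (mem_image.2 ⟨_, hu, rfl⟩) (v, 0)
      (mem_image.2 ⟨_, hv, rfl⟩) _ hp (by simp [Dq]) b (by simp)
    obtain ⟨s, hs, rfl⟩ := mem_image.1 ht
    have h3 := hΓ.inv.adj _ hu _ hs
    have h4 := hΓ.inv.adj _ hv _ hs
    dsimp only at ht1 h3 h4
    rw [ht1] at h3 h4
    exact ⟨s.2.1, h3.1 h1, h4.1 h2⟩

theorem InvL.common_iff {V K : Type} [Fintype V] {J : SimpleGraph V} {col : V → K} {θ : ℕ}
    {Γ : Finset (V × V × ℕ)} (hΓ : InvL J col θ 0 Γ) {u v u' v' : V} (hu : (u, u', 0) ∈ Γ)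
    (hv : (v, v', 0) ∈ Γ) : (u ≠ v ∧ ∃ b, J.Adj u b ∧ J.Adj v b) ↔
      (u' ≠ v' ∧ ∃ b, J.Adj u' b ∧ J.Adj v' b) := by
  constructor
  · rintro ⟨hne, b, h1, h2⟩
    exact hΓ.common hu hv hne h1 h2
  · rintro ⟨hne, b, h1, h2⟩
    exact hΓ.swap.common (mem_image.2 ⟨_, hu, rfl⟩) (mem_image.2 ⟨_, hv, rfl⟩) hne h1 h2

/-- The relation of the points with a common block is represented. -/
theorem rep_Bi {P L : Type} [Fintype P] [Fintype L] (r : P → L → Prop) :
    Rep (Bi r) Bool Unit 0 (fun x y => x ≠ y ∧ ∃ B, r x B ∧ r y B) := by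
  refine ⟨Sum.isLeft, id, fun _ => (), ?_, ?_, ?_, ?_⟩
  · intro x x' h _
    exact h
  · rintro x (v | v) h
    · exact ⟨v, rfl, rfl⟩
    · exact absurd h (by simp)
  · intro B B'
    rfl
  · intro K' col' href θ Γ hΓ x y x' y' hx hy _ _
    have key : ∀ x y : P, (x ≠ y ∧ ∃ B, r x B ∧ r y B) ↔
        ((Sum.inl x : P ⊕ L) ≠ Sum.inl y ∧ ∃ b, (Bi r).Adj (Sum.inl x) b ∧
          (Bi r).Adj (Sum.inl y) b) := by
      intro x y
      refine and_congr (Sum.inl_injective.ne_iff).symm ?_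
      constructor
      · rintro ⟨B, h1, h2⟩
        exact ⟨Sum.inr B, h1, h2⟩
      · rintro ⟨b | b, h1, h2⟩
        · exact h1.elim
        · exact ⟨b, h1, h2⟩
    exact (key x y).trans ((hΓ.common_iff hx hy).trans (key x' y').symm)

theorem rep_Co {L M N : ℕ} (blk : Fin L → Fin M → Fin N) (S : Fin L → Finset (Fin M)) :
    Rep (JS blk S) Bool Unit 0 (Co blk S) := rep_Bi (pat blk S)

/-- Incidence structures. -/
structure Lv where
  /-- the index -/
  n : ℕ
  /-- the bound for the short cycles -/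
  g : ℕ
  /-- the logarithm of the number of points -/
  k : ℕ
  /-- the number of blocks -/
  L : ℕ
  /-- the number of positions -/
  M : ℕ
  /-- the blocks -/
  blk : Fin L → Fin M → Fin (2 ^ k)
  /-- the patterns -/
  S : Fin L → Finset (Fin M)

/-- The properties of the levels. -/
structure Lv.Good (l : Lv) : Prop where
  inj : ∀ B, Function.Injective (l.blk B)
  up : UP (JP l.blk) (l.g + 3 * Dq l.n + 6)
  noA : ¬ RepN (JS l.blk l.S) l.n (HS l.blk l.S)
  noD : ∀ D : Dt l.n (cq l.n (Dq l.n + 2)) (2 ^ l.k), ¬ ∀ x y, HS l.blk l.S x y ↔ D.rel x y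

/-- The relation between the levels. -/
structure Lv.Next (l m : Lv) : Prop where
  n : l.n < m.n
  k : l.k < m.k
  size : 2 ^ l.k * m.n < 2 ^ m.k
  g : 3 * Dq l.n + 2 ^ l.k * (Dq l.n + 1) ≤ m.g

/-- The sequence of the levels. -/
theorem exists_seq : ∃ f : ℕ → Lv, (∀ i, (f i).Good) ∧ ∀ i j, i < j → (f i).Next (f j) := by
  refine exists_seq_of_forall_finset_exists Lv.Good Lv.Next ?_
  intro s _
  set n := s.sup Lv.n + 1 with hn
  set g := s.sup fun l => 3 * Dq l.n + 2 ^ l.k * (Dq l.n + 1) with hg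
  obtain ⟨k, L, M, blk, S, hk, hinj, hJ, hA, hD⟩ := exists_level n g (s.sup Lv.k + n + 1)
  refine ⟨⟨n, g, k, L, M, blk, S⟩, ⟨hinj, hJ, hA, hD⟩, ?_⟩
  intro l hl
  have h1 : l.n ≤ s.sup Lv.n := le_sup hl
  have h2 : l.k ≤ s.sup Lv.k := le_sup hl
  have h3 : 3 * Dq l.n + 2 ^ l.k * (Dq l.n + 1) ≤ g :=
    le_sup (f := fun l : Lv => 3 * Dq l.n + 2 ^ l.k * (Dq l.n + 1)) hl
  refine ⟨?_, ?_, ?_, h3⟩
  · show l.n < n
    omega
  · show l.k < k
    omega
  · show 2 ^ l.k * n < 2 ^ k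
    calc 2 ^ l.k * n < 2 ^ l.k * 2 ^ n :=
          Nat.mul_lt_mul_of_pos_left Nat.lt_two_pow_self (by positivity)
      _ = 2 ^ (l.k + n) := (pow_add _ _ _).symm
      _ ≤ 2 ^ k := Nat.pow_le_pow_right (by norm_num) (by omega)

/-- The relation of the even blocks of one level is not represented over any level. -/
theorem not_rep {f : ℕ → Lv} (hf : ∀ i, (f i).Good) (hn : ∀ i j, i < j → (f i).Next (f j))
    (i j : ℕ) {n : ℕ} (h : n ≤ (f i).n) :
    ¬ RepN (JS (f j).blk (f j).S) n (HS (f i).blk (f i).S) := by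
  intro hrep
  have hrep' := hrep.mono h
  rcases lt_trichotomy i j with hij | hij | hij
  · -- the data
    have h1 := (hn i j hij).g
    obtain ⟨D, hD⟩ := hrep'.data (θ := cq (f i).n (Dq (f i).n + 2)) (by positivity)
      (((hf j).up).anti (JS_le _ _)) (by omega) le_rfl
    exact (hf i).noD D hD
  · subst hij
    exact (hf i).noA hrep'
  · -- the number of points
    obtain ⟨col, pt, tag, hinj, -⟩ := hrep'
    have h1 := (hn j i hij).size
    have h2 := Fintype.card_le_of_injective (fun x => (pt x, tag x)) (by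
      intro x y hxy
      obtain ⟨h3, h4⟩ := Prod.ext_iff.1 hxy
      exact hinj x y h3 h4)
    rw [Fintype.card_prod, Fintype.card_fin, Fintype.card_fin, Fintype.card_fin] at h2
    omega

end Q229.TR
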