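import Pool.Agent.Q229.TR.Tree
import Pool.Agent.Q229.TR.Avoid

set_option autoImplicit false

/-!
# Graphs formed by blocks, and the relation of the even blocks
-/

namespace Q229.TR

open SimpleGraph Finset
open scoped Classical

/-- The incidence graph of the blocks with the patterns `S`. -/
abbrev JS {L M N : ℕ} (blk : Fin L → Fin M → Fin N) (S : Fin L → Finset (Fin M)) :
    SimpleGraph (Fin N ⊕ Fin L) := Bi (pat blk S)

/-- The incidence graph of the full blocks. -/
abbrev JP {L M N : ℕ} (blk : Fin L → Fin M → Fin N) : SimpleGraph (Fin N ⊕ Fin L) :=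
  Bi (pat blk fun _ => univ)

theorem JS_le {L M N : ℕ} (blk : Fin L → Fin M → Fin N) (S : Fin L → Finset (Fin M)) :
    JS blk S ≤ JP blk :=
  Bi_mono fun _ _ ⟨i, _, h⟩ => ⟨i, mem_univ _, h⟩

/-- Two different points are in a common block. -/
def Co {L M N : ℕ} (blk : Fin L → Fin M → Fin N) (S : Fin L → Finset (Fin M)) (x y : Fin N) :
    Prop := x ≠ y ∧ ∃ B, pat blk S x B ∧ pat blk S y B

/-- Two points are in a common block, and the number of common neighbours is even. -/
def HS {L M N : ℕ} (blk : Fin L → Fin M → Fin N) (S : Fin L → Finset (Fin M)) (x y : Fin N) :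
    Prop := Co blk S x y ∧ Even (Nat.card {z : Fin N // Co blk S x z ∧ Co blk S y z})

section geometry

variable {L M N g : ℕ} {blk : Fin L → Fin M → Fin N}

/-- Two points are in at most one common block. -/
theorem block_unique (hJ : UP (JP blk) g) (hg : 6 ≤ g) {x y : Fin N} (hxy : x ≠ y)
    {B C : Fin L} (h1 : pat blk (fun _ => univ) x B) (h2 : pat blk (fun _ => univ) y B)
    (h3 : pat blk (fun _ => univ) x C) (h4 : pat blk (fun _ => univ) y C) : B = C := by
  have hp : ∀ {B : Fin L} (h1 : pat blk (fun _ => univ) x B) (h2 : pat blk (fun _ => univ) y B),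
      (Walk.cons (show (JP blk).Adj (Sum.inl x) (Sum.inr B) from h1)
        (Walk.cons (show (JP blk).Adj (Sum.inr B) (Sum.inl y) from h2) Walk.nil)).IsPath := by
    intro B h1 h2
    rw [Walk.cons_isPath_iff, Walk.cons_isPath_iff]
    refine ⟨⟨Walk.IsPath.nil, by simp⟩, ?_⟩
    simp [hxy]
  have h5 := hJ _ _ _ _ (hp h1 h2) (hp h3 h4) (by simp only [Walk.length_cons, Walk.length_nil]; omega)
  have h6 := congrArg Walk.support h5
  simp only [Walk.support_cons, Walk.support_nil, List.cons.injEq, Sum.inr.injEq, and_true,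
    true_and] at h6
  exact h6

/-- There are no triangles of blocks. -/
theorem no_triangle (hJ : UP (JP blk) g) (hg : 6 ≤ g) {x y z : Fin N} (hxy : x ≠ y)
    (hxz : x ≠ z) (hyz : y ≠ z) {B C D : Fin L}
    (h1 : pat blk (fun _ => univ) x B) (h2 : pat blk (fun _ => univ) y B)
    (h3 : pat blk (fun _ => univ) x C) (h4 : pat blk (fun _ => univ) z C)
    (h5 : pat blk (fun _ => univ) y D) (h6 : pat blk (fun _ => univ) z D) : C = B ∧ D = B := by
  have hCD : C = D := by
    by_contra hCD
    have hp : (Walk.cons (show (JP blk).Adj (Sum.inl x) (Sum.inr B) from h1)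
        (Walk.cons (show (JP blk).Adj (Sum.inr B) (Sum.inl y) from h2) Walk.nil)).IsPath := by
      rw [Walk.cons_isPath_iff, Walk.cons_isPath_iff]
      refine ⟨⟨Walk.IsPath.nil, by simp⟩, ?_⟩
      simp [hxy]
    have hq : (Walk.cons (show (JP blk).Adj (Sum.inl x) (Sum.inr C) from h3)
        (Walk.cons (show (JP blk).Adj (Sum.inr C) (Sum.inl z) from h4)
        (Walk.cons (show (JP blk).Adj (Sum.inl z) (Sum.inr D) from h6)
        (Walk.cons (show (JP blk).Adj (Sum.inr D) (Sum.inl y) from h5) Walk.nil)))).IsPath := by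
      simp only [Walk.cons_isPath_iff, Walk.support_cons, Walk.support_nil]
      refine ⟨⟨⟨⟨Walk.IsPath.nil, by simp⟩, ?_⟩, ?_⟩, ?_⟩
      · simp [hyz.symm]
      · simp [hCD]
      · simp [hxz, hxy]
    have h7 := hJ _ _ _ _ hp hq (by simp only [Walk.length_cons, Walk.length_nil]; omega)
    have h8 := congrArg Walk.length h7
    simp only [Walk.length_cons, Walk.length_nil] at h8
    omega
  subst hCD
  have := block_unique hJ hg hxy h3 h5 h1 h2
  exact ⟨this, this⟩

theorem pat_full {S : Fin L → Finset (Fin M)} {x : Fin N} {B : Fin L} (h : pat blk S x B) :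
    pat blk (fun _ => univ) x B := by
  obtain ⟨i, -, h⟩ := h
  exact ⟨i, mem_univ _, h⟩

/-- The parity of the size of a block is read off from any pair of its points. -/
theorem HS_iff (hJ : UP (JP blk) g) (hg : 6 ≤ g) (hinj : ∀ B, Function.Injective (blk B))
    {S : Fin L → Finset (Fin M)} {B : Fin L} {a b : Fin M} (ha : a ∈ S B) (hb : b ∈ S B)
    (hab : a ≠ b) : HS blk S (blk B a) (blk B b) ↔ Even (S B).card := by
  have hne : blk B a ≠ blk B b := fun h => hab (hinj B h)
  have hco : Co blk S (blk B a) (blk B b) := ⟨hne, B, ⟨a, ha, rfl⟩, ⟨b, hb, rfl⟩⟩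
  have hcard : Nat.card {z : Fin N // Co blk S (blk B a) z ∧ Co blk S (blk B b) z} =
      (S B).card - 2 := by
    have h1 : (univ.filter fun z => Co blk S (blk B a) z ∧ Co blk S (blk B b) z) =
        (((S B).erase a).erase b).image (blk B) := by
      ext z
      rw [mem_filter, mem_image]
      constructor
      · rintro ⟨-, ⟨hz1, C, hC1, hC2⟩, ⟨hz2, D, hD1, hD2⟩⟩
        obtain ⟨hCB, -⟩ := no_triangle hJ hg hne hz1 hz2 ⟨a, mem_univ _, rfl⟩
          ⟨b, mem_univ _, rfl⟩ (pat_full hC1) (pat_full hC2) (pat_full hD1) (pat_full hD2)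
        subst hCB
        obtain ⟨c, hc, rfl⟩ := hC2
        refine ⟨c, ?_, rfl⟩
        rw [mem_erase, mem_erase]
        exact ⟨fun h => hz2 (by rw [h]), fun h => hz1 (by rw [h]), hc⟩
      · rintro ⟨c, hc, rfl⟩
        rw [mem_erase, mem_erase] at hc
        exact ⟨mem_univ _, ⟨fun h => hc.2.1 (hinj B h).symm, B, ⟨a, ha, rfl⟩, ⟨c, hc.2.2, rfl⟩⟩,
          ⟨fun h => hc.1 (hinj B h).symm, B, ⟨b, hb, rfl⟩, ⟨c, hc.2.2, rfl⟩⟩⟩
    rw [Nat.card_eq_fintype_card, Fintype.card_subtype, h1, card_image_of_injective _ (hinj B),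
      card_erase_of_mem (by rw [mem_erase]; exact ⟨hab.symm, hb⟩), card_erase_of_mem ha]
    omega
  have h2 : 2 ≤ (S B).card := by
    have : ({a, b} : Finset (Fin M)) ⊆ S B := by
      intro c hc
      rw [mem_insert, mem_singleton] at hc
      rcases hc with rfl | rfl
      · exact ha
      · exact hb
    have h3 := card_le_card this
    rwa [card_pair hab] at h3
  unfold HS
  rw [hcard]
  constructor
  · rintro ⟨-, h⟩
    have h3 : (S B).card = (S B).card - 2 + 2 := by omega
    rw [h3]
    exact h.add (by decide)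
  · intro h
    refine ⟨hco, ?_⟩
    rw [Nat.even_sub h2]
    exact ⟨fun _ => by decide, fun _ => h⟩

/-- Points whose common block is absent are not in relation. -/
theorem Co_iff (hJ : UP (JP blk) g) (hg : 6 ≤ g) (hinj : ∀ B, Function.Injective (blk B))
    {S : Fin L → Finset (Fin M)} {B : Fin L} {a b : Fin M} (hab : a ≠ b) :
    Co blk S (blk B a) (blk B b) ↔ a ∈ S B ∧ b ∈ S B := by
  have hne : blk B a ≠ blk B b := fun h => hab (hinj B h)
  constructor
  · rintro ⟨-, C, hC1, hC2⟩
    have := block_unique hJ hg hne (pat_full hC1) (pat_full hC2) (B := C) (C := B)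
      ⟨a, mem_univ _, rfl⟩ ⟨b, mem_univ _, rfl⟩
    subst this
    obtain ⟨c, hc, hc'⟩ := hC1
    obtain ⟨d, hd, hd'⟩ := hC2
    rw [← hinj C hc', ← hinj C hd']
    exact ⟨hc, hd⟩
  · rintro ⟨ha, hb⟩
    exact ⟨hne, B, ⟨a, ha, rfl⟩, ⟨b, hb, rfl⟩⟩

/-- The types in two incidence graphs which differ in rich blocks only. -/
theorem types_eq {n θ R : ℕ} (hθ : 1 ≤ θ) (hinj : ∀ B, Function.Injective (blk B))
    {S S' : Fin L → Finset (Fin M)} {col col' : Fin N ⊕ Fin L → Fin n}
    (hΛ : ∀ v, lam (JS blk S) col θ R (Sum.inl v) = lam (JS blk S') col' θ R (Sum.inl v))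
    (hk : ∀ B, col (Sum.inr B) = col' (Sum.inr B))
    (hB : ∀ B, S B = S' B ∨ ((∀ i ∈ S B ∪ S' B, ∀ j ∈ S B ∪ S' B,
      lam (JS blk S) col θ R (Sum.inl (blk B i)) = lam (JS blk S) col θ R (Sum.inl (blk B j))) ∧
      θ ≤ (S B).card ∧ θ ≤ (S' B).card)) :
    ∀ i ≤ R, ∀ v, lam (JS blk S) col θ i v = lam (JS blk S') col' θ i v := by
  intro i
  induction i with
  | zero =>
    intro hi v
    rcases v with v | B
    · exact lam_le hi (hΛ v)
    · exact hk B
  | succ i ih =>
    intro hi v
    rcases v with v | B
    · exact lam_le hi (hΛ v)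
    · have ih' := ih (by omega)
      have hcnt : ∀ t, min (cnt (JS blk S) (lam (JS blk S) col θ i) (Sum.inr B) t) θ =
          min (cnt (JS blk S') (lam (JS blk S') col' θ i) (Sum.inr B) t) θ := by
        intro t
        rcases hB B with h | ⟨h1, h2, h3⟩
        · congr 1
          unfold cnt
          congr 1
          ext w
          rw [mem_filter, mem_filter, ih' w]
          rcases w with w | w
          · change _ ∧ pat blk S w B ∧ _ ↔ _ ∧ pat blk S' w B ∧ _
            unfold pat
            rw [h]
          · simp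
        · -- the count in a block with one type
          have key : ∀ (T : Fin L → Finset (Fin M)) (f : Fin N ⊕ Fin L → Ty (Fin n) θ i),
              θ ≤ (T B).card → (∀ j ∈ T B, ∀ k ∈ T B, f (Sum.inl (blk B j)) =
                f (Sum.inl (blk B k))) →
              min (cnt (JS blk T) f (Sum.inr B) t) θ =
                if ∃ j ∈ T B, f (Sum.inl (blk B j)) = t then θ else 0 := by
            intro T f hT hf
            split_ifs with hex
            · obtain ⟨j, hj, hjt⟩ := hex
              rw [Nat.min_eq_right]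
              refine hT.trans ?_
              rw [← card_image_of_injective (T B)
                (show Function.Injective fun i => (Sum.inl (blk B i) : Fin N ⊕ Fin L) from
                  fun a b hab => hinj B (Sum.inl_injective hab))]
              apply card_le_card
              intro w hw
              obtain ⟨k, hk, rfl⟩ := mem_image.1 hw
              rw [mem_filter]
              exact ⟨mem_univ _, ⟨k, hk, rfl⟩, (hf k hk j hj).trans hjt⟩
            · have : cnt (JS blk T) f (Sum.inr B) t = 0 := by
                unfold cnt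
                rw [card_eq_zero, filter_eq_empty_iff]
                rintro (w | w) -
                · rintro ⟨⟨j, hj, rfl⟩, h⟩
                  exact hex ⟨j, hj, h⟩
                · simp
              rw [this]
              exact Nat.zero_min _
          rw [key S _ h2 (fun j hj k hk => lam_le (by omega)
              (h1 j (mem_union_left _ hj) k (mem_union_left _ hk))),
            key S' _ h3 (fun j hj k hk => ?_)]
          · obtain ⟨j₀, hj₀⟩ : (S B).Nonempty := card_pos.1 (by omega)
            obtain ⟨k₀, hk₀⟩ : (S' B).Nonempty := card_pos.1 (by omega)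
            congr 1
            apply propext
            constructor
            · rintro ⟨j, hj, hjt⟩
              refine ⟨k₀, hk₀, ?_⟩
              rw [← hjt, ← ih' (Sum.inl (blk B k₀))]
              exact lam_le (by omega) (h1 k₀ (mem_union_right _ hk₀) j (mem_union_left _ hj))
            · rintro ⟨k, hk, hkt⟩
              refine ⟨j₀, hj₀, ?_⟩
              rw [← hkt, ← ih' (Sum.inl (blk B k))]
              exact lam_le (by omega) (h1 j₀ (mem_union_left _ hj₀) k (mem_union_right _ hk))
          · rw [← ih', ← ih']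
            exact lam_le (by omega) (h1 j (mem_union_right _ hj) k (mem_union_right _ hk))
      refine Prod.ext (ih' _) ?_
      funext t
      exact Fin.ext (hcnt t)

end geometry

end Q229.TR
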