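import Pool.Agent.Q229.TR.CaseA

set_option autoImplicit false

/-!
# Bounds for the number of codes, and the existence of good patterns
-/

namespace Q229.TR

open SimpleGraph Finset
open scoped Classical

theorem nc_prod {X Y : Type} {a b : ℕ} (h : Nat.card X ≤ 2 ^ a) (h' : Nat.card Y ≤ 2 ^ b) :
    Nat.card (X × Y) ≤ 2 ^ (a + b) := by
  rw [Nat.card_prod, pow_add]
  exact Nat.mul_le_mul h h'

theorem nc_fun {X : Type} {a m : ℕ} (h : Nat.card X ≤ 2 ^ a) :
    Nat.card (Fin m → X) ≤ 2 ^ (a * m) := by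
  rw [Nat.card_fun, Nat.card_eq_fintype_card (α := Fin m), Fintype.card_fin, pow_mul]
  exact Nat.pow_le_pow_left h m

theorem nc_fin (m : ℕ) : Nat.card (Fin m) ≤ 2 ^ m := by
  rw [Nat.card_eq_fintype_card, Fintype.card_fin]
  exact Nat.lt_two_pow_self.le

theorem nc_set (X : Type) [Finite X] : Nat.card (Set X) ≤ 2 ^ Nat.card X := by
  rw [Nat.card_congr (Equiv.refl (Set X)), show Nat.card (Set X) = Nat.card (X → Prop) from rfl,
    Nat.card_fun, Nat.card_eq_fintype_card (α := Prop), Fintype.card_prop]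

theorem nc_self (X : Type) : Nat.card X ≤ 2 ^ Nat.card X := Nat.lt_two_pow_self.le

theorem nc_sum {X Y : Type} [Finite X] [Finite Y] {a b : ℕ} (h : Nat.card X ≤ 2 ^ a)
    (h' : Nat.card Y ≤ 2 ^ b) : Nat.card (X ⊕ Y) ≤ 2 ^ (a + b + 1) := by
  rw [Nat.card_sum]
  have h1 : 2 ^ a ≤ 2 ^ (a + b) := Nat.pow_le_pow_right (by norm_num) (by omega)
  have h2 : 2 ^ b ≤ 2 ^ (a + b) := Nat.pow_le_pow_right (by norm_num) (by omega)
  rw [pow_succ]
  omega

theorem nc_KA (n θ : ℕ) : ∃ c, ∀ k, 1 ≤ k → Nat.card (KA n θ (2 ^ k)) ≤ 2 ^ (c * k * 2 ^ k) := by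
  set a := Nat.card (Ty (Fin n) θ (Rq n)) with ha
  set b := Nat.card (Cd n θ) with hb
  refine ⟨a + n + 1 + n + b, fun k hk => ?_⟩
  have h : Nat.card (KA n θ (2 ^ k)) ≤ 2 ^ (a * 2 ^ k + (n + (k * 2 ^ k + (n * 2 ^ k + b)))) := by
    refine nc_prod (nc_fun (nc_self _)) (nc_prod (nc_fin n) (nc_prod (nc_fun ?_)
      (nc_prod (nc_fun (nc_fin n)) (nc_set _))))
    rw [Nat.card_eq_fintype_card, Fintype.card_fin]
  refine h.trans (Nat.pow_le_pow_right (by norm_num) ?_)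
  have hN : 1 ≤ 2 ^ k := Nat.one_le_two_pow
  generalize 2 ^ k = N at *
  have h1 : N ≤ k * N := Nat.le_mul_of_pos_left N hk
  have h2 : 1 ≤ k * N := hN.trans h1
  calc a * N + (n + (k * N + (n * N + b)))
      ≤ a * (k * N) + (n * (k * N) + (1 * (k * N) + (n * (k * N) + b * (k * N)))) := by
        have := Nat.mul_le_mul_left a h1
        have := Nat.mul_le_mul_left n h1
        have := Nat.mul_le_mul_left n h2
        have := Nat.mul_le_mul_left b h2
        omega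
    _ = (a + n + 1 + n + b) * k * N := by ring

theorem nc_Dt (n θ : ℕ) : ∃ c, ∀ k, 1 ≤ k → Nat.card (Dt n θ (2 ^ k)) ≤ 2 ^ (c * k * 2 ^ k) := by
  set a := Nat.card (Ty (Fin n) θ (Rq n)) with ha
  set b := Nat.card (Cd n θ) with hb
  set d := Dq n + 1 with hd
  refine ⟨(1 + d + 1) * d + a * (d + 1) + (1 + d + 1) + n + b, fun k hk => ?_⟩
  have hfin : Nat.card (Fin (2 ^ k * (d + 1))) ≤ 2 ^ (k + (d + 1)) := by
    rw [Nat.card_eq_fintype_card, Fintype.card_fin, pow_add]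
    exact Nat.mul_le_mul_left _ Nat.lt_two_pow_self.le
  have h : Nat.card (Dt n θ (2 ^ k)) ≤ 2 ^ ((k + (d + 1)) * d * 2 ^ k +
      (a * (2 ^ k * (d + 1)) + ((k + (d + 1)) * 2 ^ k + (n * 2 ^ k + b)))) := by
    refine nc_prod (nc_fun (nc_fun hfin)) (nc_prod (nc_fun (nc_self _)) (nc_prod (nc_fun hfin)
      (nc_prod (nc_fun (nc_fin n)) (nc_set _))))
  refine h.trans (Nat.pow_le_pow_right (by norm_num) ?_)
  have hN : 1 ≤ 2 ^ k := Nat.one_le_two_pow
  generalize 2 ^ k = N at *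
  have h1 : N ≤ k * N := Nat.le_mul_of_pos_left N hk
  have h2 : 1 ≤ k * N := hN.trans h1
  have h3 : k + (d + 1) ≤ (1 + d + 1) * k := by nlinarith
  calc (k + (d + 1)) * d * N + (a * (N * (d + 1)) + ((k + (d + 1)) * N + (n * N + b)))
      ≤ (1 + d + 1) * k * d * N + (a * (k * N * (d + 1)) + ((1 + d + 1) * k * N +
          (n * (k * N) + b * (k * N)))) := by
        have e1 := Nat.mul_le_mul_right N (Nat.mul_le_mul_right d h3)
        have e2 := Nat.mul_le_mul_left a (Nat.mul_le_mul_right (d + 1) h1)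
        have e3 := Nat.mul_le_mul_right N h3
        have e4 := Nat.mul_le_mul_left n h1
        have e5 := Nat.mul_le_mul_left b h2
        omega
    _ = ((1 + d + 1) * d + a * (d + 1) + (1 + d + 1) + n + b) * k * N := by ring

/-- The patterns of the relations of even blocks which are given by data: collapse. -/
theorem data_collapse {L M N : ℕ} {blk : Fin L → Fin M → Fin N} (hM : 2 ≤ M)
    (R : (Fin L → Finset (Fin M)) → Fin N → Fin N → Prop)
    (hR1 : ∀ S B, S B = ∅ → ∀ a b, a ≠ b → ¬ R S (blk B a) (blk B b))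
    (hR2 : ∀ S B (a b : Fin M), a ≠ b → S B = {a, b} → R S (blk B a) (blk B b))
    (D : Fin N → Fin N → Prop) :
    ∃ (cl : Fin L → Finset (Fin M) → Finset (Fin M)) (G : Finset (Fin L)),
      L ≤ 2 * G.card ∧ (∀ B ∈ G, ∃ ω, ∀ x, cl B x ≠ ω) ∧
      ∀ S S', (∀ x y, R S x y ↔ D x y) → (∀ x y, R S' x y ↔ D x y) →
        (∀ B, cl B (S B) = cl B (S' B)) → S = S' := by
  set a : Fin M := ⟨0, by omega⟩ with ha
  set b : Fin M := ⟨1, by omega⟩ with hb
  have hab : a ≠ b := by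
    rw [ha, hb]
    simp
  refine ⟨fun B X => if X = {a, b} then ∅ else X, univ, ?_, ?_, ?_⟩
  · rw [card_univ, Fintype.card_fin]
    omega
  · intro B _
    refine ⟨{a, b}, fun X => ?_⟩
    dsimp only
    split_ifs with h
    · intro he
      exact (insert_ne_empty a {b}) he.symm
    · exact h
  · intro S S' hS hS' hcl
    funext B
    have h := hcl B
    dsimp only at h
    split_ifs at h with h1 h2 h2
    · rw [h1, h2]
    · exact absurd ((hS' _ _).2 ((hS _ _).1 (hR2 S B a b hab h1))) (hR1 S' B h.symm a b hab)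
    · exact absurd ((hS _ _).2 ((hS' _ _).1 (hR2 S' B a b hab h2))) (hR1 S B h a b hab)
    · exact h

/-- **Existence of good patterns.** -/
theorem exists_level (n g₀ k₀ : ℕ) : ∃ (k L M : ℕ) (blk : Fin L → Fin M → Fin (2 ^ k))
    (S : Fin L → Finset (Fin M)), k₀ ≤ k ∧ (∀ B, Function.Injective (blk B)) ∧
      UP (JP blk) (g₀ + 3 * Dq n + 6) ∧ ¬ RepN (JS blk S) n (HS blk S) ∧
      ∀ D : Dt n (cq n (Dq n + 2)) (2 ^ k), ¬ ∀ x y, HS blk S x y ↔ D.rel x y := by
  set θ := cq n (Dq n + 2) with hθ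
  have h2 := two_le_Dq n
  have hθ1 : 1 ≤ θ := by
    have := le_cq n (Dq n + 2)
    omega
  set M := Nat.card (Ty (Fin n) θ (Rq n)) * (2 * (Dq n + 1) ^ 2 + θ + 5) + 2 with hM
  obtain ⟨c₁, hc₁⟩ := nc_KA n θ
  obtain ⟨c₂, hc₂⟩ := nc_Dt n θ
  set c := c₁ + c₂ + 2 with hc
  obtain ⟨k, L, -, blk, hk, hinj, hJ, hL, -, -⟩ := exists_hyp M (g₀ + 3 * Dq n + 6)
    (2 * c * 2 ^ M) 0 (k₀ + 1) (by omega) (by omega)
  have hk1 : 1 ≤ k := by omega
  have hN : 1 ≤ 2 ^ k := Nat.one_le_two_pow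
  have hkN : 1 ≤ k * 2 ^ k := Nat.one_le_iff_ne_zero.2 (by positivity)
  have hL0 : 0 < L := by
    refine lt_of_lt_of_le ?_ hL
    positivity
  let C : KA n θ (2 ^ k) ⊕ Dt n θ (2 ^ k) → (Fin L → Finset (Fin M)) → Prop := fun κ S =>
    match κ with
    | Sum.inl κ => ConsA blk κ S
    | Sum.inr D => ∀ x y, HS blk S x y ↔ D.rel x y
  have hcard : Nat.card (KA n θ (2 ^ k) ⊕ Dt n θ (2 ^ k)) < 2 ^ (c * k * 2 ^ k) := by
    refine lt_of_le_of_lt (nc_sum (hc₁ k hk1) (hc₂ k hk1))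
      (Nat.pow_lt_pow_right (by norm_num) ?_)
    calc c₁ * k * 2 ^ k + c₂ * k * 2 ^ k + 1 < c₁ * (k * 2 ^ k) + c₂ * (k * 2 ^ k) +
          2 * (k * 2 ^ k) := by
          rw [mul_assoc, mul_assoc]
          omega
      _ = c * k * 2 ^ k := by rw [hc]; ring
  obtain ⟨S, hS⟩ := exists_avoid C (by
    rintro (κ | D)
    · exact consA_collapse hJ (by omega) (by omega) hinj hθ1 (by omega) κ
    · refine data_collapse (blk := blk) (by omega) (fun S => HS blk S) ?_ ?_ D.rel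
      · rintro S B hB a b hab ⟨h, -⟩
        rw [Co_iff hJ (by omega) hinj hab, hB] at h
        exact absurd h.1 (notMem_empty _)
      · intro S B a b hab hB
        rw [HS_iff hJ (by omega) hinj (by rw [hB]; simp) (by rw [hB]; simp) hab, hB,
          card_pair hab]
        decide)
    (by
      rw [Fintype.card_finset, Fintype.card_fin]
      exact Nat.le_self_pow (by omega) 2)
    hcard
    (by
      rw [Fintype.card_finset, Fintype.card_fin]
      refine le_trans ?_ hL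
      calc 2 * (c * k * 2 ^ k * (2 ^ M - 1)) ≤ 2 * (c * k * 2 ^ k * 2 ^ M) :=
            Nat.mul_le_mul_left _ (Nat.mul_le_mul_left _ (Nat.sub_le _ _))
        _ = 2 * c * 2 ^ M * k * 2 ^ k := by ring)
  refine ⟨k, L, M, blk, S, by omega, hinj, hJ, ?_, fun D => hS (Sum.inr D)⟩
  intro hrep
  obtain ⟨κ, hκ⟩ := exists_consA (θ := θ) hL0 hJ (by omega) le_rfl hrep
  exact hS (Sum.inl κ) hκ

end Q229.TR
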