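import Pool.Agent.Q229.TR.Blk

set_option autoImplicit false

/-!
# The relation of the even blocks is not represented: the twin argument
-/

namespace Q229.TR

open SimpleGraph Finset
open scoped Classical

variable {L M N g : ℕ} {blk : Fin L → Fin M → Fin N}

/-- Equal codes in two incidence graphs. -/
theorem pcode_eq {T : Type} {S S' : Fin L → Finset (Fin M)} {d : ℕ} (hJ : UP (JP blk) g)
    (hg : 2 * d ≤ g) {lab lab' : Fin N ⊕ Fin L → T} (hlab : ∀ v, lab v = lab' v)
    {u v : Fin N ⊕ Fin L}
    (h : ∀ p : (JP blk).Walk u v, p.IsPath → p.length ≤ d → ∀ B i,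
      Sum.inl (blk B i) ∈ p.support → Sum.inr B ∈ p.support → (i ∈ S B ↔ i ∈ S' B)) :
    pcode (JS blk S) lab d u v = pcode (JS blk S') lab' d u v := by
  have hlab' : lab = lab' := funext hlab
  subst hlab'
  have tr : ∀ {S S' : Fin L → Finset (Fin M)},
      (∀ p : (JP blk).Walk u v, p.IsPath → p.length ≤ d → ∀ B i,
        Sum.inl (blk B i) ∈ p.support → Sum.inr B ∈ p.support → (i ∈ S B ↔ i ∈ S' B)) →
      ∀ p : (JS blk S).Walk u v, p.IsPath → p.length ≤ d →
        ∃ p' : (JS blk S').Walk u v, p'.IsPath ∧ p'.length ≤ d ∧ p'.support = p.support := by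
    intro S S' h p hp hl
    have hedge : ∀ e ∈ p.edges, e ∈ (JS blk S').edgeSet := by
      intro e he
      induction e using Sym2.ind with
      | _ a b =>
        have hadj := p.adj_of_mem_edges he
        have ha := p.fst_mem_support_of_mem_edges he
        have hb := p.snd_mem_support_of_mem_edges he
        rw [mem_edgeSet]
        have h1 := h (p.mapLe (JS_le blk S)) ((Walk.isPath_mapLe _).2 hp)
          (by rw [Walk.length_mapLe]; exact hl)
        rw [Walk.support_mapLe_eq_support] at h1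
        rcases a with a | a <;> rcases b with b | b
        · exact hadj
        · obtain ⟨i, hi, rfl⟩ := hadj
          exact ⟨i, (h1 b i ha hb).1 hi, rfl⟩
        · obtain ⟨i, hi, rfl⟩ := hadj
          exact ⟨i, (h1 a i hb ha).1 hi, rfl⟩
        · exact hadj
    refine ⟨p.transfer _ hedge, hp.transfer hedge, ?_, ?_⟩
    · rw [Walk.length_transfer]
      exact hl
    · rw [Walk.support_transfer]
  apply pcode_congr'
  · exact (hJ.anti (JS_le blk S)).lu hg _ _
  · exact (hJ.anti (JS_le blk S')).lu hg _ _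
  · rfl
  · rfl
  · intro p hp hl
    obtain ⟨p', h1, h2, h3⟩ := tr h p hp hl
    exact ⟨p', h1, h2, by rw [h3]⟩
  · intro p hp hl
    obtain ⟨p', h1, h2, -⟩ := tr (fun p hp hl B i h1 h2 => (h p hp hl B i h1 h2).symm) p hp hl
    exact ⟨p', h1, h2⟩

/-- The pairs (block, position) used by the short paths between given pairs of vertices. -/
noncomputable def used {ι : Type} [Fintype ι] (blk : Fin L → Fin M → Fin N) (d : ℕ)
    (a b : ι → Fin N ⊕ Fin L) : Finset (Fin L × Fin M) :=
  univ.filter fun x => ∃ (j : ι) (p : (JP blk).Walk (a j) (b j)), p.IsPath ∧ p.length ≤ d ∧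
    Sum.inl (blk x.1 x.2) ∈ p.support ∧ Sum.inr x.1 ∈ p.support

theorem mem_used {ι : Type} [Fintype ι] {d : ℕ} {a b : ι → Fin N ⊕ Fin L} {x : Fin L × Fin M} :
    x ∈ used blk d a b ↔ ∃ (j : ι) (p : (JP blk).Walk (a j) (b j)), p.IsPath ∧ p.length ≤ d ∧
      Sum.inl (blk x.1 x.2) ∈ p.support ∧ Sum.inr x.1 ∈ p.support := by
  rw [used, mem_filter]
  exact ⟨fun h => h.2, fun h => ⟨mem_univ _, h⟩⟩

theorem card_used {ι : Type} [Fintype ι] {d : ℕ} (hJ : UP (JP blk) g) (hg : 2 * d ≤ g)
    (hinj : ∀ B, Function.Injective (blk B)) (a b : ι → Fin N ⊕ Fin L) :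
    (used blk d a b).card ≤ Fintype.card ι * (d + 1) ^ 2 := by
  have h1 : used blk d a b ⊆ univ.biUnion fun j : ι => univ.filter fun x : Fin L × Fin M =>
      ∃ p : (JP blk).Walk (a j) (b j), p.IsPath ∧ p.length ≤ d ∧
        Sum.inl (blk x.1 x.2) ∈ p.support ∧ Sum.inr x.1 ∈ p.support := by
    intro x hx
    rw [used, mem_filter] at hx
    obtain ⟨-, j, hx⟩ := hx
    rw [mem_biUnion]
    exact ⟨j, mem_univ _, by rw [mem_filter]; exact ⟨mem_univ _, hx⟩⟩
  refine (card_le_card h1).trans ?_
  rw [← card_univ (α := ι)]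
  refine card_biUnion_le_card_mul _ _ _ fun j _ => ?_
  by_cases hp : ∃ p : (JP blk).Walk (a j) (b j), p.IsPath ∧ p.length ≤ d
  · obtain ⟨p, hp, hl⟩ := hp
    have hs : p.support.toFinset.card ≤ d + 1 := by
      refine (List.toFinset_card_le _).trans ?_
      rw [Walk.length_support]
      omega
    have h2 : ∀ x : Fin L × Fin M, (∃ p : (JP blk).Walk (a j) (b j), p.IsPath ∧ p.length ≤ d ∧
        Sum.inl (blk x.1 x.2) ∈ p.support ∧ Sum.inr x.1 ∈ p.support) →
        Sum.inl (blk x.1 x.2) ∈ p.support ∧ Sum.inr x.1 ∈ p.support := by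
      rintro x ⟨q, hq, hql, h⟩
      rw [hJ.lu hg _ _ p q hp hq hl hql]
      exact h
    calc _ ≤ (p.support.toFinset ×ˢ p.support.toFinset).card := by
          apply card_le_card_of_injOn (fun x : Fin L × Fin M =>
            ((Sum.inl (blk x.1 x.2) : Fin N ⊕ Fin L), (Sum.inr x.1 : Fin N ⊕ Fin L)))
          · intro x hx
            rw [mem_coe, mem_filter] at hx
            have := h2 x hx.2
            rw [mem_coe, mem_product, List.mem_toFinset, List.mem_toFinset]
            exact this
          · intro x _ y _ hxy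
            obtain ⟨h3, h4⟩ := Prod.ext_iff.1 hxy
            have h5 : x.1 = y.1 := Sum.inr_injective h4
            have h6 : blk x.1 x.2 = blk y.1 y.2 := Sum.inl_injective h3
            rw [← h5] at h6
            exact Prod.ext h5 (hinj _ h6)
      _ ≤ (d + 1) ^ 2 := by
          rw [card_product, pow_two]
          exact Nat.mul_le_mul hs hs
  · rw [card_eq_zero.2]
    · exact Nat.zero_le _
    · rw [filter_eq_empty_iff]
      rintro x - ⟨p, h3, h4, -⟩
      exact hp ⟨p, h3, h4⟩

/-- Half of the blocks are used at few positions. -/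
theorem card_light (U : Finset (Fin L × Fin M)) {c : ℕ} (hU : U.card ≤ L * c) :
    L ≤ 2 * (univ.filter fun B : Fin L =>
      (univ.filter fun i : Fin M => (B, i) ∈ U).card ≤ 2 * c).card := by
  set G := univ.filter fun B : Fin L => (univ.filter fun i : Fin M => (B, i) ∈ U).card ≤ 2 * c
    with hG
  have h1 : ∑ B : Fin L, (univ.filter fun i : Fin M => (B, i) ∈ U).card = U.card := by
    rw [← card_sigma]
    refine card_bij (fun x _ => (x.1, x.2)) ?_ ?_ ?_
    · rintro ⟨B, i⟩ hx
      rw [mem_sigma, mem_filter] at hx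
      exact hx.2.2
    · rintro ⟨B, i⟩ _ ⟨B', i'⟩ _ h
      simp only [Prod.mk.injEq] at h
      obtain ⟨rfl, rfl⟩ := h
      rfl
    · rintro ⟨B, i⟩ hx
      exact ⟨⟨B, i⟩, by rw [mem_sigma, mem_filter]; exact ⟨mem_univ _, mem_univ _, hx⟩, rfl⟩
  have h2 : (Gᶜ).card * (2 * c + 1) ≤ U.card := by
    rw [← h1, ← smul_eq_mul, ← sum_const]
    refine (sum_le_sum fun B hB => ?_).trans (sum_le_sum_of_subset (subset_univ Gᶜ))
    rw [mem_compl, hG, mem_filter] at hB
    have : ¬ (univ.filter fun i : Fin M => (B, i) ∈ U).card ≤ 2 * c := fun h =>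
      hB ⟨mem_univ _, h⟩
    omega
  have h3 : G.card + (Gᶜ).card = L := by
    rw [card_add_card_compl, Fintype.card_fin]
  have h4 : (Gᶜ).card * (2 * c + 1) ≤ L * c := h2.trans hU
  have h5 : 2 * (Gᶜ).card ≤ L ∨ c = 0 ∨ L < 2 * (Gᶜ).card := by omega
  rcases h5 with h5 | h5 | h5
  · omega
  · subst h5
    omega
  · nlinarith

/-- The codes of the representations of the relation of the even blocks. -/
abbrev KA (n θ N : ℕ) : Type :=
  (Fin N → Ty (Fin n) θ (Rq n)) × Fin n × (Fin N → Fin N) × (Fin N → Fin n) × Set (Cd n θ)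

/-- The relation of the even blocks has a representation with the given code. -/
def ConsA (blk : Fin L → Fin M → Fin N) {n θ : ℕ} (κ : KA n θ N) (S : Fin L → Finset (Fin M)) :
    Prop :=
  ∃ col : Fin N ⊕ Fin L → Fin n,
    (∀ v, lam (JS blk S) col θ (Rq n) (Sum.inl v) = κ.1 v) ∧
    (∀ B, col (Sum.inr B) = κ.2.1) ∧
    ∀ x y, HS blk S x y ↔ (pcode (JS blk S) (lam (JS blk S) col θ (Rq n)) (Dq n)
      (Sum.inl (κ.2.2.1 x)) (Sum.inl (κ.2.2.1 y)), κ.2.2.2.1 x, κ.2.2.2.1 y) ∈ κ.2.2.2.2

theorem consA_collapse {n θ : ℕ} (hJ : UP (JP blk) g) (hg : 2 * Dq n ≤ g) (hg6 : 6 ≤ g)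
    (hinj : ∀ B, Function.Injective (blk B)) (hθ : 1 ≤ θ)
    (hM : Nat.card (Ty (Fin n) θ (Rq n)) * (2 * (Dq n + 1) ^ 2 + θ + 5) ≤ M) (κ : KA n θ N) :
    ∃ (cl : Fin L → Finset (Fin M) → Finset (Fin M)) (G : Finset (Fin L)),
      L ≤ 2 * G.card ∧ (∀ B ∈ G, ∃ ω, ∀ x, cl B x ≠ ω) ∧
      ∀ S S', ConsA blk κ S → ConsA blk κ S' → (∀ B, cl B (S B) = cl B (S' B)) → S = S' := by
  obtain ⟨Λ, k₀, pt, tag, F⟩ := κ
  have : Fintype (Ty (Fin n) θ (Rq n)) := Fintype.ofFinite _
  rw [Nat.card_eq_fintype_card] at hM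
  by_cases hL : L = 0
  · subst hL
    exact ⟨fun _ => id, ∅, by simp, by simp, fun S S' _ _ _ => funext fun B => B.elim0⟩
  -- a set of positions with the same type
  have hQ : ∀ B : Fin L, ∃ t : Ty (Fin n) θ (Rq n), 2 * (Dq n + 1) ^ 2 + θ + 5 ≤
      (univ.filter fun i => Λ (blk B i) = t).card := by
    intro B
    have hne : (univ : Finset (Ty (Fin n) θ (Rq n))).Nonempty := by
      by_contra h
      rw [not_nonempty_iff_eq_empty, univ_eq_empty_iff] at h
      have : IsEmpty (Fin M) := ⟨fun i => h.elim (Λ (blk B i))⟩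
      have h2 : M = 0 := by
        by_contra hM0
        exact this.elim ⟨0, Nat.pos_of_ne_zero hM0⟩
      subst h2
      -- no points, hence no block needed; use the type of any vertex
      have hN : IsEmpty (Fin N) := ⟨fun v => h.elim (Λ v)⟩
      have hn : IsEmpty (Fin n) := by
        by_contra hn
        rw [not_isEmpty_iff] at hn
        exact h.elim ((lam (⊥ : SimpleGraph Unit) (fun _ => hn.some) θ (Rq n)) ())
      exact hn.elim k₀
    have h1 := exists_le_card_fiber_of_mul_le_card_of_maps_to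
      (s := (univ : Finset (Fin M))) (t := (univ : Finset (Ty (Fin n) θ (Rq n))))
      (f := fun i => Λ (blk B i)) (n := 2 * (Dq n + 1) ^ 2 + θ + 5) (fun _ _ => mem_univ _) hne
      (by rw [card_univ, card_univ, Fintype.card_fin]; exact hM)
    obtain ⟨t, -, ht⟩ := h1
    exact ⟨t, ht⟩
  choose t ht using hQ
  set Q : Fin L → Finset (Fin M) := fun B => univ.filter fun i => Λ (blk B i) = t B with hQdef
  have hab : ∀ B, ∃ a b, a ∈ Q B ∧ b ∈ Q B ∧ a ≠ b := by
    intro B
    obtain ⟨a, ha, b, hb, hne⟩ := one_lt_card.1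
      (show 1 < (Q B).card from lt_of_lt_of_le (by omega) (ht B))
    exact ⟨a, b, ha, hb, hne⟩
  choose a b ha hb hne using hab
  set U := used blk (Dq n) (fun B => Sum.inl (pt (blk B (a B))))
    (fun B => Sum.inl (pt (blk B (b B)))) with hU
  have hUcard : U.card ≤ L * (Dq n + 1) ^ 2 := by
    have := card_used hJ hg hinj (fun B => Sum.inl (pt (blk B (a B))))
      (fun B : Fin L => (Sum.inl (pt (blk B (b B))) : Fin N ⊕ Fin L))
    rwa [Fintype.card_fin] at this
  set G := univ.filter fun B : Fin L =>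
      (univ.filter fun i : Fin M => (B, i) ∈ U).card ≤ 2 * (Dq n + 1) ^ 2 with hG
  -- the twin patterns
  have htwin : ∀ B : Fin L, ∃ (e : Fin M) (T : Finset (Fin M)), B ∈ G →
      ((B, e) ∉ U ∧ e ∉ T ∧ e ∈ Q B ∧ T ⊆ Q B ∧ a B ∈ T ∧ b B ∈ T ∧ θ ≤ T.card) := by
    intro B
    by_cases hB : B ∈ G
    · rw [hG, mem_filter] at hB
      have h1 : (insert (a B) (insert (b B) (univ.filter fun i : Fin M => (B, i) ∈ U))).card <
          (Q B).card := by
        refine lt_of_le_of_lt ((card_insert_le _ _).trans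
          (Nat.add_le_add_right (card_insert_le _ _) 1)) ?_
        have h2 := ht B
        have h3 := hB.2
        change _ < (univ.filter fun i => Λ (blk B i) = t B).card
        omega
      obtain ⟨e, he1, he2⟩ := exists_mem_notMem_of_card_lt_card h1
      rw [mem_insert, mem_insert, mem_filter] at he2
      push Not at he2
      refine ⟨e, (Q B).erase e, fun _ => ⟨he2.2.2 (mem_univ _), notMem_erase _ _, he1,
        erase_subset _ _, ?_, ?_, ?_⟩⟩
      · rw [mem_erase]
        exact ⟨he2.1.symm, ha B⟩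
      · rw [mem_erase]
        exact ⟨he2.2.1.symm, hb B⟩
      · rw [card_erase_of_mem he1]
        have h2 := ht B
        change θ ≤ (univ.filter fun i => Λ (blk B i) = t B).card - 1
        omega
    · exact ⟨a B, ∅, fun h => absurd h hB⟩
  choose e T heT using htwin
  refine ⟨fun B X => if B ∈ G ∧ X = insert (e B) (T B) then T B else X, G,
    card_light U hUcard, ?_, ?_⟩
  · intro B hB
    refine ⟨insert (e B) (T B), fun X => ?_⟩
    dsimp only
    split_ifs with h
    · intro he
      have := (heT B hB).2.1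
      rw [he] at this
      exact this (mem_insert_self _ _)
    · intro he
      exact h ⟨hB, he⟩
  · intro S S' hS hS' hcl
    obtain ⟨col, hΛ, hk, hF⟩ := hS
    obtain ⟨col', hΛ', hk', hF'⟩ := hS'
    dsimp only at hΛ hΛ' hk hk' hF hF'
    -- the shape of the difference
    have hshape : ∀ B, S B = S' B ∨ (B ∈ G ∧ ((S B = insert (e B) (T B) ∧ S' B = T B) ∨
        (S B = T B ∧ S' B = insert (e B) (T B)))) := by
      intro B
      have h := hcl B
      dsimp only at h
      split_ifs at h with h1 h2 h2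
      · left
        rw [h1.2, h2.2]
      · exact Or.inr ⟨h1.1, Or.inl ⟨h1.2, h.symm⟩⟩
      · exact Or.inr ⟨h2.1, Or.inr ⟨h, h2.2⟩⟩
      · exact Or.inl h
    have htypes := types_eq (R := Rq n) hθ hinj (S := S) (S' := S') (col := col) (col' := col')
      (fun v => by rw [hΛ, hΛ']) (fun B => by rw [hk, hk']) (by
        intro B
        rcases hshape B with h | ⟨hB, h⟩
        · exact Or.inl h
        · right
          obtain ⟨-, -, h3, h4, -, -, h5⟩ := heT B hB
          have h6 : S B ∪ S' B ⊆ Q B := by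
            intro i hi
            rw [mem_union] at hi
            rcases h with ⟨h7, h8⟩ | ⟨h7, h8⟩
            · rw [h7, h8, mem_insert] at hi
              rcases hi with (rfl | hi) | hi
              · exact h3
              · exact h4 hi
              · exact h4 hi
            · rw [h7, h8, mem_insert] at hi
              rcases hi with hi | (rfl | hi)
              · exact h4 hi
              · exact h3
              · exact h4 hi
          have hcard : (T B).card ≤ (insert (e B) (T B)).card := card_le_card (subset_insert _ _)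
          refine ⟨?_, ?_, ?_⟩
          · intro i hi j hj
            have h9 := h6 hi
            have h10 := h6 hj
            rw [hQdef, mem_filter] at h9 h10
            rw [hΛ, hΛ, h9.2, h10.2]
          · rcases h with ⟨h7, h8⟩ | ⟨h7, h8⟩
            · rw [h7]; omega
            · rw [h7]; exact h5
          · rcases h with ⟨h7, h8⟩ | ⟨h7, h8⟩
            · rw [h8]; exact h5
            · rw [h8]; omega)
    funext B
    rcases hshape B with h | ⟨hB, h⟩
    · exact h
    exfalso
    -- the codes are equal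
    have hcode : pcode (JS blk S) (lam (JS blk S) col θ (Rq n)) (Dq n)
        (Sum.inl (pt (blk B (a B)))) (Sum.inl (pt (blk B (b B)))) =
        pcode (JS blk S') (lam (JS blk S') col' θ (Rq n)) (Dq n)
        (Sum.inl (pt (blk B (a B)))) (Sum.inl (pt (blk B (b B)))) := by
      refine pcode_eq hJ hg (fun v => htypes _ le_rfl v) ?_
      intro p hp hl C i hi hC
      have hCU : (C, i) ∈ U := by
        rw [hU, mem_used]
        exact ⟨B, p, hp, hl, hi, hC⟩
      rcases hshape C with h | ⟨hC, h⟩
      · rw [h]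
      · have hie : i ≠ e C := by
          intro he
          rw [he] at hCU
          exact (heT C hC).1 hCU
        rcases h with ⟨h7, h8⟩ | ⟨h7, h8⟩
        · rw [h7, h8, mem_insert]
          exact ⟨fun h => h.resolve_left hie, Or.inr⟩
        · rw [h7, h8, mem_insert]
          exact ⟨Or.inr, fun h => h.resolve_left hie⟩
    have hHS : HS blk S (blk B (a B)) (blk B (b B)) ↔ HS blk S' (blk B (a B)) (blk B (b B)) := by
      rw [hF, hF', hcode]
    obtain ⟨-, h2, -, -, h5, h6, -⟩ := heT B hB
    rcases h with ⟨h7, h8⟩ | ⟨h7, h8⟩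
    · rw [HS_iff hJ hg6 hinj (by rw [h7]; exact mem_insert_of_mem h5)
        (by rw [h7]; exact mem_insert_of_mem h6) (hne B),
        HS_iff hJ hg6 hinj (by rw [h8]; exact h5) (by rw [h8]; exact h6) (hne B), h7, h8,
        card_insert_of_notMem h2, Nat.even_add_one] at hHS
      exact (iff_not_self hHS.symm)
    · rw [HS_iff hJ hg6 hinj (by rw [h7]; exact h5) (by rw [h7]; exact h6) (hne B),
        HS_iff hJ hg6 hinj (by rw [h8]; exact mem_insert_of_mem h5)
        (by rw [h8]; exact mem_insert_of_mem h6) (hne B), h7, h8,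
        card_insert_of_notMem h2, Nat.even_add_one] at hHS
      exact (iff_not_self hHS)

/-- A representation of the relation of the even blocks has a code. -/
theorem exists_consA {n θ : ℕ} {S : Fin L → Finset (Fin M)} (hL : 0 < L)
    (hJ : UP (JP blk) g) (hg : 3 * Dq n + 1 ≤ g) (hθ : cq n (Dq n + 2) ≤ θ)
    (h : RepN (JS blk S) n (HS blk S)) : ∃ κ : KA n θ N, ConsA blk κ S := by
  obtain ⟨col, pt, tag, F, -, -, hB, -, hF⟩ := h.code (hJ.anti (JS_le blk S)) hg hθ
  exact ⟨(fun v => lam (JS blk S) col θ (Rq n) (Sum.inl v), col (Sum.inr ⟨0, hL⟩), pt, tag, F),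
    col, fun _ => rfl, fun B => hB _ _, hF⟩

end Q229.TR
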