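import Pool.Agent.Q229.TR.Fo

set_option autoImplicit false

/-!
# Invariant relations are determined by the labelled short paths
-/

namespace Q229.TR

open SimpleGraph Finset
open scoped Classical

/-- The labels on the short path from `u` to `v`, if there is one, and the labels of `u` and `v`. -/
noncomputable def pcode {V T : Type} (J : SimpleGraph V) (lab : V → T) (d : ℕ) (u v : V) :
    Option (Fin (d + 1) → Option T) × T × T :=
  (if h : ∃ p : J.Walk u v, p.IsPath ∧ p.length ≤ d then
    some fun i => (h.choose.support.map lab)[(i : ℕ)]? else none, lab u, lab v)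

theorem pcode_far {V T : Type} {J : SimpleGraph V} {lab : V → T} {d : ℕ} {u v : V}
    (h : ¬ ∃ p : J.Walk u v, p.IsPath ∧ p.length ≤ d) :
    pcode J lab d u v = (none, lab u, lab v) := by
  rw [pcode, dif_neg h]

/-- Short paths from `u` to `v` are unique. -/
def LU {V : Type} (J : SimpleGraph V) (d : ℕ) (u v : V) : Prop :=
  ∀ p q : J.Walk u v, p.IsPath → q.IsPath → p.length ≤ d → q.length ≤ d → p = q

theorem UP.lu {V : Type} {J : SimpleGraph V} {g d : ℕ} (hJ : UP J g) (hg : 2 * d ≤ g) (u v : V) :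
    LU J d u v :=
  fun p q hp hq hl hl' => hJ u v p q hp hq (by omega)

theorem pcode_path' {V T : Type} {J : SimpleGraph V} {lab : V → T} {d : ℕ} {u v : V}
    (hJ : LU J d u v) (p : J.Walk u v) (hp : p.IsPath) (hl : p.length ≤ d) :
    pcode J lab d u v =
      (some fun i : Fin (d + 1) => (p.support.map lab)[(i : ℕ)]?, lab u, lab v) := by
  have h : ∃ p : J.Walk u v, p.IsPath ∧ p.length ≤ d := ⟨p, hp, hl⟩
  rw [pcode, dif_pos h]
  have h1 := h.choose_spec
  have h2 : h.choose = p := hJ _ _ h1.1 hp h1.2 hl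
  rw [h2]

theorem pcode_path {V T : Type} {J : SimpleGraph V} {lab : V → T} {d g : ℕ} {u v : V}
    (hJ : UP J g) (hg : 2 * d ≤ g) (p : J.Walk u v) (hp : p.IsPath) (hl : p.length ≤ d) :
    pcode J lab d u v =
      (some fun i : Fin (d + 1) => (p.support.map lab)[(i : ℕ)]?, lab u, lab v) :=
  pcode_path' (hJ.lu hg u v) p hp hl

theorem sup_cons {V : Type} {J : SimpleGraph V} {u v : V} (p : J.Walk u v) :
    p.support = u :: p.support.tail := (Walk.cons_tail_support p).symm

/-- A criterion for equal codes. -/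
theorem pcode_congr' {V V' T : Type} {J : SimpleGraph V} {J' : SimpleGraph V'} {lab : V → T}
    {lab' : V' → T} {d : ℕ} {u v : V} {u' v' : V'} (hJ : LU J d u v) (hJ' : LU J' d u' v')
    (hu : lab u = lab' u') (hv : lab v = lab' v')
    (h1 : ∀ p : J.Walk u v, p.IsPath → p.length ≤ d →
      ∃ p' : J'.Walk u' v', p'.IsPath ∧ p'.length ≤ d ∧
        p'.support.map lab' = p.support.map lab)
    (h2 : ∀ p' : J'.Walk u' v', p'.IsPath → p'.length ≤ d →
      ∃ p : J.Walk u v, p.IsPath ∧ p.length ≤ d) :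
    pcode J lab d u v = pcode J' lab' d u' v' := by
  by_cases h : ∃ p : J.Walk u v, p.IsPath ∧ p.length ≤ d
  · obtain ⟨p, hp, hl⟩ := h
    obtain ⟨p', hp', hl', he⟩ := h1 p hp hl
    rw [pcode_path' hJ p hp hl, pcode_path' hJ' p' hp' hl', he, hu, hv]
  · have h' : ¬ ∃ p : J'.Walk u' v', p.IsPath ∧ p.length ≤ d :=
      fun ⟨p', hp', hl'⟩ => h (h2 p' hp' hl')
    rw [pcode_far h, pcode_far h', hu, hv]

theorem list_eq_of_getElem {T : Type} {l l' : List T} {d : ℕ} (hl : l.length ≤ d + 1)
    (hl' : l'.length ≤ d + 1)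
    (h : (fun i : Fin (d + 1) => l[(i : ℕ)]?) = fun i : Fin (d + 1) => l'[(i : ℕ)]?) : l = l' := by
  apply List.ext_getElem?
  intro i
  by_cases hi : i < d + 1
  · exact congrFun h ⟨i, hi⟩
  · rw [List.getElem?_eq_none (by omega), List.getElem?_eq_none (by omega)]

variable {V : Type} [Fintype V] {K : Type} {J : SimpleGraph V} {col : V → K} {θ : ℕ}

theorem Inv.single (D : ℕ) {r : ℕ} {u u' : V} (h : lam J col θ r u = lam J col θ r u') :
    Inv J col θ D r {(u, u', 0)} := by
  have hcl : ∀ w : V, Cl J D {(w, 0)} := by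
    intro w a ha b hb p hp hl y hy
    rw [mem_singleton] at ha hb
    subst ha
    subst hb
    have : p = Walk.nil := Walk.eq_nil_iff_nil.2 (Walk.isPath_iff_nil.1 hp)
    subst this
    simp only [Walk.support_nil, List.mem_singleton] at hy
    exact ⟨(w, 0), mem_singleton_self _, hy.symm⟩
  refine ⟨?_, ?_, ?_, ?_, ?_, ?_, ?_⟩
  · intro x hx y hy _
    rw [mem_singleton] at hx hy
    rw [hx, hy]
  · intro x hx y hy _
    rw [mem_singleton] at hx hy
    rw [hx, hy]
  · intro x hx y hy
    rw [mem_singleton] at hx hy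
    subst hx
    subst hy
    simp
  · intro x hx
    rw [mem_singleton] at hx
    subst hx
    exact h
  · intro x hx y hy _
    rw [mem_singleton] at hx hy
    subst hx
    subst hy
    simp
  · rw [image_singleton]
    exact hcl u
  · rw [image_singleton]
    exact hcl u'

/-- Insertion of two paths with the same labels. -/
theorem Inv.insPath {D r g ρ : ℕ} (hJ : UP J g) (hg : D + 1 ≤ g) (hD : 2 * ρ + 2 ≤ D)
    {u z : V} (p : J.Walk u z) : ∀ {u' z' : V} (p' : J.Walk u' z'), p.IsPath → p'.IsPath →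
      p.support.map (lam J col θ r) = p'.support.map (lam J col θ r) →
      ∀ (Γ : Finset (V × V × ℕ)), Inv J col θ D r Γ → (∀ y ∈ Γ, y.2.2 ≤ ρ) →
      ∀ d : ℕ, (u, u', d) ∈ Γ → d + p.length ≤ ρ → (∀ y ∈ Γ, y.1 ∉ p.support.tail) →
      (∀ y ∈ Γ, y.2.1 ∉ p'.support.tail) →
      ∃ Γ', Γ ⊆ Γ' ∧ Inv J col θ D r Γ' ∧ (∀ y ∈ Γ', y.2.2 ≤ ρ) ∧
        Γ'.card ≤ Γ.card + p.length ∧ ∃ e, (z, z', e) ∈ Γ' := by
  induction p with
  | nil =>
    intro u' z' p' hp hp' hl Γ h hΓ d hd hdρ h1 h2
    cases p' with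
    | nil => exact ⟨Γ, Subset.rfl, h, hΓ, by simp, d, hd⟩
    | cons hadj q =>
      have := congrArg List.length hl
      simp at this
  | @cons u w z hadj q ih =>
    intro u' z' p' hp hp' hl Γ h hΓ d hd hdρ h1 h2
    cases p' with
    | nil =>
      have := congrArg List.length hl
      simp at this
    | @cons _ w' _ hadj' q' =>
      rw [Walk.length_cons] at hdρ
      rw [Walk.cons_isPath_iff] at hp hp'
      rw [Walk.support_cons, Walk.support_cons, List.map_cons, List.map_cons, List.cons.injEq]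
        at hl
      rw [Walk.support_cons, List.tail_cons] at h1 h2
      have hw : ∀ y ∈ Γ, y.1 ≠ w := fun y hy he => h1 y hy (by rw [he]; exact q.start_mem_support)
      have hw' : ∀ y ∈ Γ, y.2.1 ≠ w' :=
        fun y hy he => h2 y hy (by rw [he]; exact q'.start_mem_support)
      have hlw : lam J col θ r w = lam J col θ r w' := by
        have h3 := hl.2
        rw [sup_cons, sup_cons q', List.map_cons, List.map_cons,
          List.cons.injEq] at h3
        exact h3.1
      have hins : Inv J col θ D r (insert (w, w', d + 1) Γ) := h.ins hJ hg hd (fun y hy => by have := hΓ y hy; dsimp only; omega) hw hw'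
        hadj hadj' (lam_le (by omega) hlw)
      have hnd : w ∉ q.support.tail := by
        have h3 := hp.1.support_nodup
        rw [sup_cons, List.nodup_cons] at h3
        exact h3.1
      have hnd' : w' ∉ q'.support.tail := by
        have h3 := hp'.1.support_nodup
        rw [sup_cons, List.nodup_cons] at h3
        exact h3.1
      obtain ⟨Γ', g1, g2, g3, g4, e, he⟩ := ih q' hp.1 hp'.1 hl.2 _ hins (by
        intro y hy
        rw [mem_insert] at hy
        rcases hy with rfl | hy
        · dsimp only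
          omega
        · exact hΓ y hy) (d + 1) (mem_insert_self _ _) (by omega) (by
        intro y hy
        rw [mem_insert] at hy
        rcases hy with rfl | hy
        · exact hnd
        · exact fun hm => h1 y hy (List.mem_of_mem_tail hm)) (by
        intro y hy
        rw [mem_insert] at hy
        rcases hy with rfl | hy
        · exact hnd'
        · exact fun hm => h2 y hy (List.mem_of_mem_tail hm))
      refine ⟨Γ', (subset_insert _ _).trans g1, g2, g3, ?_, e, he⟩
      have hc := card_insert_le (w, w', d + 1) Γ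
      rw [Walk.length_cons]
      omega

/-- The level used for the labels. -/
def Rq (q : ℕ) : ℕ := rq q + Dq q

/-- Two pairs with equally labelled short paths. -/
theorem near_pair {q g : ℕ} (hJ : UP J g) (hg : 3 * Dq q + 1 ≤ g) (hθ : cq q (Dq q + 2) ≤ θ)
    {u v u' v' : V} (p : J.Walk u v) (p' : J.Walk u' v') (hp : p.IsPath) (hp' : p'.IsPath)
    (hl : p.length ≤ Dq q)
    (he : p.support.map (lam J col θ (Rq q)) = p'.support.map (lam J col θ (Rq q))) :
    ∃ Γ, InvL J col θ q Γ ∧ (u, u', 0) ∈ Γ ∧ (v, v', 0) ∈ Γ := by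
  have h2 := two_le_Dq q
  have hu : lam J col θ (Rq q) u = lam J col θ (Rq q) u' := by
    have h3 := he
    rw [sup_cons, sup_cons p', List.map_cons, List.map_cons,
      List.cons.injEq] at h3
    exact h3.1
  obtain ⟨Γ', g1, g2, g3, g4, e, he'⟩ := Inv.insPath (ρ := Dq q) hJ (D := 3 * Dq q) hg (by omega)
    p p' hp hp' he {(u, u', 0)} (Inv.single _ hu) (by simp) 0 (mem_singleton_self _) (by omega)
    (by
      intro y hy
      rw [mem_singleton] at hy
      subst hy
      have h3 := hp.support_nodup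
      rw [sup_cons, List.nodup_cons] at h3
      exact h3.1)
    (by
      intro y hy
      rw [mem_singleton] at hy
      subst hy
      have h3 := hp'.support_nodup
      rw [sup_cons, List.nodup_cons] at h3
      exact h3.1)
  refine ⟨Γ'.image zer, ⟨(g2.rebase g3).mono (by omega) (by rw [Rq]; omega), ?_, ?_⟩, ?_, ?_⟩
  · intro y hy
    obtain ⟨a, -, rfl⟩ := mem_image.1 hy
    rfl
  · refine (cq_mono q (card_image_le.trans (g4.trans ?_))).trans hθ
    rw [card_singleton]
    omega
  · exact mem_image.2 ⟨_, g1 (mem_singleton_self _), rfl⟩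
  · exact mem_image.2 ⟨_, he', rfl⟩

/-- Two pairs of vertices with large distance. -/
theorem far_pair {q : ℕ} (hθ : cq q (Dq q + 2) ≤ θ) {u v u' v' : V}
    (hu : lam J col θ (Rq q) u = lam J col θ (Rq q) u')
    (hv : lam J col θ (Rq q) v = lam J col θ (Rq q) v')
    (h : ¬ Near J (Dq q) u v) (h' : ¬ Near J (Dq q) u' v') :
    ∃ Γ, InvL J col θ q Γ ∧ (u, u', 0) ∈ Γ ∧ (v, v', 0) ∈ Γ := by
  have h2 := two_le_Dq q
  have hs := (Inv.single (J := J) (col := col) (θ := θ) (Dq q) hu)
  refine ⟨insert (v, v', 0) {(u, u', 0)}, ⟨(hs.insFar (by simp) (by omega) ?_ ?_ hv).mono le_rfl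
    (by rw [Rq]; omega), ?_, ?_⟩, by simp, by simp⟩
  · intro x hx
    rw [mem_singleton] at hx
    subst hx
    exact h
  · intro x hx
    rw [mem_singleton] at hx
    subst hx
    exact h'
  · intro y hy
    simp only [mem_insert, mem_singleton] at hy
    rcases hy with rfl | rfl <;> rfl
  · refine (cq_mono q ((card_insert_le _ _).trans ?_)).trans hθ
    rw [card_singleton]
    omega

omit [Fintype V] in
theorem near_iff {q : ℕ} {u v : V} :
    Near J (Dq q) u v ↔ ∃ p : J.Walk u v, p.IsPath ∧ p.length ≤ Dq q :=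
  ⟨fun h => h.exists_path, fun ⟨p, _, hp⟩ => ⟨p, hp⟩⟩

/-- Invariant relations are determined by the codes. -/
theorem QInv.of_code {X τ : Type} {q g : ℕ} {pt : X → V} {tag : X → τ} {R : X → X → Prop}
    (h : QInv J col q pt tag R) (hJ : UP J g) (hg : 3 * Dq q + 1 ≤ g)
    (hθ : cq q (Dq q + 2) ≤ θ) {x y x' y' : X} (hx : tag x = tag x') (hy : tag y = tag y')
    (hc : pcode J (lam J col θ (Rq q)) (Dq q) (pt x) (pt y) =
      pcode J (lam J col θ (Rq q)) (Dq q) (pt x') (pt y')) : R x y ↔ R x' y' := by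
  have h2 := two_le_Dq q
  have main : ∃ Γ, InvL J col θ q Γ ∧ (pt x, pt x', 0) ∈ Γ ∧ (pt y, pt y', 0) ∈ Γ := by
    by_cases hn : ∃ p : J.Walk (pt x) (pt y), p.IsPath ∧ p.length ≤ Dq q
    · obtain ⟨p, hp, hl⟩ := hn
      rw [pcode_path hJ (by omega) p hp hl] at hc
      by_cases hn' : ∃ p : J.Walk (pt x') (pt y'), p.IsPath ∧ p.length ≤ Dq q
      · obtain ⟨p', hp', hl'⟩ := hn'
        rw [pcode_path hJ (by omega) p' hp' hl'] at hc
        have h3 := (Prod.ext_iff.1 hc).1
        dsimp only at h3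
        rw [Option.some.injEq] at h3
        refine near_pair hJ hg hθ p p' hp hp' hl (list_eq_of_getElem (d := Dq q) ?_ ?_ h3)
        · rw [List.length_map, Walk.length_support]
          omega
        · rw [List.length_map, Walk.length_support]
          omega
      · rw [pcode_far hn'] at hc
        exact absurd (Prod.ext_iff.1 hc).1 (by simp)
    · rw [pcode_far hn] at hc
      by_cases hn' : ∃ p : J.Walk (pt x') (pt y'), p.IsPath ∧ p.length ≤ Dq q
      · obtain ⟨p', hp', hl'⟩ := hn'
        rw [pcode_path hJ (by omega) p' hp' hl'] at hc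
        exact absurd (Prod.ext_iff.1 hc).1 (by simp)
      · rw [pcode_far hn'] at hc
        have h3 := (Prod.ext_iff.1 hc).2
        have h4 := Prod.ext_iff.1 h3
        exact far_pair hθ h4.1 h4.2 (fun hN => hn (near_iff.1 hN))
          (fun hN => hn' (near_iff.1 hN))
  obtain ⟨Γ, hΓ, h3, h4⟩ := main
  exact h K col (fun _ _ hvw => hvw) θ Γ hΓ x y x' y' h3 h4 hx hy

/-- The codes of pairs of tagged points. -/
abbrev Cd (n θ : ℕ) : Type :=
  (Option (Fin (Dq n + 1) → Option (Ty (Fin n) θ (Rq n))) × Ty (Fin n) θ (Rq n) ×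
    Ty (Fin n) θ (Rq n)) × Fin n × Fin n

/-- Representations by codes. -/
theorem RepN.code {P L : Type} [Fintype P] [Fintype L] {J : SimpleGraph (P ⊕ L)} {n g : ℕ}
    {X : Type} {R : X → X → Prop} (h : RepN J n R) (hJ : UP J g) (hg : 3 * Dq n + 1 ≤ g)
    {θ : ℕ} (hθ : cq n (Dq n + 2) ≤ θ) :
    ∃ (col : P ⊕ L → Fin n) (pt : X → P) (tag : X → Fin n) (F : Set (Cd n θ)),
      (∀ x x', pt x = pt x' → tag x = tag x' → x = x') ∧
      (∀ x v, col (Sum.inl (pt x)) = col v → ∃ x', Sum.inl (pt x') = v ∧ tag x' = tag x) ∧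
      (∀ B B', col (Sum.inr B) = col (Sum.inr B')) ∧
      QInv J col n (fun x => Sum.inl (pt x)) tag R ∧
      ∀ x y, R x y ↔ (pcode J (lam J col θ (Rq n)) (Dq n) (Sum.inl (pt x)) (Sum.inl (pt y)),
        tag x, tag y) ∈ F := by
  obtain ⟨col, pt, tag, hinj, hfull, hB, hR⟩ := h
  refine ⟨col, pt, tag, {c | ∃ x y, R x y ∧ (pcode J (lam J col θ (Rq n)) (Dq n)
    (Sum.inl (pt x)) (Sum.inl (pt y)), tag x, tag y) = c}, hinj, hfull, hB, hR, ?_⟩
  intro x y
  constructor
  · intro hxy
    exact ⟨x, y, hxy, rfl⟩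
  · rintro ⟨x', y', hxy, hc⟩
    obtain ⟨h1, h2⟩ := Prod.ext_iff.1 hc
    obtain ⟨h3, h4⟩ := Prod.ext_iff.1 h2
    exact (hR.of_code hJ hg hθ h3 h4 h1).1 hxy

end Q229.TR
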