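import Pool.Agent.Q229.TR.Loc

set_option autoImplicit false

/-!
# Incidence graphs with many blocks and without short cycles
-/

namespace Q229.TR

open SimpleGraph Finset
open scoped Classical

theorem UP.comap {V V' : Type} {J : SimpleGraph V} {J' : SimpleGraph V'} {g : ℕ} (h : UP J' g)
    (f : J →g J') (hf : Function.Injective f) : UP J g := by
  intro u v p q hp hq hl
  apply Walk.map_injective_of_injective hf
  apply h
  · exact (Walk.isPath_map_iff_of_injective hf).2 hp
  · exact (Walk.isPath_map_iff_of_injective hf).2 hq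
  · rw [Walk.length_map, Walk.length_map]
    exact hl

theorem UP.anti {V : Type} {J J' : SimpleGraph V} {g : ℕ} (h : UP J' g) (hJ : J ≤ J') :
    UP J g :=
  h.comap (Hom.ofLE hJ) Function.injective_id

/-- A walk avoiding `b` is a walk of the smaller graph. -/
theorem exists_walk_of_avoid {V : Type} {J J' : SimpleGraph V} {b : V}
    (h : ∀ u v, J'.Adj u v → u ≠ b → v ≠ b → J.Adj u v) {u v : V} (p : J'.Walk u v) :
    b ∉ p.support → ∃ q : J.Walk u v, q.support = p.support ∧ q.length = p.length := by
  induction p with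
  | nil => exact fun _ => ⟨Walk.nil, rfl, rfl⟩
  | @cons u w v hadj q ih =>
    intro hb
    rw [Walk.support_cons, List.mem_cons, not_or] at hb
    obtain ⟨q', h1, h2⟩ := ih hb.2
    have hw : w ≠ b := fun he => hb.2 (by rw [← he]; exact q.start_mem_support)
    refine ⟨Walk.cons (h u w hadj (Ne.symm hb.1) hw) q', ?_, ?_⟩
    · rw [Walk.support_cons, Walk.support_cons, h1]
    · rw [Walk.length_cons, Walk.length_cons, h2]

theorem isPath_of_support {V : Type} {J J' : SimpleGraph V} {u v : V} {p : J.Walk u v}
    {q : J'.Walk u v} (h : q.support = p.support) (hp : p.IsPath) : q.IsPath :=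
  Walk.IsPath.mk' (by rw [h]; exact hp.support_nodup)

/-- Adding a new vertex `b` adjacent to vertices which are far apart. -/
theorem UP.add {V : Type} {J J' : SimpleGraph V} {g : ℕ} (hJ : UP J g) {b : V} {X : Set V}
    (hX : ∀ x ∈ X, ∀ y ∈ X, x ≠ y → ¬ Near J g x y)
    (h1 : ∀ u v, J'.Adj u v → u ≠ b → v ≠ b → J.Adj u v) (h2 : ∀ v, J'.Adj b v → v ∈ X) :
    UP J' g := by
  -- paths avoiding `b`
  have avoid : ∀ {u v : V} (p q : J'.Walk u v), p.IsPath → q.IsPath → p.length + q.length ≤ g →
      b ∉ p.support → b ∉ q.support → p = q := by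
    intro u v p q hp hq hl hbp hbq
    obtain ⟨p', hp1, hp2⟩ := exists_walk_of_avoid h1 p hbp
    obtain ⟨q', hq1, hq2⟩ := exists_walk_of_avoid h1 q hbq
    have := hJ u v p' q' (isPath_of_support hp1 hp) (isPath_of_support hq1 hq) (by omega)
    apply Walk.ext_support
    rw [← hp1, ← hq1, this]
  -- paths starting in `b`
  have star : ∀ {v : V} (p q : J'.Walk b v), p.IsPath → q.IsPath → p.length + q.length ≤ g →
      p = q := by
    intro v p q hp hq hl
    cases p with
    | nil => exact (Walk.eq_nil_iff_nil.2 (Walk.isPath_iff_nil.1 hq)).symm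
    | @cons _ x _ hx r =>
      cases q with
      | nil => exact Walk.eq_nil_iff_nil.2 (Walk.isPath_iff_nil.1 hp)
      | @cons _ y _ hy r' =>
        rw [Walk.cons_isPath_iff] at hp hq
        rw [Walk.length_cons, Walk.length_cons] at hl
        obtain ⟨s, hs1, hs2⟩ := exists_walk_of_avoid h1 r hp.2
        obtain ⟨s', hs1', hs2'⟩ := exists_walk_of_avoid h1 r' hq.2
        by_cases hxy : x = y
        · subst hxy
          rw [avoid r r' hp.1 hq.1 (by omega) hp.2 hq.2]
        · exfalso
          refine hX x (h2 x hx) y (h2 y hy) hxy ⟨s.append s'.reverse, ?_⟩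
          rw [Walk.length_append, Walk.length_reverse]
          omega
  -- only one path contains `b`
  have one : ∀ {u v : V} (p q : J'.Walk u v), p.IsPath → q.IsPath → p.length + q.length ≤ g →
      b ∈ p.support → b ∉ q.support → False := by
    intro u v p q hp hq hl hbp hbq
    have hub : u ≠ b := fun he => hbq (by rw [← he]; exact q.start_mem_support)
    have hvb : v ≠ b := fun he => hbq (by rw [← he]; exact q.end_mem_support)
    have hlen : (p.takeUntil b hbp).length + (p.dropUntil b hbp).length = p.length := by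
      have h := congrArg Walk.length (p.take_spec hbp)
      rwa [Walk.length_append] at h
    have hdis := hp.support_nodup
    rw [← p.take_spec hbp, Walk.support_append, List.nodup_append] at hdis
    obtain ⟨-, -, hdis⟩ := hdis
    have ht : (p.takeUntil b hbp).reverse.IsPath := (hp.takeUntil hbp).reverse
    have hd : (p.dropUntil b hbp).IsPath := hp.dropUntil hbp
    have hxs : ∀ z, z ∈ (p.takeUntil b hbp).reverse.support →
        z ∈ (p.takeUntil b hbp).support := by
      intro z hz
      rwa [Walk.support_reverse, List.mem_reverse] at hz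
    have hlr : (p.takeUntil b hbp).reverse.length = (p.takeUntil b hbp).length :=
      Walk.length_reverse _
    generalize (p.takeUntil b hbp).reverse = P1 at ht hxs hlr
    generalize hP2 : p.dropUntil b hbp = P2 at hd hdis hlen
    cases P1 with
    | nil => exact hub rfl
    | @cons _ x _ hx r =>
      cases P2 with
      | nil => exact hvb rfl
      | @cons _ y _ hy r' =>
        rw [Walk.cons_isPath_iff] at ht hd
        rw [Walk.length_cons] at hlr hlen
        obtain ⟨s, hs1, hs2⟩ := exists_walk_of_avoid h1 r ht.2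
        obtain ⟨s', hs1', hs2'⟩ := exists_walk_of_avoid h1 r' hd.2
        obtain ⟨w, hw1, hw2⟩ := exists_walk_of_avoid h1 q hbq
        have hxy : x ≠ y := by
          intro he
          refine hdis x (hxs x ?_) y ?_ he
          · rw [Walk.support_cons]
            exact List.mem_cons_of_mem _ r.start_mem_support
          · rw [Walk.support_cons, List.tail_cons]
            exact r'.start_mem_support
        refine hX x (h2 x hx) y (h2 y hy) hxy ⟨s.append (w.append s'.reverse), ?_⟩
        rw [Walk.length_append, Walk.length_append, Walk.length_reverse]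
        omega
  intro u v p q hp hq hl
  by_cases hbp : b ∈ p.support
  · by_cases hbq : b ∈ q.support
    · have hlen : (p.takeUntil b hbp).length + (p.dropUntil b hbp).length = p.length := by
        have h := congrArg Walk.length (p.take_spec hbp)
        rwa [Walk.length_append] at h
      have hlen' : (q.takeUntil b hbq).length + (q.dropUntil b hbq).length = q.length := by
        have h := congrArg Walk.length (q.take_spec hbq)
        rwa [Walk.length_append] at h
      have e1 := star _ _ (hp.takeUntil hbp).reverse (hq.takeUntil hbq).reverse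
        (by rw [Walk.length_reverse, Walk.length_reverse]; omega)
      have e2 := star _ _ (hp.dropUntil hbp) (hq.dropUntil hbq) (by omega)
      have e3 : p.takeUntil b hbp = q.takeUntil b hbq := by
        have := congrArg Walk.reverse e1
        rwa [Walk.reverse_reverse, Walk.reverse_reverse] at this
      rw [← p.take_spec hbp, ← q.take_spec hbq, e3, e2]
    · exact (one p q hp hq hl hbp hbq).elim
  · by_cases hbq : b ∈ q.support
    · exact (one q p hq hp (by omega) hbq hbp).elim
    · exact avoid p q hp hq hl hbp hbq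

/-! ### Balls -/

theorem card_ball {V : Type} [Fintype V] {J : SimpleGraph V} {d : ℕ}
    (hd : ∀ v, (univ.filter fun w => J.Adj v w).card ≤ d) (g : ℕ) (u : V) :
    (univ.filter fun v => Near J g u v).card ≤ (d + 1) ^ g := by
  induction g with
  | zero =>
    rw [pow_zero]
    rw [card_le_one]
    intro a ha b hb
    have key : ∀ a, Near J 0 u a → a = u := by
      rintro a ⟨p, hp⟩
      exact (Walk.eq_of_length_eq_zero (Nat.le_zero.1 hp)).symm
    rw [mem_filter] at ha hb
    rw [key a ha.2, key b hb.2]
  | succ g ih =>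
    have hsub : (univ.filter fun v => Near J (g + 1) u v) ⊆
        (univ.filter fun v => Near J g u v).biUnion
          fun w => insert w (univ.filter fun v => J.Adj w v) := by
      intro v hv
      rw [mem_filter] at hv
      obtain ⟨p, hp⟩ := hv.2.symm
      rw [mem_biUnion]
      cases p with
      | nil => exact ⟨u, by rw [mem_filter]; exact ⟨mem_univ _, Near.refl J _ _⟩,
          mem_insert_self _ _⟩
      | @cons _ w _ hadj q =>
        rw [Walk.length_cons] at hp
        refine ⟨w, ?_, ?_⟩
        · rw [mem_filter]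
          exact ⟨mem_univ _, Near.symm ⟨q, by omega⟩⟩
        · rw [mem_insert, mem_filter]
          exact Or.inr ⟨mem_univ _, hadj.symm⟩
    calc (univ.filter fun v => Near J (g + 1) u v).card
        ≤ ((univ.filter fun v => Near J g u v).biUnion
          fun w => insert w (univ.filter fun v => J.Adj w v)).card := card_le_card hsub
      _ ≤ (univ.filter fun v => Near J g u v).card * (d + 1) := by
          refine card_biUnion_le_card_mul _ _ _ fun w _ => ?_
          exact (card_insert_le _ _).trans (Nat.add_le_add_right (hd w) 1)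
      _ ≤ (d + 1) ^ g * (d + 1) := Nat.mul_le_mul_right _ ih
      _ = (d + 1) ^ (g + 1) := (pow_succ _ _).symm

/-- A large set contains a subset of given size whose elements are not related. -/
theorem exists_indep {A : Type} [Fintype A] (r : A → A → Prop) (hrs : ∀ x y, r x y → r y x)
    (hrr : ∀ x, r x x) {b : ℕ}
    (hb : ∀ x, (univ.filter fun y => r x y).card ≤ b) (U : Finset A) (m : ℕ)
    (hm : m * b ≤ U.card) (hU : m = 0 ∨ 0 < U.card) :
    ∃ X ⊆ U, X.card = m ∧ ∀ x ∈ X, ∀ y ∈ X, x ≠ y → ¬ r x y := by
  have hb1 : 0 < U.card → 1 ≤ b := by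
    intro h
    obtain ⟨x, -⟩ := card_pos.1 h
    refine le_trans ?_ (hb x)
    rw [Nat.one_le_iff_ne_zero, Ne, card_eq_zero]
    intro he
    have : x ∈ univ.filter fun y => r x y := by
      rw [mem_filter]
      exact ⟨mem_univ _, hrr x⟩
    rw [he] at this
    exact absurd this (notMem_empty _)
  induction m with
  | zero => exact ⟨∅, empty_subset _, rfl, by simp⟩
  | succ m ih =>
    have hU' : 0 < U.card := by
      rcases hU with h | h
      · omega
      · exact h
    have hb' := hb1 hU'
    have hm' : m * b < U.card := by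
      have : (m + 1) * b = m * b + b := by ring
      omega
    obtain ⟨X, hXU, hXm, hX⟩ := ih hm'.le (Or.inr hU')
    have hcard : (X.biUnion fun x => univ.filter fun y => r x y).card < U.card := by
      refine lt_of_le_of_lt (card_biUnion_le_card_mul _ _ b fun x _ => hb x) ?_
      rw [hXm]
      exact hm'
    obtain ⟨z, hzU, hz⟩ := exists_mem_notMem_of_card_lt_card hcard
    rw [mem_biUnion] at hz
    push Not at hz
    have hz' : ∀ x ∈ X, ¬ r x z := by
      intro x hx hr
      exact hz x hx (by rw [mem_filter]; exact ⟨mem_univ _, hr⟩)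
    refine ⟨insert z X, insert_subset hzU hXU, ?_, ?_⟩
    · rw [card_insert_of_notMem, hXm]
      exact fun hzX => hz' z hzX (hrr z)
    · intro x hx y hy hxy hr
      rw [mem_insert] at hx hy
      rcases hx with rfl | hx <;> rcases hy with rfl | hy
      · exact hxy rfl
      · exact hz' y hy (hrs _ _ hr)
      · exact hz' x hx hr
      · exact hX x hx y hy hxy hr

/-! ### Incidence graphs -/

/-- The bipartite graph of the relation `r` between points and blocks. -/
def Bi {P L : Type} (r : P → L → Prop) : SimpleGraph (P ⊕ L) where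
  Adj
    | Sum.inl v, Sum.inr B => r v B
    | Sum.inr B, Sum.inl v => r v B
    | _, _ => False
  symm := ⟨by
    rintro (a | a) (b | b) h
    · exact h
    · exact h
    · exact h
    · exact h⟩
  loopless := ⟨by
    rintro (a | a) h
    · exact h
    · exact h⟩

@[simp] theorem Bi_lr {P L : Type} (r : P → L → Prop) (v : P) (B : L) :
    (Bi r).Adj (Sum.inl v) (Sum.inr B) ↔ r v B := Iff.rfl

@[simp] theorem Bi_rl {P L : Type} (r : P → L → Prop) (v : P) (B : L) :
    (Bi r).Adj (Sum.inr B) (Sum.inl v) ↔ r v B := Iff.rfl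

@[simp] theorem Bi_ll {P L : Type} (r : P → L → Prop) (v w : P) :
    ¬ (Bi r).Adj (Sum.inl v) (Sum.inl w) := fun h => h

@[simp] theorem Bi_rr {P L : Type} (r : P → L → Prop) (B C : L) :
    ¬ (Bi r).Adj (Sum.inr B) (Sum.inr C) := fun h => h

theorem Bi_mono {P L : Type} {r r' : P → L → Prop} (h : ∀ v B, r v B → r' v B) :
    Bi r ≤ Bi r' := by
  rintro (a | a) (b | b) hab
  · exact hab
  · exact h _ _ hab
  · exact h _ _ hab
  · exact hab

/-- The incidence relation of a set of blocks. -/
def incR {N : ℕ} (F : Finset (Finset (Fin N))) : Fin N → Finset (Fin N) → Prop :=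
  fun v B => B ∈ F ∧ v ∈ B

theorem exists_family (N M g Δ : ℕ) (hM : 2 ≤ M) (hg : 2 ≤ g)
    (hN : 2 * (M * (Δ + M + 1) ^ g) ≤ N) :
    ∃ F : Finset (Finset (Fin N)), (∀ B ∈ F, B.card = M) ∧ UP (Bi (incR F)) g ∧
      (∀ v, (univ.filter fun w => (Bi (incR F)).Adj v w).card ≤ Δ + M) ∧
      N * Δ ≤ 2 * (M * F.card) := by
  set 𝓕 : Finset (Finset (Finset (Fin N))) := univ.filter fun F =>
    (∀ B ∈ F, B.card = M) ∧ UP (Bi (incR F)) g ∧
      ∀ v, (F.filter fun B => v ∈ B).card ≤ Δ with h𝓕
  have hne : 𝓕.Nonempty := by
    refine ⟨∅, ?_⟩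
    rw [h𝓕, mem_filter]
    refine ⟨mem_univ _, by simp, ?_, by simp⟩
    have hno : ∀ a b, ¬ (Bi (incR (∅ : Finset (Finset (Fin N))))).Adj a b := by
      rintro (a | a) (b | b) hab
      · exact hab
      · exact absurd hab.1 (notMem_empty _)
      · exact absurd hab.1 (notMem_empty _)
      · exact hab
    intro u v p q hp hq _
    cases p with
    | nil => exact (Walk.eq_nil_iff_nil.2 (Walk.isPath_iff_nil.1 hq)).symm
    | cons hadj _ => exact (hno _ _ hadj).elim
  obtain ⟨F, hF, hmax⟩ := exists_max_image 𝓕 card hne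
  rw [h𝓕, mem_filter] at hF
  obtain ⟨-, hF1, hF2, hF3⟩ := hF
  have hdeg : ∀ v, (univ.filter fun w => (Bi (incR F)).Adj v w).card ≤ Δ + M := by
    rintro (v | B)
    · refine le_trans ?_ (Nat.le_add_right Δ M)
      refine le_trans ?_ (hF3 v)
      have : (univ.filter fun w => (Bi (incR F)).Adj (Sum.inl v) w) ⊆
          (F.filter fun B => v ∈ B).map ⟨Sum.inr, Sum.inr_injective⟩ := by
        intro w hw
        rw [mem_filter] at hw
        rcases w with w | w
        · exact (Bi_ll _ _ _ hw.2).elim
        · rw [mem_map]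
          exact ⟨w, by rw [mem_filter]; exact hw.2, rfl⟩
      exact (card_le_card this).trans (by rw [card_map])
    · by_cases hB : B ∈ F
      · refine le_trans ?_ (Nat.le_add_left M Δ)
        rw [← hF1 B hB]
        have : (univ.filter fun w => (Bi (incR F)).Adj (Sum.inr B) w) ⊆
            B.map ⟨Sum.inl, Sum.inl_injective⟩ := by
          intro w hw
          rw [mem_filter] at hw
          rcases w with w | w
          · rw [mem_map]
            exact ⟨w, hw.2.2, rfl⟩
          · exact (Bi_rr _ _ _ hw.2).elim
        exact (card_le_card this).trans (by rw [card_map])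
      · have : (univ.filter fun w => (Bi (incR F)).Adj (Sum.inr B) w) = ∅ := by
          rw [filter_eq_empty_iff]
          intro w _
          rcases w with w | w
          · exact fun h => hB h.1
          · exact Bi_rr _ _ _
        rw [this, card_empty]
        exact Nat.zero_le _
  refine ⟨F, hF1, hF2, hdeg, ?_⟩
  -- the points of small degree
  set U : Finset (Fin N) := univ.filter fun v => (F.filter fun B => v ∈ B).card < Δ with hU
  have hUcard : U.card < M * (Δ + M + 1) ^ g := by
    by_contra hcon
    push Not at hcon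
    have hpos : 0 < M * (Δ + M + 1) ^ g := by positivity
    obtain ⟨X, hXU, hXM, hX⟩ := exists_indep
      (fun x y : Fin N => Near (Bi (incR F)) g (Sum.inl x) (Sum.inl y))
      (fun x y h => h.symm) (fun x => Near.refl _ _ _) (b := (Δ + M + 1) ^ g) (by
        intro x
        refine le_trans ?_ (card_ball hdeg g (Sum.inl x))
        rw [← card_map (⟨Sum.inl, Sum.inl_injective⟩ : Fin N ↪ Fin N ⊕ Finset (Fin N))]
        apply card_le_card
        intro w hw
        obtain ⟨y, hy, rfl⟩ := mem_map.1 hw
        rw [mem_filter] at hy ⊢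
        exact ⟨mem_univ _, hy.2⟩) U M hcon (Or.inr (by omega))
    have hXF : X ∉ F := by
      intro hXF
      obtain ⟨x, hx, y, hy, hxy⟩ := one_lt_card.1 (by omega : 1 < X.card)
      refine hX x hx y hy hxy ⟨Walk.cons (show (Bi (incR F)).Adj (Sum.inl x) (Sum.inr X) from
        ⟨hXF, hx⟩) (Walk.cons (show (Bi (incR F)).Adj (Sum.inr X) (Sum.inl y) from ⟨hXF, hy⟩)
        Walk.nil), ?_⟩
      simp only [Walk.length_cons, Walk.length_nil]
      omega
    have hbig : insert X F ∈ 𝓕 := by
      rw [h𝓕, mem_filter]
      refine ⟨mem_univ _, ?_, ?_, ?_⟩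
      · intro B hB
        rw [mem_insert] at hB
        rcases hB with rfl | hB
        · exact hXM
        · exact hF1 B hB
      · refine hF2.add (b := Sum.inr X) (X := Sum.inl '' (X : Set (Fin N))) ?_ ?_ ?_
        · rintro _ ⟨x, hx, rfl⟩ _ ⟨y, hy, rfl⟩ hxy
          exact hX x hx y hy fun he => hxy (by rw [he])
        · rintro (u | u) (v | v) huv hu hv
          · exact huv
          · refine ⟨?_, huv.2⟩
            rcases mem_insert.1 huv.1 with h | h
            · exact absurd (by rw [h]) hv
            · exact h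
          · refine ⟨?_, huv.2⟩
            rcases mem_insert.1 huv.1 with h | h
            · exact absurd (by rw [h]) hu
            · exact h
          · exact huv
        · rintro (v | v) hv
          · exact ⟨v, hv.2, rfl⟩
          · exact hv.elim
      · intro v
        rw [filter_insert]
        split_ifs with hv
        · rw [card_insert_of_notMem (fun h => hXF (mem_of_mem_filter _ h))]
          have := hXU hv
          rw [hU, mem_filter] at this
          exact this.2
        · exact hF3 v
    have := hmax _ hbig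
    rw [card_insert_of_notMem hXF] at this
    omega
  -- double counting
  have hsum : ∑ v : Fin N, (F.filter fun B => v ∈ B).card = M * F.card := by
    have h1 := sum_card_bipartiteAbove_eq_sum_card_bipartiteBelow (s := (univ : Finset (Fin N)))
      (t := F) (fun v B => v ∈ B)
    unfold bipartiteAbove bipartiteBelow at h1
    rw [h1]
    rw [sum_congr rfl (fun B hB => ?_), sum_const, smul_eq_mul, mul_comm]
    rw [filter_mem_eq_inter, univ_inter]
    exact hF1 B hB
  have hlow : (N - U.card) * Δ ≤ ∑ v : Fin N, (F.filter fun B => v ∈ B).card := by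
    have h1 : (univ \ U).card = N - U.card := by
      rw [card_sdiff_of_subset (subset_univ _), card_univ, Fintype.card_fin]
    rw [← h1, ← smul_eq_mul, ← sum_const]
    refine (sum_le_sum (fun v hv => ?_)).trans (sum_le_sum_of_subset (subset_univ (univ \ U)))
    rw [mem_sdiff, hU, mem_filter] at hv
    have := hv.2
    push Not at this
    exact this (mem_univ _)
  rw [hsum] at hlow
  have h2 : N ≤ 2 * (N - U.card) := by omega
  calc N * Δ ≤ 2 * (N - U.card) * Δ := Nat.mul_le_mul_right _ h2
    _ = 2 * ((N - U.card) * Δ) := by ring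
    _ ≤ 2 * (M * F.card) := Nat.mul_le_mul_left _ hlow

/-- Powers of linear functions are smaller than exponentials. -/
theorem exists_large (a e k₀ : ℕ) : ∃ k, k₀ ≤ k ∧ (a * (k + 1)) ^ e ≤ 2 ^ k := by
  have h1 := tendsto_pow_const_div_const_pow_of_one_lt e (r := 2) (by norm_num)
  have h2 : (0 : ℝ) < 1 / (2 * (a : ℝ) ^ e + 1) := by positivity
  have h3 := (h1.eventually (gt_mem_nhds h2)).and (Filter.eventually_ge_atTop (k₀ + 1))
  obtain ⟨n, h4, h5⟩ := h3.exists
  obtain ⟨k, rfl⟩ : ∃ k, n = k + 1 := ⟨n - 1, by omega⟩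
  refine ⟨k, by omega, ?_⟩
  rw [div_lt_div_iff₀ (by positivity) (by positivity)] at h4
  have h6 : ((a : ℝ) * (k + 1)) ^ e ≤ 2 ^ k := by
    rw [mul_pow]
    push_cast at h4
    rw [pow_succ] at h4
    have h7 : (0 : ℝ) ≤ ((k : ℝ) + 1) ^ e := by positivity
    nlinarith
  exact_mod_cast h6

/-- The incidence relation of the blocks with the patterns `S`. -/
def pat {L M : ℕ} {P : Type} (blk : Fin L → Fin M → P) (S : Fin L → Finset (Fin M)) :
    P → Fin L → Prop := fun v B => ∃ i ∈ S B, blk B i = v

/-- **Existence** of incidence structures with many blocks and without short cycles. -/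
theorem exists_hyp (M g C E k₀ : ℕ) (hM : 2 ≤ M) (hg : 2 ≤ g) :
    ∃ (k L Δ : ℕ) (blk : Fin L → Fin M → Fin (2 ^ k)), k₀ ≤ k ∧
      (∀ B, Function.Injective (blk B)) ∧ UP (Bi (pat blk fun _ => univ)) g ∧
      C * k * 2 ^ k ≤ L ∧
      (∀ v, (univ.filter fun w => (Bi (pat blk fun _ => univ)).Adj v w).card ≤ Δ) ∧
      (Δ + 1) ^ E ≤ 2 ^ k := by
  obtain ⟨k, hk, hk2⟩ := exists_large (2 * M * C + 2 * M + 1) (g + E + 1) k₀
  set Δ := 2 * M * C * k with hΔ
  have hbase : Δ + M + 1 ≤ (2 * M * C + 2 * M + 1) * (k + 1) := by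
    rw [hΔ]
    nlinarith [Nat.zero_le (M * C), Nat.zero_le (M * k), Nat.zero_le k]
  have hb1 : 1 ≤ (2 * M * C + 2 * M + 1) * (k + 1) := by nlinarith [Nat.zero_le (M * C)]
  have hM2 : 2 * M ≤ (2 * M * C + 2 * M + 1) * (k + 1) := by
    nlinarith [Nat.zero_le (M * C), Nat.zero_le (M * k), Nat.zero_le (M * C * k)]
  have hN : 2 * (M * (Δ + M + 1) ^ g) ≤ 2 ^ k := by
    refine le_trans ?_ hk2
    calc 2 * (M * (Δ + M + 1) ^ g) = (2 * M) * (Δ + M + 1) ^ g := by ring
      _ ≤ ((2 * M * C + 2 * M + 1) * (k + 1)) * ((2 * M * C + 2 * M + 1) * (k + 1)) ^ g :=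
          Nat.mul_le_mul hM2 (Nat.pow_le_pow_left hbase g)
      _ = ((2 * M * C + 2 * M + 1) * (k + 1)) ^ (g + 1) := by rw [pow_succ]; ring
      _ ≤ _ := Nat.pow_le_pow_right hb1 (by omega)
  obtain ⟨F, hF1, hF2, hF3, hF4⟩ := exists_family (2 ^ k) M g Δ hM hg hN
  set e := F.equivFin with he
  let blk : Fin F.card → Fin M → Fin (2 ^ k) :=
    fun j i => (e.symm j).1.orderEmbOfFin (hF1 _ (e.symm j).2) i
  have hblk : ∀ (v : Fin (2 ^ k)) (j : Fin F.card),
      pat blk (fun _ => univ) v j ↔ v ∈ (e.symm j).1 := by
    intro v j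
    constructor
    · rintro ⟨i, -, rfl⟩
      exact orderEmbOfFin_mem _ _ _
    · intro hv
      have : v ∈ Set.range ((e.symm j).1.orderEmbOfFin (hF1 _ (e.symm j).2)) := by
        rw [range_orderEmbOfFin]
        exact hv
      obtain ⟨i, hi⟩ := this
      exact ⟨i, mem_univ _, hi⟩
  let f : Bi (pat blk fun _ => univ) →g Bi (incR F) :=
    { toFun := Sum.map id fun j => (e.symm j).1
      map_rel' := by
        rintro (a | a) (b | b) hab
        · exact hab
        · exact ⟨(e.symm b).2, (hblk a b).1 hab⟩
        · exact ⟨(e.symm a).2, (hblk b a).1 hab⟩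
        · exact hab }
  have hf : Function.Injective f := by
    rintro (a | a) (b | b) hab
    · exact congrArg Sum.inl (Sum.inl_injective hab)
    · exact absurd hab (by simp [f])
    · exact absurd hab (by simp [f])
    · have h1 : (e.symm a).1 = (e.symm b).1 := Sum.inr_injective hab
      rw [e.symm.injective (Subtype.ext h1)]
  refine ⟨k, F.card, Δ + M, blk, hk, ?_, hF2.comap f hf, ?_, ?_, ?_⟩
  · intro B
    exact ((e.symm B).1.orderEmbOfFin (hF1 _ (e.symm B).2)).injective
  · have h1 : 2 ^ k * (2 * M * C * k) ≤ 2 * (M * F.card) := hF4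
    have h2 : (2 * M) * (C * k * 2 ^ k) ≤ (2 * M) * F.card := by
      calc (2 * M) * (C * k * 2 ^ k) = 2 ^ k * (2 * M * C * k) := by ring
        _ ≤ 2 * (M * F.card) := h1
        _ = (2 * M) * F.card := by ring
    exact Nat.le_of_mul_le_mul_left h2 (by omega)
  · intro v
    refine le_trans ?_ (hF3 (f v))
    rw [← card_map ⟨f, hf⟩]
    apply card_le_card
    intro w hw
    obtain ⟨w', hw', rfl⟩ := mem_map.1 hw
    rw [mem_filter] at hw' ⊢
    exact ⟨mem_univ _, f.map_adj hw'.2⟩
  · refine le_trans ?_ hk2
    calc (Δ + M + 1) ^ E ≤ ((2 * M * C + 2 * M + 1) * (k + 1)) ^ E :=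
          Nat.pow_le_pow_left hbase E
      _ ≤ _ := Nat.pow_le_pow_right hb1 (by omega)

end Q229.TR
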