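import Mathlib

set_option autoImplicit false

/-!
# First-order formulas with modulo-counting quantifiers
-/

namespace Q229.TR

/-- Formulas with the free variables `0, …, k - 1` over binary relation symbols from `B` and unary
relation symbols from `U`: atomic formulas (with equality), Boolean connectives, the quantifiers `∀`
and `∃`, and the modulo-counting quantifiers `∃^{a mod b}`. In `all φ`, `ex φ` and `modq a b φ` the
quantified variable is the last variable `k` of `φ`. -/
inductive Fm (B U : Type) : ℕ → Type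
  | bin {k : ℕ} (b : B) (i j : Fin k) : Fm B U k
  | eq {k : ℕ} (i j : Fin k) : Fm B U k
  | un {k : ℕ} (u : U) (i : Fin k) : Fm B U k
  | neg {k : ℕ} (φ : Fm B U k) : Fm B U k
  | and {k : ℕ} (φ ψ : Fm B U k) : Fm B U k
  | or {k : ℕ} (φ ψ : Fm B U k) : Fm B U k
  | all {k : ℕ} (φ : Fm B U (k + 1)) : Fm B U k
  | ex {k : ℕ} (φ : Fm B U (k + 1)) : Fm B U k
  | modq {k : ℕ} (a b : ℕ) (φ : Fm B U (k + 1)) : Fm B U k

/-- `Sat RB RU φ s`: the formula `φ` holds for the values `s 0, …, s (k - 1)` of the variables in the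
structure with universe `X`, the binary relations `RB b` and the unary relations `RU u`. -/
def Sat {B U X : Type} (RB : B → X → X → Prop) (RU : U → X → Prop) :
    {k : ℕ} → Fm B U k → (Fin k → X) → Prop
  | _, .bin b i j, s => RB b (s i) (s j)
  | _, .eq i j, s => s i = s j
  | _, .un u i, s => RU u (s i)
  | _, .neg φ, s => ¬ Sat RB RU φ s
  | _, .and φ ψ, s => Sat RB RU φ s ∧ Sat RB RU ψ s
  | _, .or φ ψ, s => Sat RB RU φ s ∨ Sat RB RU ψ s
  | _, .all φ, s => ∀ x : X, Sat RB RU φ (Fin.snoc s x)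
  | _, .ex φ, s => ∃ x : X, Sat RB RU φ (Fin.snoc s x)
  | _, .modq a b φ, s => Nat.card {x : X // Sat RB RU φ (Fin.snoc s x)} ≡ a [MOD b]

/-- First-order formulas: no modulo-counting quantifier. -/
def Fm.IsFO {B U : Type} : {k : ℕ} → Fm B U k → Prop
  | _, .bin _ _ _ => True
  | _, .eq _ _ => True
  | _, .un _ _ => True
  | _, .neg φ => φ.IsFO
  | _, .and φ ψ => φ.IsFO ∧ ψ.IsFO
  | _, .or φ ψ => φ.IsFO ∧ ψ.IsFO
  | _, .all φ => φ.IsFO
  | _, .ex φ => φ.IsFO
  | _, .modq _ _ _ => False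

/-- The quantifier rank. -/
def Fm.rank {B U : Type} : {k : ℕ} → Fm B U k → ℕ
  | _, .bin _ _ _ => 0
  | _, .eq _ _ => 0
  | _, .un _ _ => 0
  | _, .neg φ => φ.rank
  | _, .and φ ψ => max φ.rank ψ.rank
  | _, .or φ ψ => max φ.rank ψ.rank
  | _, .all φ => φ.rank + 1
  | _, .ex φ => φ.rank + 1
  | _, .modq _ _ φ => φ.rank + 1

end Q229.TR
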