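import Pool.Agent.Q229.TR.Loc
import Pool.Agent.Q229.TR.Syn

set_option autoImplicit false

/-!
# First-order formulas with modulo-counting quantifiers, and their invariance
-/

namespace Q229.TR

open SimpleGraph Finset
open scoped Classical

/-- The colouring `c'` refines the colouring `c`. -/
def Refines {V K K' : Type} (c' : V → K') (c : V → K) : Prop := ∀ v w, c' v = c' w → c v = c w

variable {V : Type} [Fintype V]

/-- The relation `R` is invariant under the partial isomorphisms which are good for `q` rounds. -/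
def QInv {K X τ : Type} (J : SimpleGraph V) (col : V → K) (q : ℕ) (pt : X → V) (tag : X → τ)
    (R : X → X → Prop) : Prop :=
  ∀ (K' : Type) (col' : V → K'), Refines col' col → ∀ (θ : ℕ) (Γ : Finset (V × V × ℕ)),
    InvL J col' θ q Γ → ∀ x y x' y', (pt x, pt x', 0) ∈ Γ → (pt y, pt y', 0) ∈ Γ →
      tag x = tag x' → tag y = tag y' → (R x y ↔ R x' y')

/-- The hypotheses of the invariance theorem. -/
structure Scene {K X τ B U : Type} (J : SimpleGraph V) (RB : B → X → X → Prop)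
    (RU : U → X → Prop) (col : V → K) (q : ℕ) (pt : X → V) (tag : X → τ) : Prop where
  inj : ∀ x x', pt x = pt x' → tag x = tag x' → x = x'
  full : ∀ x v, col (pt x) = col v → ∃ x', pt x' = v ∧ tag x' = tag x
  un : ∀ u x x', col (pt x) = col (pt x') → tag x = tag x' → (RU u x ↔ RU u x')
  bin : ∀ b, QInv J col q pt tag (RB b)

theorem InvL.col_eq {K : Type} {J : SimpleGraph V} {col : V → K} {θ q : ℕ}
    {Γ : Finset (V × V × ℕ)} (h : InvL J col θ q Γ) {x : V × V × ℕ} (hx : x ∈ Γ) :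
    col x.1 = col x.2.1 := by
  have h1 := h.inv.lev x hx
  exact lam_le (i := 0) (Nat.zero_le _) h1

/-- **Invariance of first-order formulas.** -/
theorem Scene.sat {K X τ B U : Type} {J : SimpleGraph V} {RB : B → X → X → Prop}
    {RU : U → X → Prop} {col : V → K} {q₀ : ℕ} {pt : X → V} {tag : X → τ}
    (sc : Scene J RB RU col q₀ pt tag) {g : ℕ} (hJ : UP J g) {k : ℕ} (φ : Fm B U k)
    (hφ : φ.IsFO) : ∀ (q : ℕ), q₀ + φ.rank ≤ q → Dq q + 1 ≤ g →
    ∀ (K' : Type) (col' : V → K'), Refines col' col → ∀ (θ : ℕ) (Γ : Finset (V × V × ℕ)),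
      InvL J col' θ q Γ → ∀ s s' : Fin k → X,
        (∀ i, (pt (s i), pt (s' i), 0) ∈ Γ ∧ tag (s i) = tag (s' i)) →
        (Sat RB RU φ s ↔ Sat RB RU φ s') := by
  -- the step for one quantifier
  have step : ∀ (k : ℕ) (ψ : Fm B U (k + 1)) (q : ℕ), q₀ + (ψ.rank + 1) ≤ q → Dq q + 1 ≤ g →
      (∀ (q : ℕ), q₀ + ψ.rank ≤ q → Dq q + 1 ≤ g →
        ∀ (K' : Type) (col' : V → K'), Refines col' col → ∀ (θ : ℕ) (Γ : Finset (V × V × ℕ)),
          InvL J col' θ q Γ → ∀ s s' : Fin (k + 1) → X,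
            (∀ i, (pt (s i), pt (s' i), 0) ∈ Γ ∧ tag (s i) = tag (s' i)) →
            (Sat RB RU ψ s ↔ Sat RB RU ψ s')) →
      ∀ (K' : Type) (col' : V → K'), Refines col' col → ∀ (θ : ℕ) (Γ : Finset (V × V × ℕ)),
        InvL J col' θ q Γ → ∀ s s' : Fin k → X,
          (∀ i, (pt (s i), pt (s' i), 0) ∈ Γ ∧ tag (s i) = tag (s' i)) →
          ∀ x, ∃ x', (Sat RB RU ψ (Fin.snoc s x) ↔ Sat RB RU ψ (Fin.snoc s' x')) := by
    intro k ψ q hq hg ih K' col' href θ Γ h s s' hs x
    obtain ⟨q, rfl⟩ : ∃ p, q = p + 1 := ⟨q - 1, by omega⟩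
    obtain ⟨Γ', h1, h2, t, ht, htx⟩ := h.forth hJ hg (pt x)
    have ht0 := h2.zero t ht
    obtain ⟨t1, t2, t3⟩ := t
    dsimp only at htx ht0
    subst htx
    subst ht0
    have hcol := h2.col_eq ht
    obtain ⟨x', hx', htag⟩ := sc.full x t2 (href _ _ hcol)
    subst hx'
    refine ⟨x', ih q (by omega) (by rw [Dq] at hg; omega) K' col' href θ Γ' h2 _ _ ?_⟩
    intro i
    refine Fin.lastCases ?_ (fun j => ?_) i
    · rw [Fin.snoc_last, Fin.snoc_last]
      exact ⟨ht, htag.symm⟩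
    · rw [Fin.snoc_castSucc, Fin.snoc_castSucc]
      exact ⟨h1 (hs j).1, (hs j).2⟩
  have hswap : ∀ (k : ℕ) (Γ : Finset (V × V × ℕ)) (s s' : Fin k → X),
      (∀ i, (pt (s i), pt (s' i), 0) ∈ Γ ∧ tag (s i) = tag (s' i)) →
      ∀ i, (pt (s' i), pt (s i), 0) ∈ Γ.image swp ∧ tag (s' i) = tag (s i) :=
    fun k Γ s s' hs i => ⟨mem_image.2 ⟨_, (hs i).1, rfl⟩, (hs i).2.symm⟩
  induction φ with
  | bin b i j =>
    intro q hq hg K' col' href θ Γ h s s' hs
    exact sc.bin b K' col' href θ Γ (h.mono (by omega)) _ _ _ _ (hs i).1 (hs j).1 (hs i).2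
      (hs j).2
  | eq i j =>
    intro q hq hg K' col' href θ Γ h s s' hs
    constructor
    · intro he
      change s i = s j at he
      have h1 := h.inv.inj1 _ (hs i).1 _ (hs j).1 (by rw [he])
      have h2 : pt (s' i) = pt (s' j) := congrArg (fun x => x.2.1) h1
      exact sc.inj _ _ h2 (by rw [← (hs i).2, ← (hs j).2, he])
    · intro he
      change s' i = s' j at he
      have h1 := h.inv.inj2 _ (hs i).1 _ (hs j).1 (by rw [he])
      have h2 : pt (s i) = pt (s j) := congrArg (fun x => x.1) h1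
      exact sc.inj _ _ h2 (by rw [(hs i).2, (hs j).2, he])
  | un u i =>
    intro q hq hg K' col' href θ Γ h s s' hs
    exact sc.un u _ _ (href _ _ (h.col_eq (hs i).1)) (hs i).2
  | neg φ ih =>
    intro q hq hg K' col' href θ Γ h s s' hs
    exact not_congr (ih hφ q hq hg K' col' href θ Γ h s s' hs)
  | and φ ψ ih1 ih2 =>
    intro q hq hg K' col' href θ Γ h s s' hs
    have hr : q₀ + φ.rank ≤ q ∧ q₀ + ψ.rank ≤ q := by
      rw [Fm.rank] at hq
      omega
    exact and_congr (ih1 hφ.1 q hr.1 hg K' col' href θ Γ h s s' hs)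
      (ih2 hφ.2 q hr.2 hg K' col' href θ Γ h s s' hs)
  | or φ ψ ih1 ih2 =>
    intro q hq hg K' col' href θ Γ h s s' hs
    have hr : q₀ + φ.rank ≤ q ∧ q₀ + ψ.rank ≤ q := by
      rw [Fm.rank] at hq
      omega
    exact or_congr (ih1 hφ.1 q hr.1 hg K' col' href θ Γ h s s' hs)
      (ih2 hφ.2 q hr.2 hg K' col' href θ Γ h s s' hs)
  | all φ ih =>
    intro q hq hg K' col' href θ Γ h s s' hs
    constructor
    · intro hall x'
      obtain ⟨x, hx⟩ := step _ φ q hq hg (ih hφ) K' col' href θ _ h.swap s' s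
        (hswap _ Γ s s' hs) x'
      exact hx.2 (hall x)
    · intro hall x
      obtain ⟨x', hx⟩ := step _ φ q hq hg (ih hφ) K' col' href θ Γ h s s' hs x
      exact hx.2 (hall x')
  | ex φ ih =>
    intro q hq hg K' col' href θ Γ h s s' hs
    constructor
    · rintro ⟨x, hx⟩
      obtain ⟨x', hx'⟩ := step _ φ q hq hg (ih hφ) K' col' href θ Γ h s s' hs x
      exact ⟨x', hx'.1 hx⟩
    · rintro ⟨x', hx'⟩
      obtain ⟨x, hx⟩ := step _ φ q hq hg (ih hφ) K' col' href θ _ h.swap s' s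
        (hswap _ Γ s s' hs) x'
      exact ⟨x, hx.1 hx'⟩
  | modq a b φ ih => exact hφ.elim

theorem QInv.mono {K X τ : Type} {J : SimpleGraph V} {col : V → K} {q q' : ℕ} {pt : X → V}
    {tag : X → τ} {R : X → X → Prop} (h : QInv J col q pt tag R) (hq : q ≤ q') :
    QInv J col q' pt tag R :=
  fun K' col' href θ Γ hΓ => h K' col' href θ Γ (hΓ.mono hq)

theorem QInv.refine {K K' X τ : Type} {J : SimpleGraph V} {col : V → K} {col' : V → K'} {q : ℕ}
    {pt : X → V} {tag : X → τ} {R : X → X → Prop} (h : QInv J col q pt tag R)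
    (hc : Refines col' col) : QInv J col' q pt tag R :=
  fun K'' col'' href θ Γ hΓ => h K'' col'' (fun v w hvw => hc v w (href v w hvw)) θ Γ hΓ

/-- The relation defined by a first-order formula is invariant. -/
theorem Scene.qinv {K X τ B U : Type} {J : SimpleGraph V} {RB : B → X → X → Prop}
    {RU : U → X → Prop} {col : V → K} {q₀ : ℕ} {pt : X → V} {tag : X → τ}
    (sc : Scene J RB RU col q₀ pt tag) {g q : ℕ} (hJ : UP J g) (φ : Fm B U 2) (hφ : φ.IsFO)
    (hq : q₀ + φ.rank ≤ q) (hg : Dq q + 1 ≤ g) :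
    QInv J col q pt tag (fun x y => Sat RB RU φ ![x, y]) := by
  intro K' col' href θ Γ h x y x' y' hx hy htx hty
  refine sc.sat hJ φ hφ q hq hg K' col' href θ Γ h _ _ ?_
  intro i
  fin_cases i
  · exact ⟨hx, htx⟩
  · exact ⟨hy, hty⟩

/-- `R` is represented over `J` with the colours `K`, the tags `τ` and the rank `q`. -/
def Rep {P L : Type} [Fintype P] [Fintype L] (J : SimpleGraph (P ⊕ L)) (K τ : Type) (q : ℕ)
    {X : Type} (R : X → X → Prop) : Prop :=
  ∃ (col : P ⊕ L → K) (pt : X → P) (tag : X → τ),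
    (∀ x x', pt x = pt x' → tag x = tag x' → x = x') ∧
    (∀ x v, col (Sum.inl (pt x)) = col v → ∃ x', Sum.inl (pt x') = v ∧ tag x' = tag x) ∧
    (∀ B B', col (Sum.inr B) = col (Sum.inr B')) ∧
    QInv J col q (fun x => Sum.inl (pt x)) tag R

/-- Representations are closed under first-order transductions with copying: `base y` is the element
of which `y` is a copy, `cp y` the name of the copy, `RB` are the relations on the copies, `c` the
colours, `W` the set of the remaining elements, and `R'` is determined by a first-order formula. -/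
theorem Rep.trans {P L : Type} [Fintype P] [Fintype L] {J : SimpleGraph (P ⊕ L)} {K τ : Type}
    {q₀ g q : ℕ} (hJ : UP J g) {X : Type} {R : X → X → Prop} (h : Rep J K τ q₀ R)
    {Y κ B U : Type} (base : Y → X) (cp : Y → κ)
    (hYinj : ∀ y y', base y = base y' → cp y = cp y' → y = y')
    (hYfull : ∀ y x', ∃ y', base y' = x' ∧ cp y' = cp y)
    (RB : B → Y → Y → Prop)
    (hRB : ∀ b x y x' y', cp x = cp x' → cp y = cp y' → (base x = base y ↔ base x' = base y') →
      (R (base x) (base y) ↔ R (base x') (base y')) → (RB b x y ↔ RB b x' y'))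
    (φ : Fm B U 2) (hφ : φ.IsFO) (hq : q₀ + φ.rank ≤ q) (hg : Dq q + 1 ≤ g)
    (c : U → Y → Prop) (W : Y → Prop)
    (R' : {y // W y} → {y // W y} → Prop)
    (hR' : ∀ x y x' y', (x = y ↔ x' = y') →
      (Sat RB c φ ![x.1, y.1] ↔ Sat RB c φ ![x'.1, y'.1]) →
      (Sat RB c φ ![y.1, x.1] ↔ Sat RB c φ ![y'.1, x'.1]) → (R' x y ↔ R' x' y')) :
    Rep J (K × Set (τ × κ × U) × Set (τ × κ)) (τ × κ) q R' := by
  obtain ⟨col, pt, tag, hinj, hfull, hB, hR⟩ := h
  -- equal points
  have heq : ∀ {K' : Type} {col' : P ⊕ L → K'} {θ q : ℕ}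
      {Γ : Finset ((P ⊕ L) × (P ⊕ L) × ℕ)}, InvL J col' θ q Γ → ∀ x y x' y' : X,
      (Sum.inl (pt x), Sum.inl (pt x'), 0) ∈ Γ → (Sum.inl (pt y), Sum.inl (pt y'), 0) ∈ Γ →
      tag x = tag x' → tag y = tag y' → (x = y ↔ x' = y') := by
    intro K' col' θ q Γ hΓ x y x' y' hx hy htx hty
    constructor
    · intro he
      have h1 := hΓ.inv.inj1 _ hx _ hy (by rw [he])
      have h2 := congrArg (fun x => x.2.1) h1
      exact hinj _ _ (Sum.inl_injective h2) (by rw [← htx, ← hty, he])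
    · intro he
      have h1 := hΓ.inv.inj2 _ hx _ hy (by rw [he])
      have h2 := congrArg (fun x => x.1) h1
      exact hinj _ _ (Sum.inl_injective h2) (by rw [htx, hty, he])
  set colA : P ⊕ L → K × Set (τ × κ × U) := fun v =>
    (col v, {t | ∃ y, Sum.inl (pt (base y)) = v ∧ tag (base y) = t.1 ∧ cp y = t.2.1 ∧ c t.2.2 y})
    with hcolA
  have sc : Scene J RB c colA q₀ (fun y => Sum.inl (pt (base y)))
      (fun y => (tag (base y), cp y)) := by
    refine ⟨?_, ?_, ?_, ?_⟩
    · intro x x' h1 h2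
      obtain ⟨h3, h4⟩ := Prod.ext_iff.1 h2
      exact hYinj _ _ (hinj _ _ (Sum.inl_injective h1) h3) h4
    · intro x v h1
      obtain ⟨x', h2, h3⟩ := hfull (base x) v (Prod.ext_iff.1 h1).1
      obtain ⟨y', h4, h5⟩ := hYfull x x'
      exact ⟨y', by rw [h4, h2], Prod.ext (by rw [h4, h3]) h5⟩
    · intro u x x' h1 h2
      obtain ⟨h3, h4⟩ := Prod.ext_iff.1 h2
      have h5 := (Prod.ext_iff.1 h1).2
      have key : ∀ y : Y, c u y ↔ (tag (base y), cp y, u) ∈
          (colA (Sum.inl (pt (base y)))).2 := by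
        intro y
        constructor
        · intro hy
          exact ⟨y, rfl, rfl, rfl, hy⟩
        · rintro ⟨z, hz1, hz2, hz3, hz4⟩
          have : z = y := hYinj _ _ (hinj _ _ (Sum.inl_injective hz1) hz2) hz3
          subst this
          exact hz4
      rw [key x, key x', h5]
      dsimp only at h3 h4
      rw [h3, h4]
    · intro b K' col' href θ Γ hΓ x y x' y' hx hy htx hty
      obtain ⟨h3, h4⟩ := Prod.ext_iff.1 htx
      obtain ⟨h5, h6⟩ := Prod.ext_iff.1 hty
      exact hRB b x y x' y' h4 h6 (heq hΓ _ _ _ _ hx hy h3 h5)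
        (hR K' col' (fun v w hvw => (Prod.ext_iff.1 (href v w hvw)).1) θ Γ hΓ _ _ _ _
          hx hy h3 h5)
  have hφq := sc.qinv hJ φ hφ hq hg
  refine ⟨fun v => (col v, (colA v).2, {t | ∃ y, W y ∧ Sum.inl (pt (base y)) = v ∧
    tag (base y) = t.1 ∧ cp y = t.2}), fun x => pt (base x.1), fun x => (tag (base x.1), cp x.1),
    ?_, ?_, ?_, ?_⟩
  · intro x x' h1 h2
    obtain ⟨h3, h4⟩ := Prod.ext_iff.1 h2
    exact Subtype.ext (hYinj _ _ (hinj _ _ h1 h3) h4)
  · intro x v h1
    have h2 := (Prod.ext_iff.1 (Prod.ext_iff.1 h1).2).2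
    dsimp only at h2
    have h3 : (tag (base x.1), cp x.1) ∈ {t : τ × κ | ∃ y, W y ∧
        Sum.inl (pt (base y)) = (Sum.inl (pt (base x.1)) : P ⊕ L) ∧ tag (base y) = t.1 ∧
        cp y = t.2} :=
      ⟨x.1, x.2, rfl, rfl, rfl⟩
    rw [h2] at h3
    obtain ⟨y, hy1, hy2, hy3, hy4⟩ := h3
    exact ⟨⟨y, hy1⟩, hy2, Prod.ext hy3 hy4⟩
  · intro B B'
    have key : ∀ B, (colA (Sum.inr B)).2 = ∅ := by
      intro B
      ext t
      simp only [Set.mem_empty_iff_false, iff_false]
      rintro ⟨x, hx, -⟩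
      exact absurd hx (by simp)
    have key2 : ∀ B : L, {t : τ × κ | ∃ y, W y ∧ Sum.inl (pt (base y)) = (Sum.inr B : P ⊕ L) ∧
        tag (base y) = t.1 ∧ cp y = t.2} = ∅ := by
      intro B
      ext t
      simp only [Set.mem_empty_iff_false, iff_false]
      rintro ⟨x, -, hx, -⟩
      exact absurd hx (by simp)
    dsimp only
    rw [key, key, key2, key2, hB B B']
  · have href : Refines (fun v => (col v, (colA v).2, {t : τ × κ | ∃ y, W y ∧
        Sum.inl (pt (base y)) = v ∧ tag (base y) = t.1 ∧ cp y = t.2})) colA := by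
      intro v w hvw
      exact Prod.ext (Prod.ext_iff.1 hvw).1 (Prod.ext_iff.1 (Prod.ext_iff.1 hvw).2).1
    intro K' col' href' θ Γ hΓ x y x' y' hx hy htx hty
    have hr : Refines col' colA := fun v w hvw => href v w (href' v w hvw)
    obtain ⟨h3, h4⟩ := Prod.ext_iff.1 htx
    obtain ⟨h5, h6⟩ := Prod.ext_iff.1 hty
    refine hR' _ _ _ _ ?_ (hφq K' col' hr θ Γ hΓ x.1 y.1 x'.1 y'.1 hx hy htx hty)
      (hφq K' col' hr θ Γ hΓ y.1 x.1 y'.1 x'.1 hy hx hty htx)
    have h7 := heq hΓ _ _ _ _ hx hy h3 h5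
    constructor
    · intro he
      refine Subtype.ext (hYinj _ _ (h7.1 (by rw [he])) ?_)
      dsimp only at h4 h6
      rw [← h4, ← h6, he]
    · intro he
      refine Subtype.ext (hYinj _ _ (h7.2 (by rw [he])) ?_)
      dsimp only at h4 h6
      rw [h4, h6, he]

/-- Change of the names of the colours and tags. -/
theorem Rep.rename {P L : Type} [Fintype P] [Fintype L] {J : SimpleGraph (P ⊕ L)}
    {K τ K' τ' : Type} {q q' : ℕ} {X : Type} {R : X → X → Prop} (h : Rep J K τ q R)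
    (e : K → K') (he : Function.Injective e) (f : τ → τ') (hf : Function.Injective f)
    (hq : q ≤ q') : Rep J K' τ' q' R := by
  obtain ⟨col, pt, tag, hinj, hfull, hB, hR⟩ := h
  refine ⟨fun v => e (col v), pt, fun x => f (tag x), fun x x' h1 h2 => hinj x x' h1 (hf h2),
    ?_, fun B B' => congrArg e (hB B B'), ?_⟩
  · intro x v h1
    obtain ⟨x', h2, h3⟩ := hfull x v (he h1)
    exact ⟨x', h2, congrArg f h3⟩
  · intro K' col' href θ Γ hΓ x y x' y' hx hy htx hty
    exact hR K' col' (fun v w hvw => he (href v w hvw)) θ Γ (hΓ.mono hq) x y x' y' hx hy (hf htx)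
      (hf hty)

/-- Representations of complexity `n`. -/
def RepN {P L : Type} [Fintype P] [Fintype L] (J : SimpleGraph (P ⊕ L)) (n : ℕ)
    {X : Type} (R : X → X → Prop) : Prop := Rep J (Fin n) (Fin n) n R

theorem Rep.repN {P L : Type} [Fintype P] [Fintype L] {J : SimpleGraph (P ⊕ L)}
    {K τ : Type} [Finite K] [Finite τ] {q n : ℕ} {X : Type} {R : X → X → Prop}
    (h : Rep J K τ q R) (hK : Nat.card K ≤ n) (hτ : Nat.card τ ≤ n) (hq : q ≤ n) :
    RepN J n R := by
  refine h.rename (fun k => Fin.castLE hK (Finite.equivFin K k)) ?_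
    (fun t => Fin.castLE hτ (Finite.equivFin τ t)) ?_ hq
  · exact (Fin.castLE_injective hK).comp (Finite.equivFin K).injective
  · exact (Fin.castLE_injective hτ).comp (Finite.equivFin τ).injective

theorem RepN.mono {P L : Type} [Fintype P] [Fintype L] {J : SimpleGraph (P ⊕ L)}
    {n n' : ℕ} {X : Type} {R : X → X → Prop} (h : RepN J n R) (hn : n ≤ n') : RepN J n' R :=
  Rep.repN h (by simpa using hn) (by simpa using hn) hn

/-- Representations are transported by isomorphisms. -/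
theorem Rep.equiv {P L : Type} [Fintype P] [Fintype L] {J : SimpleGraph (P ⊕ L)}
    {K τ : Type} {q : ℕ} {X X' : Type} {R : X → X → Prop} {R' : X' → X' → Prop}
    (h : Rep J K τ q R) (e : X' ≃ X) (he : ∀ x y, R' x y ↔ R (e x) (e y)) : Rep J K τ q R' := by
  obtain ⟨col, pt, tag, hinj, hfull, hB, hR⟩ := h
  refine ⟨col, fun x => pt (e x), fun x => tag (e x), fun x x' h1 h2 =>
    e.injective (hinj _ _ h1 h2), ?_, hB, ?_⟩
  · intro x v h1
    obtain ⟨x', h2, h3⟩ := hfull (e x) v h1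
    exact ⟨e.symm x', by simpa using h2, by simpa using h3⟩
  · intro K' col' href θ Γ hΓ x y x' y' hx hy htx hty
    rw [he, he]
    exact hR K' col' href θ Γ hΓ _ _ _ _ hx hy htx hty

end Q229.TR
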