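import Mathlib

set_option autoImplicit false

/-!
# Locally tree-like graphs: types, partial isomorphisms, back and forth
-/

namespace Q229.TR

open SimpleGraph Finset
open scoped Classical

variable {V : Type}

/-- Short paths are unique: two paths with the same ends and total length at most `g` are equal. -/
def UP (J : SimpleGraph V) (g : ℕ) : Prop :=
  ∀ (u v : V) (p q : J.Walk u v), p.IsPath → q.IsPath → p.length + q.length ≤ g → p = q

theorem UP.mono {J : SimpleGraph V} {g h : ℕ} (hJ : UP J g) (hgh : h ≤ g) : UP J h :=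
  fun u v p q hp hq hl => hJ u v p q hp hq (hl.trans hgh)

/-- There is a walk of length at most `d` from `u` to `v`. -/
def Near (J : SimpleGraph V) (d : ℕ) (u v : V) : Prop := ∃ p : J.Walk u v, p.length ≤ d

theorem Near.symm {J : SimpleGraph V} {d : ℕ} {u v : V} (h : Near J d u v) : Near J d v u := by
  obtain ⟨p, hp⟩ := h
  exact ⟨p.reverse, by simpa using hp⟩

theorem Near.trans {J : SimpleGraph V} {d e : ℕ} {u v w : V} (h : Near J d u v)
    (h' : Near J e v w) : Near J (d + e) u w := by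
  obtain ⟨p, hp⟩ := h
  obtain ⟨q, hq⟩ := h'
  exact ⟨p.append q, by rw [Walk.length_append]; omega⟩

theorem Near.mono {J : SimpleGraph V} {d e : ℕ} {u v : V} (h : Near J d u v) (hde : d ≤ e) :
    Near J e u v := by
  obtain ⟨p, hp⟩ := h
  exact ⟨p, hp.trans hde⟩

theorem Near.refl (J : SimpleGraph V) (d : ℕ) (u : V) : Near J d u u := ⟨Walk.nil, by simp⟩

theorem Near.of_adj {J : SimpleGraph V} {d : ℕ} (hd : 1 ≤ d) {u v : V} (h : J.Adj u v) :
    Near J d u v := ⟨Walk.cons h Walk.nil, by simpa using hd⟩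

theorem Near.exists_path {J : SimpleGraph V} {d : ℕ} {u v : V} (h : Near J d u v) :
    ∃ p : J.Walk u v, p.IsPath ∧ p.length ≤ d := by
  obtain ⟨p, hp⟩ := h
  exact ⟨p.bypass, p.bypass_isPath, (p.length_bypass_le_length).trans hp⟩

/-! ### Types -/

/-- The types of level `i`. -/
def Ty (K : Type) (θ : ℕ) : ℕ → Type
  | 0 => K
  | (i + 1) => Ty K θ i × (Ty K θ i → Fin (θ + 1))

instance Ty.finite (K : Type) [Finite K] (θ : ℕ) : ∀ i, Finite (Ty K θ i)
  | 0 => (inferInstance : Finite K)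
  | (i + 1) => by
      have := Ty.finite K θ i
      exact (inferInstance : Finite (Ty K θ i × (Ty K θ i → Fin (θ + 1))))

variable [Fintype V] {K : Type}

/-- The number of the neighbours of `v` with the value `t` of `f`. -/
noncomputable def cnt {T : Type} (J : SimpleGraph V) (f : V → T) (v : V) (t : T) : ℕ :=
  (univ.filter fun w => J.Adj v w ∧ f w = t).card

/-- The type of level `i` of a vertex: the colour, and for each type of the previous level the number
of the neighbours with this type, counted up to `θ`. -/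
noncomputable def lam (J : SimpleGraph V) (col : V → K) (θ : ℕ) : (i : ℕ) → V → Ty K θ i
  | 0 => col
  | (i + 1) => fun v => (lam J col θ i v,
      fun t => ⟨min (cnt J (lam J col θ i) v t) θ, by omega⟩)

theorem lam_fst {V' : Type} [Fintype V'] {J : SimpleGraph V} {J' : SimpleGraph V'} {col : V → K}
    {col' : V' → K} {θ i : ℕ} {v : V} {w : V'}
    (h : lam J col θ (i + 1) v = lam J' col' θ (i + 1) w) :
    lam J col θ i v = lam J' col' θ i w := (Prod.ext_iff.1 h).1

theorem lam_le {V' : Type} [Fintype V'] {J : SimpleGraph V} {J' : SimpleGraph V'} {col : V → K}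
    {col' : V' → K} {θ : ℕ} {i j : ℕ} (hij : i ≤ j) {v : V} {w : V'}
    (h : lam J col θ j v = lam J' col' θ j w) :
    lam J col θ i v = lam J' col' θ i w := by
  induction j, hij using Nat.le_induction with
  | base => exact h
  | succ j _ ih => exact ih (lam_fst h)

theorem lam_cnt {J : SimpleGraph V} {col : V → K} {θ i : ℕ} {v w : V}
    (h : lam J col θ (i + 1) v = lam J col θ (i + 1) w) (t : Ty K θ i) :
    min (cnt J (lam J col θ i) v t) θ = min (cnt J (lam J col θ i) w t) θ := by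
  have h1 := congrFun (Prod.ext_iff.1 h).2 t
  have h2 := congrArg Fin.val h1
  exact h2

/-! ### Closed sets -/

omit [Fintype V] in
/-- `A` is closed under short paths. -/
def Cl (J : SimpleGraph V) (D : ℕ) (A : Finset (V × ℕ)) : Prop :=
  ∀ x ∈ A, ∀ y ∈ A, ∀ p : J.Walk x.1 y.1, p.IsPath → p.length + x.2 + y.2 ≤ D →
    ∀ z ∈ p.support, ∃ t ∈ A, t.1 = z

omit [Fintype V] in
theorem Cl.aux {J : SimpleGraph V} {D g : ℕ} {A : Finset (V × ℕ)} (hA : Cl J D A)
    (hJ : UP J g) (hg : D + 1 ≤ g) {x : V × ℕ} (hx : x ∈ A) {w : V} (hw : ∀ t ∈ A, t.1 ≠ w)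
    (hadj : J.Adj x.1 w) {y : V × ℕ} (hy : y ∈ A) (p : J.Walk w y.1) (hp : p.IsPath)
    (hl : p.length + (x.2 + 1) + y.2 ≤ D) : ∀ z ∈ p.support, z = w ∨ ∃ t ∈ A, t.1 = z := by
  intro z hz
  by_cases hxp : x.1 ∈ p.support
  · have hp1 : (p.takeUntil x.1 hxp).IsPath := hp.takeUntil hxp
    have hp2 : (p.dropUntil x.1 hxp).IsPath := hp.dropUntil hxp
    have hlen : (p.takeUntil x.1 hxp).length + (p.dropUntil x.1 hxp).length = p.length := by
      have h := congrArg Walk.length (p.take_spec hxp)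
      rwa [Walk.length_append] at h
    have he : p.takeUntil x.1 hxp = Walk.cons hadj.symm Walk.nil := by
      apply hJ _ _ _ _ hp1
      · rw [Walk.cons_isPath_iff]
        exact ⟨Walk.IsPath.nil, by simpa using hadj.ne.symm⟩
      · simp only [Walk.length_cons, Walk.length_nil]
        omega
    rw [← p.take_spec hxp, Walk.mem_support_append_iff] at hz
    rcases hz with hz | hz
    · rw [he] at hz
      simp only [Walk.support_cons, Walk.support_nil, List.mem_cons, List.not_mem_nil,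
        or_false] at hz
      rcases hz with hz | hz
      · exact Or.inl hz
      · exact Or.inr ⟨x, hx, hz.symm⟩
    · right
      have hl1 : (p.takeUntil x.1 hxp).length = 1 := by rw [he]; rfl
      exact hA x hx y hy _ hp2 (by omega) z hz
  · exfalso
    have hq : (Walk.cons hadj p).IsPath := by
      rw [Walk.cons_isPath_iff]
      exact ⟨hp, hxp⟩
    obtain ⟨t, ht, htw⟩ := hA x hx y hy (Walk.cons hadj p) hq
      (by rw [Walk.length_cons]; omega) w (by simp)
    exact hw t ht htw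

omit [Fintype V] in
theorem Cl.ins {J : SimpleGraph V} {D g : ℕ} {A : Finset (V × ℕ)} (hA : Cl J D A)
    (hJ : UP J g) (hg : D + 1 ≤ g) {x : V × ℕ} (hx : x ∈ A) {w : V} (hw : ∀ t ∈ A, t.1 ≠ w)
    (hadj : J.Adj x.1 w) : Cl J D (insert (w, x.2 + 1) A) := by
  intro a ha b hb p hp hl z hz
  rw [mem_insert] at ha hb
  have key : ∀ y ∈ A, ∀ q : J.Walk w y.1, q.IsPath → q.length + (x.2 + 1) + y.2 ≤ D →
      ∀ z ∈ q.support, ∃ t ∈ insert (w, x.2 + 1) A, t.1 = z := by
    intro y hy q hq hl z hz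
    rcases hA.aux hJ hg hx hw hadj hy q hq hl z hz with h | ⟨t, ht, h⟩
    · exact ⟨(w, x.2 + 1), mem_insert_self _ _, h.symm⟩
    · exact ⟨t, mem_insert_of_mem ht, h⟩
  rcases ha with ha | ha <;> rcases hb with hb | hb
  · subst ha
    subst hb
    have : p = Walk.nil := Walk.eq_nil_iff_nil.2 (Walk.isPath_iff_nil.1 hp)
    subst this
    simp only [Walk.support_nil, List.mem_singleton] at hz
    exact ⟨(w, x.2 + 1), mem_insert_self _ _, hz.symm⟩
  · subst ha
    exact key b hb p hp hl z hz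
  · subst hb
    refine key a ha p.reverse hp.reverse (by rw [Walk.length_reverse]; dsimp only at hl; omega) z
      (by simpa using hz)
  · obtain ⟨t, ht, h⟩ := hA a ha b hb p hp hl z hz
    exact ⟨t, mem_insert_of_mem ht, h⟩

omit [Fintype V] in
theorem Cl.mono {J : SimpleGraph V} {D D' : ℕ} {A : Finset (V × ℕ)} (hA : Cl J D A)
    (h : D' ≤ D) : Cl J D' A :=
  fun x hx y hy p hp hl => hA x hx y hy p hp (hl.trans h)

/-! ### Partial isomorphisms -/

/-- `Γ` is the graph of a partial isomorphism; the third entry is the depth of a pair. -/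
structure Inv (J : SimpleGraph V) (col : V → K) (θ : ℕ) (D r : ℕ) (Γ : Finset (V × V × ℕ)) :
    Prop where
  inj1 : ∀ x ∈ Γ, ∀ y ∈ Γ, x.1 = y.1 → x = y
  inj2 : ∀ x ∈ Γ, ∀ y ∈ Γ, x.2.1 = y.2.1 → x = y
  adj : ∀ x ∈ Γ, ∀ y ∈ Γ, J.Adj x.1 y.1 ↔ J.Adj x.2.1 y.2.1
  lev : ∀ x ∈ Γ, lam J col θ (r - x.2.2) x.1 = lam J col θ (r - x.2.2) x.2.1
  dep : ∀ x ∈ Γ, ∀ y ∈ Γ, J.Adj x.1 y.1 → y.2.2 ≤ x.2.2 + 1
  c1 : Cl J D (Γ.image fun x => (x.1, x.2.2))
  c2 : Cl J D (Γ.image fun x => (x.2.1, x.2.2))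

/-- The inverse partial isomorphism. -/
def swp (x : V × V × ℕ) : V × V × ℕ := (x.2.1, x.1, x.2.2)

omit [Fintype V] in
theorem swp_swp (x : V × V × ℕ) : swp (swp x) = x := rfl

omit [Fintype V] in
theorem swp_inj : Function.Injective (swp : V × V × ℕ → V × V × ℕ) := by
  intro x y h
  rw [← swp_swp x, h, swp_swp]

variable {J : SimpleGraph V} {col : V → K} {θ : ℕ}

theorem Inv.swap {D r : ℕ} {Γ : Finset (V × V × ℕ)} (h : Inv J col θ D r Γ) :
    Inv J col θ D r (Γ.image swp) := by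
  refine ⟨?_, ?_, ?_, ?_, ?_, ?_, ?_⟩
  · intro x hx y hy he
    obtain ⟨a, ha, rfl⟩ := mem_image.1 hx
    obtain ⟨b, hb, rfl⟩ := mem_image.1 hy
    rw [h.inj2 a ha b hb he]
  · intro x hx y hy he
    obtain ⟨a, ha, rfl⟩ := mem_image.1 hx
    obtain ⟨b, hb, rfl⟩ := mem_image.1 hy
    rw [h.inj1 a ha b hb he]
  · intro x hx y hy
    obtain ⟨a, ha, rfl⟩ := mem_image.1 hx
    obtain ⟨b, hb, rfl⟩ := mem_image.1 hy
    exact (h.adj a ha b hb).symm
  · intro x hx
    obtain ⟨a, ha, rfl⟩ := mem_image.1 hx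
    exact (h.lev a ha).symm
  · intro x hx y hy hxy
    obtain ⟨a, ha, rfl⟩ := mem_image.1 hx
    obtain ⟨b, hb, rfl⟩ := mem_image.1 hy
    exact h.dep a ha b hb ((h.adj a ha b hb).2 hxy)
  · rw [image_image]
    exact h.c2
  · rw [image_image]
    exact h.c1

theorem Inv.mono {D D' r r' : ℕ} {Γ : Finset (V × V × ℕ)} (h : Inv J col θ D r Γ)
    (hD : D' ≤ D) (hr : r' ≤ r) : Inv J col θ D' r' Γ :=
  ⟨h.inj1, h.inj2, h.adj, fun x hx => lam_le (by omega) (h.lev x hx), h.dep, h.c1.mono hD,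
    h.c2.mono hD⟩

/-- Insertion of an adjacent pair. -/
theorem Inv.ins {D r g : ℕ} {Γ : Finset (V × V × ℕ)} (h : Inv J col θ D r Γ)
    (hJ : UP J g) (hg : D + 1 ≤ g) {x : V × V × ℕ} (hx : x ∈ Γ)
    (hD : ∀ y ∈ Γ, x.2.2 + y.2.2 + 2 ≤ D) {w w' : V}
    (hw : ∀ y ∈ Γ, y.1 ≠ w) (hw' : ∀ y ∈ Γ, y.2.1 ≠ w')
    (hadj : J.Adj x.1 w) (hadj' : J.Adj x.2.1 w')
    (hl : lam J col θ (r - (x.2.2 + 1)) w = lam J col θ (r - (x.2.2 + 1)) w') :
    Inv J col θ D r (insert (w, w', x.2.2 + 1) Γ) := by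
  -- the only neighbour
  have hn : ∀ y ∈ Γ, J.Adj w y.1 → y = x := by
    intro y hy hwy
    by_contra hne
    have hne1 : x.1 ≠ y.1 := fun he => hne (h.inj1 x hx y hy he).symm
    have hp : (Walk.cons hadj (Walk.cons hwy Walk.nil)).IsPath := by
      rw [Walk.cons_isPath_iff, Walk.cons_isPath_iff]
      refine ⟨⟨Walk.IsPath.nil, by simpa using hwy.ne⟩, ?_⟩
      simp only [Walk.support_cons, Walk.support_nil, List.mem_cons, List.not_mem_nil,
        or_false, not_or]
      exact ⟨hadj.ne, hne1⟩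
    obtain ⟨t, ht, htw⟩ := h.c1 (x.1, x.2.2) (mem_image_of_mem _ hx) (y.1, y.2.2)
      (mem_image_of_mem _ hy) (Walk.cons hadj (Walk.cons hwy Walk.nil)) hp
      (by simp only [Walk.length_cons, Walk.length_nil]; have := hD y hy; omega) w (by simp)
    obtain ⟨s, hs, rfl⟩ := mem_image.1 ht
    exact hw s hs htw
  have hn' : ∀ y ∈ Γ, J.Adj w' y.2.1 → y = x := by
    intro y hy hwy
    by_contra hne
    have hne1 : x.2.1 ≠ y.2.1 := fun he => hne (h.inj2 x hx y hy he).symm
    have hp : (Walk.cons hadj' (Walk.cons hwy Walk.nil)).IsPath := by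
      rw [Walk.cons_isPath_iff, Walk.cons_isPath_iff]
      refine ⟨⟨Walk.IsPath.nil, by simpa using hwy.ne⟩, ?_⟩
      simp only [Walk.support_cons, Walk.support_nil, List.mem_cons, List.not_mem_nil,
        or_false, not_or]
      exact ⟨hadj'.ne, hne1⟩
    obtain ⟨t, ht, htw⟩ := h.c2 (x.2.1, x.2.2) (mem_image_of_mem _ hx) (y.2.1, y.2.2)
      (mem_image_of_mem _ hy) (Walk.cons hadj' (Walk.cons hwy Walk.nil)) hp
      (by simp only [Walk.length_cons, Walk.length_nil]; have := hD y hy; omega) w' (by simp)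
    obtain ⟨s, hs, rfl⟩ := mem_image.1 ht
    exact hw' s hs htw
  refine ⟨?_, ?_, ?_, ?_, ?_, ?_, ?_⟩
  · intro a ha b hb he
    rw [mem_insert] at ha hb
    rcases ha with rfl | ha <;> rcases hb with rfl | hb
    · rfl
    · exact absurd he.symm (hw b hb)
    · exact absurd he (hw a ha)
    · exact h.inj1 a ha b hb he
  · intro a ha b hb he
    rw [mem_insert] at ha hb
    rcases ha with rfl | ha <;> rcases hb with rfl | hb
    · rfl
    · exact absurd he.symm (hw' b hb)
    · exact absurd he (hw' a ha)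
    · exact h.inj2 a ha b hb he
  · intro a ha b hb
    rw [mem_insert] at ha hb
    rcases ha with rfl | ha <;> rcases hb with rfl | hb
    · simp
    · exact ⟨fun h1 => by rw [hn b hb h1]; exact hadj'.symm,
        fun h1 => by rw [hn' b hb h1]; exact hadj.symm⟩
    · exact ⟨fun h1 => by rw [hn a ha h1.symm]; exact hadj',
        fun h1 => by rw [hn' a ha h1.symm]; exact hadj⟩
    · exact h.adj a ha b hb
  · intro a ha
    rw [mem_insert] at ha
    rcases ha with rfl | ha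
    · exact hl
    · exact h.lev a ha
  · intro a ha b hb hab
    rw [mem_insert] at ha hb
    rcases ha with rfl | ha <;> rcases hb with rfl | hb
    · simp
    · rw [hn b hb hab]
      dsimp only
      omega
    · rw [hn a ha hab.symm]
    · exact h.dep a ha b hb hab
  · rw [image_insert]
    refine h.c1.ins hJ hg (x := (x.1, x.2.2)) (mem_image_of_mem _ hx) ?_ hadj
    intro t ht
    obtain ⟨s, hs, rfl⟩ := mem_image.1 ht
    exact hw s hs
  · rw [image_insert]
    refine h.c2.ins hJ hg (x := (x.2.1, x.2.2)) (mem_image_of_mem _ hx) ?_ hadj'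
    intro t ht
    obtain ⟨s, hs, rfl⟩ := mem_image.1 ht
    exact hw' s hs

/-- A partner for a neighbour of a vertex of the domain. -/
theorem Inv.exists_partner {D r : ℕ} {Γ : Finset (V × V × ℕ)} (h : Inv J col θ D r Γ)
    (hθ : Γ.card < θ) {x : V × V × ℕ} (hx : x ∈ Γ) (hr : x.2.2 < r) {w : V}
    (hw : ∀ y ∈ Γ, y.1 ≠ w) (hadj : J.Adj x.1 w) :
    ∃ w', (∀ y ∈ Γ, y.2.1 ≠ w') ∧ J.Adj x.2.1 w' ∧
      lam J col θ (r - (x.2.2 + 1)) w = lam J col θ (r - (x.2.2 + 1)) w' := by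
  set i := r - (x.2.2 + 1) with hi
  have hri : r - x.2.2 = i + 1 := by omega
  have hlev := h.lev x hx
  rw [hri] at hlev
  have hc := lam_cnt hlev (lam J col θ i w)
  -- the neighbours of the same type in the domain
  set M := Γ.filter fun y => J.Adj x.1 y.1 ∧ lam J col θ i y.1 = lam J col θ i w with hM
  have hMl : ∀ y ∈ M, lam J col θ i y.2.1 = lam J col θ i w := by
    intro y hy
    rw [hM, mem_filter] at hy
    rw [← hy.2.2]
    refine (lam_le ?_ (h.lev y hy.1)).symm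
    have := h.dep x hx y hy.1 hy.2.1
    omega
  have hMθ : M.card + 1 ≤ θ := (Nat.add_le_add_right (card_le_card (filter_subset _ _)) 1).trans hθ
  have h1 : M.card + 1 ≤ cnt J (lam J col θ i) x.1 (lam J col θ i w) := by
    have h2 : (insert w (M.image fun y => y.1)).card = M.card + 1 := by
      rw [card_insert_of_notMem, card_image_of_injOn]
      · intro a ha b hb hab
        exact h.inj1 a (mem_of_mem_filter a ha) b (mem_of_mem_filter b hb) hab
      · intro hmem
        obtain ⟨y, hy, hyw⟩ := mem_image.1 hmem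
        exact hw y (mem_of_mem_filter y hy) hyw
    rw [← h2]
    apply card_le_card
    intro a ha
    rw [mem_filter]
    rw [mem_insert] at ha
    rcases ha with rfl | ha
    · exact ⟨mem_univ _, hadj, rfl⟩
    · obtain ⟨y, hy, rfl⟩ := mem_image.1 ha
      rw [hM, mem_filter] at hy
      exact ⟨mem_univ _, hy.2.1, hy.2.2⟩
  have h3 : M.card + 1 ≤ cnt J (lam J col θ i) x.2.1 (lam J col θ i w) := by omega
  have h4 : (M.image fun y => y.2.1).card <
      (univ.filter fun a => J.Adj x.2.1 a ∧ lam J col θ i a = lam J col θ i w).card :=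
    lt_of_le_of_lt card_image_le (Nat.lt_of_succ_le h3)
  obtain ⟨w', hw1, hw2⟩ := exists_mem_notMem_of_card_lt_card h4
  rw [mem_filter] at hw1
  refine ⟨w', fun y hy hyw => hw2 ?_, hw1.2.1, hw1.2.2.symm⟩
  refine mem_image.2 ⟨y, ?_, hyw⟩
  rw [hM, mem_filter]
  have hadj2 : J.Adj x.1 y.1 := (h.adj x hx y hy).2 (by rw [hyw]; exact hw1.2.1)
  refine ⟨hy, hadj2, ?_⟩
  rw [← hw1.2.2, ← hyw]
  refine lam_le ?_ (h.lev y hy)
  have := h.dep x hx y hy hadj2
  omega

/-- Extension along a walk. -/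
theorem Inv.branch {D r g ρ : ℕ} (hJ : UP J g) (hg : D + 1 ≤ g) (hD : 2 * ρ + 2 ≤ D)
    (hr : ρ ≤ r) {u z : V} (p : J.Walk u z) :
    ∀ (Γ : Finset (V × V × ℕ)), Inv J col θ D r Γ → (∀ y ∈ Γ, y.2.2 ≤ ρ) →
      Γ.card + p.length ≤ θ → ∀ x ∈ Γ, x.1 = u → x.2.2 + p.length ≤ ρ →
      ∃ Γ', Γ ⊆ Γ' ∧ Inv J col θ D r Γ' ∧ (∀ y ∈ Γ', y.2.2 ≤ ρ) ∧
        Γ'.card ≤ Γ.card + p.length ∧ ∃ t ∈ Γ', t.1 = z ∧ Near J p.length x.2.1 t.2.1 := by
  induction p with
  | nil =>
    intro Γ h hΓ _ x hx hxu _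
    exact ⟨Γ, Subset.rfl, h, hΓ, by simp, x, hx, hxu, Near.refl J _ _⟩
  | @cons u w z hadj q ih =>
    intro Γ h hΓ hθ x hx hxu hxρ
    rw [Walk.length_cons] at hxρ hθ
    rw [← hxu] at hadj
    by_cases hw : ∃ y ∈ Γ, y.1 = w
    · obtain ⟨y, hy, hyw⟩ := hw
      have hdep := h.dep x hx y hy (by rw [hyw]; exact hadj)
      obtain ⟨Γ', h1, h2, h3, h4, t, ht, htz, hnear⟩ := ih Γ h hΓ (by omega) y hy hyw (by omega)
      refine ⟨Γ', h1, h2, h3, by rw [Walk.length_cons]; omega, t, ht, htz, ?_⟩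
      have := (Near.of_adj le_rfl ((h.adj x hx y hy).1 (by rw [hyw]; exact hadj))).trans hnear
      rw [Walk.length_cons]
      exact this.mono (by omega)
    · push Not at hw
      obtain ⟨w', hw', hadj', hl⟩ := h.exists_partner (by omega) hx (by omega) hw hadj
      have hins := h.ins hJ hg hx (fun y hy => by have := hΓ y hy; omega) hw hw' hadj hadj' hl
      obtain ⟨Γ', h1, h2, h3, h4, t, ht, htz, hnear⟩ := ih _ hins (by
        intro y hy
        rw [mem_insert] at hy
        rcases hy with rfl | hy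
        · dsimp only
          omega
        · exact hΓ y hy) ((Nat.add_le_add_right (card_insert_le _ _) _).trans (by omega))
        (w, w', x.2.2 + 1) (mem_insert_self _ _) rfl (by dsimp only; omega)
      have hc := card_insert_le (w, w', x.2.2 + 1) Γ
      refine ⟨Γ', (subset_insert _ _).trans h1, h2, h3, by rw [Walk.length_cons]; omega, t, ht,
        htz, ?_⟩
      have := (Near.of_adj le_rfl hadj').trans hnear
      rw [Walk.length_cons]
      exact this.mono (by omega)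

/-- Extension along several walks. -/
theorem Inv.branches {D r g ρ : ℕ} (hJ : UP J g) (hg : D + 1 ≤ g) (hD : 2 * ρ + 2 ≤ D)
    (hr : ρ ≤ r) {Γ : Finset (V × V × ℕ)} (h : Inv J col θ D r Γ) (h0 : ∀ y ∈ Γ, y.2.2 = 0)
    (S : Finset V) :
    Γ.card + S.card * ρ ≤ θ → (∀ s ∈ S, ∃ x ∈ Γ, Near J ρ x.1 s) →
      ∃ Γ', Γ ⊆ Γ' ∧ Inv J col θ D r Γ' ∧ (∀ y ∈ Γ', y.2.2 ≤ ρ) ∧
        Γ'.card ≤ Γ.card + S.card * ρ ∧
        ∀ s ∈ S, ∃ t ∈ Γ', t.1 = s ∧ ∃ x ∈ Γ, Near J ρ x.2.1 t.2.1 := by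
  induction S using Finset.induction_on with
  | empty =>
    intro _ _
    exact ⟨Γ, Subset.rfl, h, fun y hy => by rw [h0 y hy]; omega, by simp, by simp⟩
  | insert a S ha ih =>
    intro hθ hS
    rw [card_insert_of_notMem ha] at hθ
    have hθ1 : Γ.card + S.card * ρ + ρ ≤ θ := by
      have : (S.card + 1) * ρ = S.card * ρ + ρ := by ring
      omega
    obtain ⟨Γ₁, h1, h2, h3, h4, h5⟩ := ih (by omega) fun s hs => hS s (mem_insert_of_mem hs)
    obtain ⟨x, hx, q, hq⟩ := hS a (mem_insert_self _ _)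
    obtain ⟨Γ₂, g1, g2, g3, g4, t, ht, hta, hnear⟩ := Inv.branch hJ hg hD hr q Γ₁ h2 h3 (by omega)
      x (h1 hx) rfl (by rw [h0 x hx]; omega)
    refine ⟨Γ₂, h1.trans g1, g2, g3, ?_, ?_⟩
    · rw [card_insert_of_notMem ha]
      have : (S.card + 1) * ρ = S.card * ρ + ρ := by ring
      omega
    · intro s hs
      rw [mem_insert] at hs
      rcases hs with rfl | hs
      · exact ⟨t, ht, hta, x, hx, hnear.mono hq⟩
      · obtain ⟨t, ht, hts, x, hx, hn⟩ := h5 s hs
        exact ⟨t, g1 ht, hts, x, hx, hn⟩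

/-- Walks inside the range are mapped back. -/
theorem Inv.pull {D r : ℕ} {Γ : Finset (V × V × ℕ)} (h : Inv J col θ D r Γ) {a b : V}
    (p : J.Walk a b) : (∀ z ∈ p.support, ∃ t ∈ Γ, t.2.1 = z) →
      ∀ t ∈ Γ, t.2.1 = a → ∀ u ∈ Γ, u.2.1 = b → Near J p.length t.1 u.1 := by
  induction p with
  | nil =>
    intro _ t ht hta u hu hub
    rw [h.inj2 t ht u hu (by rw [hta, hub])]
    exact Near.refl J _ _
  | @cons a c b hadj q ih =>
    intro hs t ht hta u hu hub
    obtain ⟨y, hy, hyc⟩ := hs c (by simp)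
    have h1 := ih (fun z hz => hs z (by rw [Walk.support_cons]; exact List.mem_cons_of_mem _ hz))
      y hy hyc u hu hub
    have h2 : J.Adj t.1 y.1 := (h.adj t ht y hy).2 (by rw [hta, hyc]; exact hadj)
    have := (Near.of_adj (le_refl 1) h2).trans h1
    rw [Walk.length_cons]
    exact this.mono (by omega)

/-- A partner for a vertex far away from the domain. -/
theorem Inv.far {D r r' g ρ : ℕ} {Γ : Finset (V × V × ℕ)} (h : Inv J col θ D r Γ)
    (h0 : ∀ y ∈ Γ, y.2.2 = 0) (hJ : UP J g) (hg : D + 1 ≤ g) (hD : 4 * ρ + 2 ≤ D)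
    (hr : r' + ρ ≤ r) (hθ : Γ.card + Γ.card * ρ ≤ θ) {z : V}
    (hz : ∀ x ∈ Γ, ¬ Near J (3 * ρ) x.1 z) :
    ∃ z', lam J col θ r' z = lam J col θ r' z' ∧ ∀ x ∈ Γ, ¬ Near J ρ x.2.1 z' := by
  by_contra hcon
  push Not at hcon
  set 𝒮 : Finset (Finset V) := univ.filter fun S =>
    (∀ s ∈ S, lam J col θ r' z = lam J col θ r' s) ∧
      ∀ s ∈ S, ∀ t ∈ S, s ≠ t → ¬ Near J (2 * ρ) s t with h𝒮
  have hne : 𝒮.Nonempty := ⟨∅, by simp [h𝒮]⟩
  obtain ⟨S, hS, hmax⟩ := exists_max_image 𝒮 card hne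
  rw [h𝒮, mem_filter] at hS
  obtain ⟨-, hS1, hS2⟩ := hS
  -- the size of `S`
  have hSΓ : S.card ≤ Γ.card := by
    choose! f hf using fun s (hs : s ∈ S) => hcon s (hS1 s hs)
    refine card_le_card_of_injOn f (fun s hs => (hf s hs).1) ?_
    intro s hs t ht hst
    by_contra hne
    refine hS2 s hs t ht hne ?_
    have h1 := (hf s hs).2
    have h2 := (hf t ht).2
    rw [hst] at h1
    exact (h1.symm.trans h2).mono (by omega)
  have hsw := h.swap
  have hcard : (Γ.image swp).card = Γ.card := card_image_of_injective _ swp_inj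
  obtain ⟨Γ', h1, h2, h3, -, h5⟩ := Inv.branches (ρ := ρ) hJ hg (by omega) (by omega) hsw
    (by
      intro y hy
      obtain ⟨x, hx, rfl⟩ := mem_image.1 hy
      exact h0 x hx) S
    (by
      rw [hcard]
      exact (Nat.add_le_add_left (Nat.mul_le_mul_right _ hSΓ) _).trans hθ)
    (by
      intro s hs
      obtain ⟨x, hx, hn⟩ := hcon s (hS1 s hs)
      exact ⟨swp x, mem_image_of_mem _ hx, hn⟩)
  choose! f hf using h5
  have hlev : ∀ s ∈ S, lam J col θ r' z = lam J col θ r' (f s).2.1 := by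
    intro s hs
    obtain ⟨g1, g2, -⟩ := hf s hs
    refine (hS1 s hs).trans ?_
    have h6 := h3 _ g1
    have h7 := lam_le (i := r') (by omega) (h2.lev _ g1)
    rwa [g2] at h7
  -- the partners are far apart
  have hapart : ∀ s ∈ S, ∀ t ∈ S, s ≠ t → ¬ Near J (2 * ρ) (f s).2.1 (f t).2.1 := by
    intro s hs t ht hst hn
    obtain ⟨p, hp, hpl⟩ := hn.exists_path
    obtain ⟨g1, g2, -⟩ := hf s hs
    obtain ⟨k1, k2, -⟩ := hf t ht
    have h6 := h3 _ g1
    have h7 := h3 _ k1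
    have hsup : ∀ z ∈ p.support, ∃ t ∈ Γ', t.2.1 = z := by
      intro z hz
      obtain ⟨u, hu, hue⟩ := h2.c2 ((f s).2.1, (f s).2.2) (mem_image_of_mem _ g1)
        ((f t).2.1, (f t).2.2) (mem_image_of_mem _ k1) p hp (by dsimp only; omega) z hz
      obtain ⟨v, hv, rfl⟩ := mem_image.1 hu
      exact ⟨v, hv, hue⟩
    have h8 := h2.pull p hsup _ g1 rfl _ k1 rfl
    rw [g2, k2] at h8
    exact hS2 s hs t ht hst (h8.mono hpl)
  have hzfar : ∀ s ∈ S, ¬ Near J (2 * ρ) z (f s).2.1 := by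
    intro s hs hn
    obtain ⟨-, -, x, hx, hxn⟩ := hf s hs
    obtain ⟨y, hy, rfl⟩ := mem_image.1 hx
    exact hz y hy ((hxn.trans hn.symm).mono (by omega))
  have hinj : Set.InjOn (fun s => (f s).2.1) (S : Set V) := by
    intro s hs t ht hst
    by_contra hne
    refine hapart s hs t ht hne ?_
    dsimp only at hst
    rw [hst]
    exact Near.refl J _ _
  have hnot : z ∉ S.image fun s => (f s).2.1 := by
    intro hmem
    obtain ⟨s, hs, hse⟩ := mem_image.1 hmem
    refine hzfar s hs ?_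
    rw [hse]
    exact Near.refl J _ _
  have hbig : insert z (S.image fun s => (f s).2.1) ∈ 𝒮 := by
    rw [h𝒮, mem_filter]
    refine ⟨mem_univ _, ?_, ?_⟩
    · intro s hs
      rw [mem_insert] at hs
      rcases hs with rfl | hs
      · rfl
      · obtain ⟨t, ht, rfl⟩ := mem_image.1 hs
        exact hlev t ht
    · intro s hs t ht hst
      rw [mem_insert] at hs ht
      rcases hs with rfl | hs <;> rcases ht with rfl | ht
      · exact absurd rfl hst
      · obtain ⟨t', ht', rfl⟩ := mem_image.1 ht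
        exact hzfar t' ht'
      · obtain ⟨s', hs', rfl⟩ := mem_image.1 hs
        exact fun hn => hzfar s' hs' hn.symm
      · obtain ⟨t', ht', rfl⟩ := mem_image.1 ht
        obtain ⟨s', hs', rfl⟩ := mem_image.1 hs
        exact hapart s' hs' t' ht' fun he => hst (by rw [he])
  have hle := hmax _ hbig
  rw [card_insert_of_notMem hnot, card_image_of_injOn hinj] at hle
  omega

/-- Insertion of a far pair. -/
theorem Inv.insFar {D r : ℕ} {Γ : Finset (V × V × ℕ)} (h : Inv J col θ D r Γ)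
    (h0 : ∀ y ∈ Γ, y.2.2 = 0) (hD : 1 ≤ D) {z z' : V}
    (hz : ∀ x ∈ Γ, ¬ Near J D x.1 z) (hz' : ∀ x ∈ Γ, ¬ Near J D x.2.1 z')
    (hl : lam J col θ r z = lam J col θ r z') :
    Inv J col θ D r (insert (z, z', 0) Γ) := by
  have hne : ∀ x ∈ Γ, x.1 ≠ z := fun x hx he => hz x hx (by rw [he]; exact Near.refl J _ _)
  have hne' : ∀ x ∈ Γ, x.2.1 ≠ z' := fun x hx he => hz' x hx (by rw [he]; exact Near.refl J _ _)
  have hna : ∀ x ∈ Γ, ¬ J.Adj x.1 z := fun x hx he => hz x hx (Near.of_adj hD he)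
  have hna' : ∀ x ∈ Γ, ¬ J.Adj x.2.1 z' := fun x hx he => hz' x hx (Near.of_adj hD he)
  have hcl : ∀ (A : Finset (V × ℕ)) (w : V), Cl J D A → (∀ x ∈ A, x.2 = 0) →
      (∀ x ∈ A, ¬ Near J D x.1 w) → Cl J D (insert (w, 0) A) := by
    intro A w hA hA0 hAw a ha b hb p hp hl y hy
    rw [mem_insert] at ha hb
    rcases ha with ha | ha <;> rcases hb with hb | hb
    · subst ha
      subst hb
      have : p = Walk.nil := Walk.eq_nil_iff_nil.2 (Walk.isPath_iff_nil.1 hp)
      subst this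
      simp only [Walk.support_nil, List.mem_singleton] at hy
      exact ⟨(w, 0), mem_insert_self _ _, hy.symm⟩
    · subst ha
      exact absurd ⟨p.reverse, by rw [Walk.length_reverse]; omega⟩ (hAw b hb)
    · subst hb
      exact absurd ⟨p, by omega⟩ (hAw a ha)
    · obtain ⟨t, ht, h⟩ := hA a ha b hb p hp hl y hy
      exact ⟨t, mem_insert_of_mem ht, h⟩
  refine ⟨?_, ?_, ?_, ?_, ?_, ?_, ?_⟩
  · intro a ha b hb he
    rw [mem_insert] at ha hb
    rcases ha with rfl | ha <;> rcases hb with rfl | hb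
    · rfl
    · exact absurd he.symm (hne b hb)
    · exact absurd he (hne a ha)
    · exact h.inj1 a ha b hb he
  · intro a ha b hb he
    rw [mem_insert] at ha hb
    rcases ha with rfl | ha <;> rcases hb with rfl | hb
    · rfl
    · exact absurd he.symm (hne' b hb)
    · exact absurd he (hne' a ha)
    · exact h.inj2 a ha b hb he
  · intro a ha b hb
    rw [mem_insert] at ha hb
    rcases ha with rfl | ha <;> rcases hb with rfl | hb
    · simp
    · exact ⟨fun h1 => absurd h1.symm (hna b hb), fun h1 => absurd h1.symm (hna' b hb)⟩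
    · exact ⟨fun h1 => absurd h1 (hna a ha), fun h1 => absurd h1 (hna' a ha)⟩
    · exact h.adj a ha b hb
  · intro a ha
    rw [mem_insert] at ha
    rcases ha with rfl | ha
    · exact hl
    · exact h.lev a ha
  · intro a ha b hb hab
    rw [mem_insert] at ha hb
    rcases ha with rfl | ha <;> rcases hb with rfl | hb
    · simp
    · exact absurd hab.symm (hna b hb)
    · exact absurd hab (hna a ha)
    · exact h.dep a ha b hb hab
  · rw [image_insert]
    refine hcl _ _ h.c1 ?_ ?_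
    · intro x hx
      obtain ⟨y, hy, rfl⟩ := mem_image.1 hx
      exact h0 y hy
    · intro x hx
      obtain ⟨y, hy, rfl⟩ := mem_image.1 hx
      exact hz y hy
  · rw [image_insert]
    refine hcl _ _ h.c2 ?_ ?_
    · intro x hx
      obtain ⟨y, hy, rfl⟩ := mem_image.1 hx
      exact h0 y hy
    · intro x hx
      obtain ⟨y, hy, rfl⟩ := mem_image.1 hx
      exact hz' y hy

/-- Forget the depth. -/
def zer (x : V × V × ℕ) : V × V × ℕ := (x.1, x.2.1, 0)

theorem Inv.rebase {D r ρ : ℕ} {Γ : Finset (V × V × ℕ)} (h : Inv J col θ D r Γ)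
    (hρ : ∀ y ∈ Γ, y.2.2 ≤ ρ) : Inv J col θ (D - 2 * ρ) (r - ρ) (Γ.image zer) := by
  have hcl : ∀ (A : Finset (V × ℕ)), Cl J D A → (∀ x ∈ A, x.2 ≤ ρ) →
      Cl J (D - 2 * ρ) (A.image fun x => (x.1, 0)) := by
    intro A hA hAρ a' ha' b' hb' p hp hl y hy
    obtain ⟨a, ha, rfl⟩ := mem_image.1 ha'
    obtain ⟨b, hb, rfl⟩ := mem_image.1 hb'
    by_cases hDρ : 2 * ρ ≤ D
    · have h1 := hAρ a ha
      have h2 := hAρ b hb
      obtain ⟨t, ht, hty⟩ := hA a ha b hb p hp (by dsimp only at hl; omega) y hy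
      exact ⟨(t.1, 0), mem_image.2 ⟨t, ht, rfl⟩, hty⟩
    · have hl0 : p.length = 0 := by omega
      have hy' : y = a.1 := by
        revert hl0 hy
        clear hl hp
        generalize a.1 = a1 at p
        generalize b.1 = b1 at p
        intro hy hl0
        cases p with
        | nil => simpa using hy
        | cons _ _ => simp at hl0
      exact ⟨(a.1, 0), mem_image.2 ⟨a, ha, rfl⟩, hy'.symm⟩
  refine ⟨?_, ?_, ?_, ?_, ?_, ?_, ?_⟩
  · intro x hx y hy he
    obtain ⟨a, ha, rfl⟩ := mem_image.1 hx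
    obtain ⟨b, hb, rfl⟩ := mem_image.1 hy
    rw [h.inj1 a ha b hb he]
  · intro x hx y hy he
    obtain ⟨a, ha, rfl⟩ := mem_image.1 hx
    obtain ⟨b, hb, rfl⟩ := mem_image.1 hy
    rw [h.inj2 a ha b hb he]
  · intro x hx y hy
    obtain ⟨a, ha, rfl⟩ := mem_image.1 hx
    obtain ⟨b, hb, rfl⟩ := mem_image.1 hy
    exact h.adj a ha b hb
  · intro x hx
    obtain ⟨a, ha, rfl⟩ := mem_image.1 hx
    have := hρ a ha
    exact lam_le (by simp only [zer]; omega) (h.lev a ha)
  · intro x hx y hy hxy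
    obtain ⟨a, ha, rfl⟩ := mem_image.1 hx
    obtain ⟨b, hb, rfl⟩ := mem_image.1 hy
    simp [zer]
  · have h1 := hcl _ h.c1 (by
      intro x hx
      obtain ⟨y, hy, rfl⟩ := mem_image.1 hx
      exact hρ y hy)
    rw [image_image] at h1 ⊢
    exact h1
  · have h1 := hcl _ h.c2 (by
      intro x hx
      obtain ⟨y, hy, rfl⟩ := mem_image.1 hx
      exact hρ y hy)
    rw [image_image] at h1 ⊢
    exact h1

/-- **Forth.** -/
theorem Inv.forth {D r r' g ρ : ℕ} {Γ : Finset (V × V × ℕ)} (h : Inv J col θ D r Γ)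
    (h0 : ∀ y ∈ Γ, y.2.2 = 0) (hJ : UP J g) (hg : D + 1 ≤ g) (hρ : 2 ≤ ρ) (hD : 7 * ρ ≤ D)
    (hr : r' + 3 * ρ ≤ r) (hθ : Γ.card + Γ.card * ρ + 3 * ρ + 1 ≤ θ) (z : V) :
    ∃ Γ', Γ ⊆ Γ' ∧ Inv J col θ ρ r' Γ' ∧ (∀ y ∈ Γ', y.2.2 = 0) ∧
      Γ'.card ≤ Γ.card + 3 * ρ + 1 ∧ ∃ t ∈ Γ', t.1 = z := by
  by_cases hz : ∃ x ∈ Γ, Near J (3 * ρ) x.1 z
  · obtain ⟨x, hx, p, hp⟩ := hz
    obtain ⟨Γ', h1, h2, h3, h4, t, ht, htz, -⟩ := Inv.branch (ρ := 3 * ρ) hJ hg (by omega)
      (by omega) p Γ h (fun y hy => by rw [h0 y hy]; omega) (by omega) x hx rfl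
      (by rw [h0 x hx]; omega)
    refine ⟨Γ'.image zer, ?_, (h2.rebase h3).mono (by omega) (by omega), ?_, ?_, zer t,
      mem_image_of_mem _ ht, htz⟩
    · intro y hy
      refine mem_image.2 ⟨y, h1 hy, ?_⟩
      have := h0 y hy
      obtain ⟨a, b, c⟩ := y
      simp only at this
      simp [zer, this]
    · intro y hy
      obtain ⟨a, -, rfl⟩ := mem_image.1 hy
      rfl
    · exact card_image_le.trans (by omega)
  · push Not at hz
    obtain ⟨z', hz1, hz2⟩ := h.far (r' := r') h0 hJ hg (by omega) (by omega) (by omega) hz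
    refine ⟨insert (z, z', 0) Γ, subset_insert _ _,
      (h.mono (by omega) (by omega)).insFar h0 (by omega)
        (fun x hx hn => hz x hx (hn.mono (by omega))) hz2 hz1, ?_, ?_, (z, z', 0),
      mem_insert_self _ _, rfl⟩
    · intro y hy
      rw [mem_insert] at hy
      rcases hy with rfl | hy
      · rfl
      · exact h0 y hy
    · exact (card_insert_le _ _).trans (by omega)

/-! ### The parameters -/

/-- The distance needed for `q` rounds. -/
def Dq : ℕ → ℕ
  | 0 => 2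
  | (q + 1) => 7 * Dq q

/-- The level needed for `q` rounds. -/
def rq : ℕ → ℕ
  | 0 => 0
  | (q + 1) => rq q + 3 * Dq q

/-- The bound for the counting needed for `q` rounds and a domain of size `n`. -/
def cq : ℕ → ℕ → ℕ
  | 0, n => n + 1
  | (q + 1), n => cq q (n + n * Dq q + 3 * Dq q + 1)

theorem two_le_Dq (q : ℕ) : 2 ≤ Dq q := by
  induction q with
  | zero => exact le_rfl
  | succ q ih => rw [Dq]; omega

theorem le_cq (q n : ℕ) : n ≤ cq q n := by
  induction q generalizing n with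
  | zero => rw [cq]; omega
  | succ q ih =>
    rw [cq]
    exact le_trans (by nlinarith) (ih _)

theorem cq_mono (q : ℕ) {n m : ℕ} (h : n ≤ m) : cq q n ≤ cq q m := by
  induction q generalizing n m with
  | zero => rw [cq, cq]; omega
  | succ q ih =>
    rw [cq, cq]
    apply ih
    have := Nat.mul_le_mul_right (Dq q) h
    omega

/-- Partial isomorphisms which are good for `q` rounds. -/
structure InvL (J : SimpleGraph V) (col : V → K) (θ : ℕ) (q : ℕ) (Γ : Finset (V × V × ℕ)) :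
    Prop where
  inv : Inv J col θ (Dq q) (rq q) Γ
  zero : ∀ y ∈ Γ, y.2.2 = 0
  card : cq q Γ.card ≤ θ

theorem InvL.swap {q : ℕ} {Γ : Finset (V × V × ℕ)} (h : InvL J col θ q Γ) :
    InvL J col θ q (Γ.image swp) := by
  refine ⟨h.inv.swap, ?_, ?_⟩
  · intro y hy
    obtain ⟨x, hx, rfl⟩ := mem_image.1 hy
    exact h.zero x hx
  · rw [card_image_of_injective _ swp_inj]
    exact h.card

theorem InvL.forth {q g : ℕ} {Γ : Finset (V × V × ℕ)} (h : InvL J col θ (q + 1) Γ)
    (hJ : UP J g) (hg : Dq (q + 1) + 1 ≤ g) (z : V) :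
    ∃ Γ', Γ ⊆ Γ' ∧ InvL J col θ q Γ' ∧ ∃ t ∈ Γ', t.1 = z := by
  have hc := h.card
  rw [cq] at hc
  obtain ⟨Γ', h1, h2, h3, h4, h5⟩ := h.inv.forth (r' := rq q) (ρ := Dq q) h.zero hJ hg
    (two_le_Dq q) (by rw [Dq]) (by rw [rq]) ((le_cq q _).trans hc) z
  exact ⟨Γ', h1, ⟨h2, h3, (cq_mono q (by omega)).trans hc⟩, h5⟩

theorem InvL.succ {q : ℕ} {Γ : Finset (V × V × ℕ)} (h : InvL J col θ (q + 1) Γ) :
    InvL J col θ q Γ := by
  refine ⟨h.inv.mono (by rw [Dq]; omega) (by rw [rq]; omega), h.zero, ?_⟩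
  have hc := h.card
  rw [cq] at hc
  exact (cq_mono q (by omega)).trans hc

theorem InvL.mono {q q' : ℕ} {Γ : Finset (V × V × ℕ)} (h : InvL J col θ q Γ) (hq : q' ≤ q) :
    InvL J col θ q' Γ := by
  induction q, hq using Nat.le_induction with
  | base => exact h
  | succ q _ ih => exact ih h.succ

theorem Dq_mono {q q' : ℕ} (hq : q' ≤ q) : Dq q' ≤ Dq q := by
  induction q, hq using Nat.le_induction with
  | base => exact le_rfl
  | succ q _ ih => rw [Dq]; omega

end Q229.TR
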