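import Pool.Agent.Q229.TR.Base

set_option autoImplicit false

/-!
# The relation of the even blocks is not given by first-order transductions
-/

namespace Q229.TR

open SimpleGraph Finset
open scoped Classical

/-- First-order transductions without copying preserve the representations. -/
theorem rep_out {P L : Type} [Fintype P] [Fintype L] {J : SimpleGraph (P ⊕ L)} {g q m : ℕ}
    (hJ : UP J g) {X : Type} {R : X → X → Prop} (h : Rep J Bool Unit 0 R)
    (φ : Fm Unit (Fin m) 2) (hφ : φ.IsFO) (hq : φ.rank ≤ q) (hg : Dq q + 1 ≤ g)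
    (c : Fin m → X → Prop) (W : X → Prop) :
    Rep J (Bool × Set (Unit × Unit × Fin m) × Set (Unit × Unit)) (Unit × Unit) q
      (fun x y : {x // W x} => x ≠ y ∧ Sat (fun _ => R) c φ ![x.1, y.1] ∧
        Sat (fun _ => R) c φ ![y.1, x.1]) := by
  refine h.trans hJ (fun x : X => x) (fun _ => ()) (fun y y' hy _ => hy)
    (fun y x' => ⟨x', rfl, rfl⟩) (fun _ => R) (fun b x y x' y' _ _ _ hR => hR) φ hφ (by omega) hg
    c W _ ?_
  intro x y x' y' h1 h2 h3
  exact and_congr (not_congr h1) (and_congr h2 h3)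

/-- The final step. -/
theorem not_out {f : ℕ → Lv} (hf : ∀ i, (f i).Good) (hn : ∀ i j, i < j → (f i).Next (f j))
    {m : ℕ} (φ : Fm Unit (Fin m) 2) (hφ : φ.IsFO) :
    ∃ i, ∀ (j : ℕ) (X : Type) (R : X → X → Prop) (e : X ≃ Fin (2 ^ (f j).k)),
      (∀ x y, R x y ↔ Co (f j).blk (f j).S (e x) (e y)) →
      ∀ (c : Fin m → X → Prop) (W : X → Prop) (e' : Fin (2 ^ (f i).k) ≃ {x // W x}),
      ¬ ∀ x y, HS (f i).blk (f i).S x y ↔ ((e' x) ≠ (e' y) ∧
        Sat (fun _ => R) c φ ![(e' x).1, (e' y).1] ∧
          Sat (fun _ => R) c φ ![(e' y).1, (e' x).1]) := by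
  set n := Nat.card (Bool × Set (Unit × Unit × Fin m) × Set (Unit × Unit)) + φ.rank + 1 with hndef
  have hi : ∀ i, i ≤ (f i).n := by
    intro i
    induction i with
    | zero => exact Nat.zero_le _
    | succ i ih =>
      have := (hn i (i + 1) (Nat.lt_succ_self i)).n
      omega
  refine ⟨n, fun j X R e he c W e' hcon => ?_⟩
  have hni := hi n
  rcases lt_or_ge j n with hj | hj
  · -- the number of points
    have h1 := (hn j n hj).k
    have h2 : 2 ^ (f j).k < 2 ^ (f n).k := Nat.pow_lt_pow_right (by norm_num) h1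
    have h3 := Fintype.card_le_of_injective (fun x => e (e' x).1) (by
      intro x y hxy
      exact e'.injective (Subtype.ext (e.injective hxy)))
    rw [Fintype.card_fin, Fintype.card_fin] at h3
    omega
  · have hjn := hi j
    have hD : Dq φ.rank ≤ Dq (f j).n := Dq_mono (by omega)
    have hrep := rep_out (q := φ.rank) ((hf j).up.anti (JS_le _ _))
      ((rep_Co (f j).blk (f j).S).equiv e he) φ hφ le_rfl (by omega) c W
    have hrep2 := (hrep.equiv e' hcon).repN (n := n) (by omega) (by
      have : Nat.card (Unit × Unit) = 1 := by simp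
      omega) (by omega)
    exact not_rep hf hn n j (by omega) hrep2

end Q229.TR
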