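import Pool.Agent.Q229.TR.Code
import Pool.Agent.Q229.TR.Hyp

set_option autoImplicit false

/-!
# Coding of the relations represented over graphs of very large girth
-/

namespace Q229.TR

open SimpleGraph Finset
open scoped Classical

/-- The graph formed by a family of sequences. -/
def Sq {V : Type} {N d : ℕ} (W : Fin N → Fin (d + 1) → V) : SimpleGraph V where
  Adj a b := a ≠ b ∧ ∃ (i : Fin N) (t : Fin d),
    (W i t.castSucc = a ∧ W i t.succ = b) ∨ (W i t.castSucc = b ∧ W i t.succ = a)
  symm := ⟨by
    rintro a b ⟨h, i, t, h'⟩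
    exact ⟨h.symm, i, t, h'.symm⟩⟩
  loopless := ⟨fun a h => h.1 rfl⟩

theorem Sq_mem {V : Type} {N d : ℕ} {W : Fin N → Fin (d + 1) → V} {a b : V}
    (h : (Sq W).Adj a b) : ∃ i t, W i t = a := by
  obtain ⟨-, i, t, h | h⟩ := h
  · exact ⟨i, _, h.1⟩
  · exact ⟨i, _, h.2⟩

/-- Paths in such a graph are short. -/
theorem Sq_length {V : Type} {N d : ℕ} {W : Fin N → Fin (d + 1) → V} {u v : V}
    (p : (Sq W).Walk u v) (hp : p.IsPath) : p.length ≤ N * (d + 1) := by
  have h1 : ∀ {u v : V} (p : (Sq W).Walk u v), p.length ≠ 0 →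
      ∀ z ∈ p.support, ∃ i t, W i t = z := by
    intro u v p
    induction p with
    | nil => intro h; simp at h
    | @cons u w v hadj q ih =>
      intro _ z hz
      rw [Walk.support_cons, List.mem_cons] at hz
      rcases hz with rfl | hz
      · exact Sq_mem hadj
      · by_cases hq : q.length = 0
        · cases q with
          | nil =>
            rw [Walk.support_nil, List.mem_singleton] at hz
            subst hz
            exact Sq_mem hadj.symm
          | cons _ _ => simp at hq
        · exact ih hq z hz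
  by_cases h0 : p.length = 0
  · omega
  have h2 : p.support.toFinset ⊆ univ.image fun x : Fin N × Fin (d + 1) => W x.1 x.2 := by
    intro z hz
    rw [List.mem_toFinset] at hz
    obtain ⟨i, t, h⟩ := h1 p h0 z hz
    exact mem_image.2 ⟨(i, t), mem_univ _, h⟩
  have h3 := card_le_card h2
  rw [List.toFinset_card_of_nodup hp.support_nodup, Walk.length_support] at h3
  have h4 : (univ.image fun x : Fin N × Fin (d + 1) => W x.1 x.2).card ≤ N * (d + 1) := by
    refine card_image_le.trans ?_
    rw [card_univ, Fintype.card_prod, Fintype.card_fin, Fintype.card_fin]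
  omega

/-- The graph of the pairs of points with small distance. -/
def Kg {V : Type} {N : ℕ} (J : SimpleGraph V) (d : ℕ) (pts : Fin N → V) :
    SimpleGraph (Fin N) where
  Adj i j := i ≠ j ∧ ∃ p : J.Walk (pts i) (pts j), p.IsPath ∧ p.length ≤ d
  symm := ⟨by
    rintro i j ⟨h, p, hp, hl⟩
    exact ⟨h.symm, p.reverse, hp.reverse, by rw [Walk.length_reverse]; exact hl⟩⟩
  loopless := ⟨fun a h => h.1 rfl⟩

theorem getVert_adj {V : Type} {J : SimpleGraph V} {u v : V} (p : J.Walk u v) (t : ℕ) :
    p.getVert t = p.getVert (t + 1) ∨ J.Adj (p.getVert t) (p.getVert (t + 1)) := by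
  by_cases h : t < p.length
  · exact Or.inr (p.adj_getVert_succ h)
  · left
    rw [p.getVert_of_length_le (by omega), p.getVert_of_length_le (by omega)]

/-- **Few paths.** There are `N` paths such that their union contains all the short paths between
`N` given points. -/
theorem exists_paths {V : Type} {J : SimpleGraph V} {N d g : ℕ} (hJ : UP J g)
    (hg : d + N * (d + 1) ≤ g) (pts : Fin N → V) :
    ∃ W : Fin N → Fin (d + 1) → V, Sq W ≤ J ∧
      ∀ (i j : Fin N) (p : J.Walk (pts i) (pts j)), p.IsPath → p.length ≤ d →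
        ∃ q : (Sq W).Walk (pts i) (pts j), q.IsPath ∧ q.length = p.length ∧
          q.support = p.support := by
  set G := Kg J d pts with hG
  -- roots and parents
  let root : Fin N → Fin N := fun i => (G.connectedComponentMk i).out
  have hroot : ∀ i, G.Reachable i (root i) := by
    intro i
    have h : G.connectedComponentMk (root i) = G.connectedComponentMk i := Quot.out_eq _
    exact (ConnectedComponent.exact h).symm
  have hroot2 : ∀ i j, G.Reachable i j → root i = root j := by
    intro i j h
    have h : G.connectedComponentMk i = G.connectedComponentMk j := ConnectedComponent.sound h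
    show (G.connectedComponentMk i).out = (G.connectedComponentMk j).out
    rw [h]
  have hpar : ∀ i, ∃ j, (i = root i ∧ j = i) ∨
      (G.Adj i j ∧ G.dist j (root i) < G.dist i (root i)) := by
    intro i
    by_cases hi : i = root i
    · exact ⟨i, Or.inl ⟨hi, rfl⟩⟩
    · obtain ⟨p, hp⟩ := (hroot i).exists_walk_length_eq_dist
      generalize root i = r at *
      cases p with
      | nil => exact absurd rfl hi
      | @cons _ j _ hadj q =>
        refine ⟨j, Or.inr ⟨hadj, ?_⟩⟩
        rw [Walk.length_cons] at hp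
        have := G.dist_le q
        omega
  choose par hpar using hpar
  have hpath : ∀ i, ∃ p : J.Walk (pts i) (pts (par i)), p.length ≤ d := by
    intro i
    rcases hpar i with ⟨-, h⟩ | ⟨h, -⟩
    · rw [h]
      exact ⟨Walk.nil, by simp⟩
    · obtain ⟨-, p, -, hp⟩ := h
      exact ⟨p, hp⟩
  choose P hP using hpath
  let W : Fin N → Fin (d + 1) → V := fun i t => (P i).getVert t
  have hWJ : Sq W ≤ J := by
    rintro a b ⟨hab, i, t, ⟨h1, h2⟩ | ⟨h1, h2⟩⟩
    · have h3 := getVert_adj (P i) t
      change (P i).getVert (t : ℕ) = a at h1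
      change (P i).getVert ((t : ℕ) + 1) = b at h2
      rw [h1, h2] at h3
      rcases h3 with h3 | h3
      · exact absurd h3 hab
      · exact h3
    · have h3 := getVert_adj (P i) t
      change (P i).getVert (t : ℕ) = b at h1
      change (P i).getVert ((t : ℕ) + 1) = a at h2
      rw [h1, h2] at h3
      rcases h3 with h3 | h3
      · exact absurd h3.symm hab
      · exact h3.symm
  -- connectivity
  have hstep : ∀ i, (Sq W).Reachable (pts i) (pts (par i)) := by
    intro i
    have h1 : ∀ t : ℕ, t ≤ d → (Sq W).Reachable (pts i) ((P i).getVert t) := by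
      intro t
      induction t with
      | zero => intro _; rw [Walk.getVert_zero]
      | succ t ih =>
        intro ht
        refine (ih (by omega)).trans ?_
        by_cases he : (P i).getVert t = (P i).getVert (t + 1)
        · rw [he]
        · exact Adj.reachable ⟨he, i, ⟨t, by omega⟩, Or.inl ⟨rfl, rfl⟩⟩
    have h2 := h1 d le_rfl
    rwa [(P i).getVert_of_length_le (hP i)] at h2
  have hconn : ∀ (m : ℕ) (i : Fin N), G.dist i (root i) ≤ m →
      (Sq W).Reachable (pts i) (pts (root i)) := by
    intro m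
    induction m with
    | zero =>
      intro i hi
      have := (hroot i).dist_eq_zero_iff.1 (Nat.le_zero.1 hi)
      rw [← this]
    | succ m ih =>
      intro i hi
      rcases hpar i with ⟨h, -⟩ | ⟨h, h'⟩
      · rw [← h]
      · have h3 : root (par i) = root i := (hroot2 _ _ h.reachable).symm
        have h4 := ih (par i) (by rw [h3]; omega)
        rw [h3] at h4
        exact (hstep i).trans h4
  refine ⟨W, hWJ, ?_⟩
  intro i j p hp hl
  have hreach : (Sq W).Reachable (pts i) (pts j) := by
    by_cases hij : i = j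
    · rw [hij]
    · have h1 : G.Adj i j := ⟨hij, p, hp, hl⟩
      have h2 := hconn _ i le_rfl
      have h3 := hconn _ j le_rfl
      rw [hroot2 _ _ h1.reachable] at h2
      exact h2.trans h3.symm
  obtain ⟨w⟩ := hreach
  have hq := w.bypass_isPath
  have hql := Sq_length w.bypass hq
  have he : p = w.bypass.mapLe hWJ := by
    apply hJ
    · exact hp
    · exact (Walk.isPath_mapLe hWJ).2 hq
    · rw [Walk.length_mapLe]
      omega
  refine ⟨w.bypass, hq, ?_, ?_⟩
  · rw [he, Walk.length_mapLe]
  · rw [he, Walk.support_mapLe_eq_support]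

/-- Walks are mapped by an injective relabelling. -/
theorem Sq_push {V V' : Type} {N d : ℕ} {W : Fin N → Fin (d + 1) → V} {S : Finset V}
    (hS : ∀ i t, W i t ∈ S) (ρ : V → V') (hρ : Set.InjOn ρ (S : Set V)) {u v : V}
    (p : (Sq W).Walk u v) : ∃ q : (Sq fun i t => ρ (W i t)).Walk (ρ u) (ρ v),
      q.support = p.support.map ρ ∧ q.length = p.length := by
  induction p with
  | nil => exact ⟨Walk.nil, rfl, rfl⟩
  | @cons u w v hadj q ih =>
    obtain ⟨q', h1, h2⟩ := ih
    have hu : u ∈ S := by
      obtain ⟨i, t, h⟩ := Sq_mem hadj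
      rw [← h]
      exact hS i t
    have hw : w ∈ S := by
      obtain ⟨i, t, h⟩ := Sq_mem hadj.symm
      rw [← h]
      exact hS i t
    have hadj' : (Sq fun i t => ρ (W i t)).Adj (ρ u) (ρ w) := by
      obtain ⟨h3, i, t, h4⟩ := hadj
      refine ⟨fun he => h3 (hρ hu hw he), i, t, ?_⟩
      rcases h4 with ⟨h4, h5⟩ | ⟨h4, h5⟩
      · left
        dsimp only
        rw [h4, h5]
        exact ⟨rfl, rfl⟩
      · right
        dsimp only
        rw [h4, h5]
        exact ⟨rfl, rfl⟩
    refine ⟨Walk.cons hadj' q', ?_, ?_⟩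
    · rw [Walk.support_cons, Walk.support_cons, h1, List.map_cons]
    · rw [Walk.length_cons, Walk.length_cons, h2]

/-- Walks are lifted. -/
theorem Sq_lift {V V' : Type} {N d : ℕ} {W : Fin N → Fin (d + 1) → V} {S : Finset V}
    (hS : ∀ i t, W i t ∈ S) (ρ : V → V') (hρ : Set.InjOn ρ (S : Set V)) {a b : V'}
    (p : (Sq fun i t => ρ (W i t)).Walk a b) : ∀ u ∈ S, ρ u = a → ∀ v ∈ S, ρ v = b →
      ∃ q : (Sq W).Walk u v, q.support.map ρ = p.support ∧ q.length = p.length := by
  induction p with
  | nil =>
    intro u hu hua v hv hvb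
    have : u = v := hρ hu hv (by rw [hua, hvb])
    subst this
    exact ⟨Walk.nil, by simp [hua], rfl⟩
  | @cons a c b hadj q ih =>
    intro u hu hua v hv hvb
    have hadj0 := hadj
    obtain ⟨h3, i, t, h4⟩ := hadj0
    dsimp only at h4
    rcases h4 with ⟨h4, h5⟩ | ⟨h4, h5⟩
    · obtain ⟨q', h1, h2⟩ := ih (W i t.succ) (hS _ _) h5 v hv hvb
      have h6 : W i t.castSucc = u := hρ (hS _ _) hu (by rw [h4, hua])
      have hadj' : (Sq W).Adj u (W i t.succ) := by
        refine ⟨fun he => h3 ?_, i, t, Or.inl ⟨h6, rfl⟩⟩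
        rw [← hua, ← h5, he]
      refine ⟨Walk.cons hadj' q', ?_, ?_⟩
      · rw [Walk.support_cons, Walk.support_cons, List.map_cons, h1, hua]
      · rw [Walk.length_cons, Walk.length_cons, h2]
    · obtain ⟨q', h1, h2⟩ := ih (W i t.castSucc) (hS _ _) h4 v hv hvb
      have h6 : W i t.succ = u := hρ (hS _ _) hu (by rw [h5, hua])
      have hadj' : (Sq W).Adj u (W i t.castSucc) := by
        refine ⟨fun he => h3 ?_, i, t, Or.inr ⟨rfl, h6⟩⟩
        rw [← hua, ← h4, he]
      refine ⟨Walk.cons hadj' q', ?_, ?_⟩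
      · rw [Walk.support_cons, Walk.support_cons, List.map_cons, h1, hua]
      · rw [Walk.length_cons, Walk.length_cons, h2]

/-- The codes of the pairs of `N` points are determined by a labelled graph on a small set. -/
theorem exists_small {V T : Type} {J : SimpleGraph V} {N d g : ℕ} (hN : 0 < N) (hJ : UP J g)
    (hg : 2 * d + N * (d + 1) ≤ g) (lab : V → T) (pts : Fin N → V) :
    ∃ (w : Fin N → Fin (d + 1) → Fin (N * (d + 2))) (l : Fin (N * (d + 2)) → T)
      (pos : Fin N → Fin (N * (d + 2))),
      ∀ i j, pcode J lab d (pts i) (pts j) = pcode (Sq w) l d (pos i) (pos j) := by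
  obtain ⟨W, hWJ, hW⟩ := exists_paths (d := d) hJ (by omega) pts
  set S : Finset V := (univ.image fun x : Fin N × Fin (d + 1) => W x.1 x.2) ∪ univ.image pts
    with hS
  have hSW : ∀ i t, W i t ∈ S := fun i t =>
    mem_union_left _ (mem_image.2 ⟨(i, t), mem_univ _, rfl⟩)
  have hSp : ∀ i, pts i ∈ S := fun i => mem_union_right _ (mem_image_of_mem _ (mem_univ i))
  have hScard : S.card ≤ N * (d + 2) := by
    refine (card_union_le _ _).trans ?_
    have h1 : (univ.image fun x : Fin N × Fin (d + 1) => W x.1 x.2).card ≤ N * (d + 1) := by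
      refine card_image_le.trans ?_
      rw [card_univ, Fintype.card_prod, Fintype.card_fin, Fintype.card_fin]
    have h2 : (univ.image pts).card ≤ N := by
      refine card_image_le.trans ?_
      rw [card_univ, Fintype.card_fin]
    calc _ ≤ N * (d + 1) + N := Nat.add_le_add h1 h2
      _ = N * (d + 2) := by ring
  have hM : 0 < N * (d + 2) := by positivity
  let ρ : V → Fin (N * (d + 2)) := fun v =>
    if h : v ∈ S then Fin.castLE hScard (S.equivFin ⟨v, h⟩) else ⟨0, hM⟩
  have hρ : Set.InjOn ρ (S : Set V) := by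
    intro a ha b hb hab
    have ha' : a ∈ S := ha
    have hb' : b ∈ S := hb
    simp only [ρ, dif_pos ha', dif_pos hb'] at hab
    have h1 := S.equivFin.injective (Fin.castLE_injective hScard hab)
    exact congrArg Subtype.val h1
  let l : Fin (N * (d + 2)) → T := fun a =>
    if h : ∃ v ∈ S, ρ v = a then lab h.choose else lab (pts ⟨0, hN⟩)
  have hl : ∀ v ∈ S, l (ρ v) = lab v := by
    intro v hv
    have h : ∃ u ∈ S, ρ u = ρ v := ⟨v, hv, rfl⟩
    have h1 := h.choose_spec
    have h2 : h.choose = v := hρ h1.1 hv h1.2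
    simp only [l, dif_pos h, h2]
  have hlm : ∀ {u v : V} (p : (Sq W).Walk u v), u ∈ S →
      (p.support.map ρ).map l = p.support.map lab := by
    intro u v p hu
    rw [List.map_map]
    apply List.map_congr_left
    intro z hz
    refine hl z ?_
    clear hW
    induction p with
    | nil =>
      rw [Walk.support_nil, List.mem_singleton] at hz
      rw [hz]
      exact hu
    | @cons u w v hadj q ih =>
      rw [Walk.support_cons, List.mem_cons] at hz
      rcases hz with rfl | hz
      · exact hu
      · refine ih ?_ hz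
        obtain ⟨i, t, h⟩ := Sq_mem hadj.symm
        rw [← h]
        exact hSW i t
  refine ⟨fun i t => ρ (W i t), l, fun i => ρ (pts i), ?_⟩
  intro i j
  have hlift : ∀ p : (Sq fun i t => ρ (W i t)).Walk (ρ (pts i)) (ρ (pts j)), p.IsPath →
      ∃ q : (Sq W).Walk (pts i) (pts j), q.IsPath ∧ q.support.map ρ = p.support ∧
        q.length = p.length := by
    intro p hp
    obtain ⟨q, h1, h2⟩ := Sq_lift hSW ρ hρ p (pts i) (hSp i) rfl (pts j) (hSp j) rfl
    refine ⟨q, Walk.IsPath.mk' ?_, h1, h2⟩
    have h3 := hp.support_nodup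
    rw [← h1] at h3
    exact List.Nodup.of_map _ h3
  have hSqJ : UP (Sq W) g := hJ.anti hWJ
  apply pcode_congr'
  · exact hJ.lu (by omega) _ _
  · intro p q hp hq hpl hql
    obtain ⟨p', hp1, hp2, hp3⟩ := hlift p hp
    obtain ⟨q', hq1, hq2, hq3⟩ := hlift q hq
    have := hSqJ.lu (d := d) (by omega) _ _ p' q' hp1 hq1 (by omega) (by omega)
    apply Walk.ext_support
    rw [← hp2, ← hq2, this]
  · exact (hl _ (hSp i)).symm
  · exact (hl _ (hSp j)).symm
  · intro p hp hpl
    obtain ⟨q, h1, h2, h3⟩ := hW i j p hp hpl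
    obtain ⟨q', h4, h5⟩ := Sq_push hSW ρ hρ q
    refine ⟨q', Walk.IsPath.mk' ?_, by omega, ?_⟩
    · rw [h4]
      refine List.Nodup.map_on ?_ h1.support_nodup
      intro x hx y hy hxy
      have hsup : ∀ {u v : V} (p : (Sq W).Walk u v), u ∈ S → ∀ z ∈ p.support, z ∈ S := by
        intro u v p
        induction p with
        | nil =>
          intro hu z hz
          rw [Walk.support_nil, List.mem_singleton] at hz
          rw [hz]
          exact hu
        | @cons u w v hadj q ih =>
          intro hu z hz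
          rw [Walk.support_cons, List.mem_cons] at hz
          rcases hz with rfl | hz
          · exact hu
          · refine ih ?_ z hz
            obtain ⟨i, t, h⟩ := Sq_mem hadj.symm
            rw [← h]
            exact hSW i t
      exact hρ (hsup q (hSp i) x hx) (hsup q (hSp i) y hy) hxy
    · rw [h4, hlm q (hSp i), h3]
  · intro p hp hpl
    obtain ⟨q, h1, h2, h3⟩ := hlift p hp
    refine ⟨q.mapLe hWJ, (Walk.isPath_mapLe hWJ).2 h1, ?_⟩
    rw [Walk.length_mapLe]
    omega

/-- The data which determine a relation on `N` points. -/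
abbrev Dt (n θ N : ℕ) : Type :=
  (Fin N → Fin (Dq n + 1) → Fin (N * (Dq n + 2))) × (Fin (N * (Dq n + 2)) → Ty (Fin n) θ (Rq n)) ×
    (Fin N → Fin (N * (Dq n + 2))) × (Fin N → Fin n) × Set (Cd n θ)

/-- The relation given by the data. -/
def Dt.rel {n θ N : ℕ} (D : Dt n θ N) (x y : Fin N) : Prop :=
  (pcode (Sq D.1) D.2.1 (Dq n) (D.2.2.1 x) (D.2.2.1 y), D.2.2.2.1 x, D.2.2.2.1 y) ∈ D.2.2.2.2

/-- Relations represented over graphs of very large girth are given by data. -/
theorem RepN.data {P L : Type} [Fintype P] [Fintype L] {J : SimpleGraph (P ⊕ L)} {n g θ N : ℕ}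
    {R : Fin N → Fin N → Prop} (h : RepN J n R) (hN : 0 < N) (hJ : UP J g)
    (hg : 3 * Dq n + N * (Dq n + 1) ≤ g) (hθ : cq n (Dq n + 2) ≤ θ) :
    ∃ D : Dt n θ N, ∀ x y, R x y ↔ D.rel x y := by
  obtain ⟨col, pt, tag, F, -, -, -, -, hF⟩ := h.code hJ (by nlinarith) hθ
  obtain ⟨w, l, pos, hw⟩ := exists_small hN hJ (d := Dq n) (by omega)
    (lam J col θ (Rq n)) fun x => Sum.inl (pt x)
  refine ⟨(w, l, pos, tag, F), fun x y => ?_⟩
  rw [hF, hw]
  rfl

end Q229.TR
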